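import Mathlib

set_option autoImplicit false

namespace Pool.Agent.Helper122.Cuts

theorem exists_functional {W : Type} [AddCommGroup W] {p : ℕ} [Fact p.Prime] [Module (ZMod p) W]
    (w : W) (hw : w ≠ 0) : ∃ f : W →ₗ[ZMod p] ZMod p, f ≠ 0 := by
  let b := Module.Free.chooseBasis (ZMod p) W
  have : b.repr w ≠ 0 := by
    intro h; apply hw
    exact (LinearEquiv.map_eq_zero_iff b.repr).1 h
  obtain ⟨i, hi⟩ : ∃ i, b.repr w i ≠ 0 := by
    by_contra hcon
    push Not at hcon
    exact this (Finsupp.ext hcon)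
  refine ⟨b.coord i, fun h => hi ?_⟩
  have := DFunLike.congr_fun h w
  simpa using this

theorem nak {K : Type} [Group K] (hfg : Group.FG K) (p : ℕ) [Fact p.Prime]
    (h : ∀ φ : K →* Multiplicative (ZMod p), φ = 1) :
    ∃ k : ℕ, 0 < k ∧ ∀ g : K, g ^ k ∈ commutator K := by
  let V := Additive (Abelianization K)
  have hV : Module.Finite ℤ V := by
    have h1 : Group.FG (Abelianization K) :=
      Group.fg_of_surjective (f := Abelianization.of) (fun x => QuotientGroup.mk_surjective x)
    have h2 : AddGroup.FG V := inferInstanceAs (AddGroup.FG (Additive (Abelianization K)))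
    exact Module.Finite.iff_addGroup_fg.2 h2
  have hdiv : ∀ v : V, ∃ w : V, v = (p : ℤ) • w := by
    by_contra hcon
    push Not at hcon
    obtain ⟨v, hv⟩ := hcon
    let N : AddSubgroup V := (zsmulAddGroupHom (α := V) (p : ℤ)).range
    have hW : ∀ x : V ⧸ N, p • x = 0 := by
      intro x
      obtain ⟨x, rfl⟩ := QuotientAddGroup.mk_surjective x
      rw [← QuotientAddGroup.mk_nsmul, QuotientAddGroup.eq_zero_iff]
      exact ⟨x, by simp⟩
    let _ : Module (ZMod p) (V ⧸ N) := AddCommGroup.zmodModule hW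
    obtain ⟨f, hf⟩ := exists_functional (p := p) (QuotientAddGroup.mk v : V ⧸ N) (by
      intro h0
      rw [QuotientAddGroup.eq_zero_iff] at h0
      obtain ⟨w, hw⟩ := h0
      exact hv w (by simpa using hw.symm))
    apply hf
    let g : V →+ ZMod p := f.toAddMonoidHom.comp (QuotientAddGroup.mk' N)
    have hg := h ((AddMonoidHom.toMultiplicativeRight g).comp Abelianization.of)
    ext x
    obtain ⟨x, rfl⟩ := QuotientAddGroup.mk_surjective x
    obtain ⟨y, hy⟩ : ∃ y : K, Additive.ofMul (Abelianization.of y) = x := by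
      obtain ⟨y, hy⟩ := QuotientGroup.mk_surjective (Additive.toMul x)
      exact ⟨y, hy⟩
    have h2 := DFunLike.congr_fun hg y
    rw [← hy]
    exact h2
  obtain ⟨r, hr1, hr2⟩ := Submodule.exists_sub_one_mem_and_smul_eq_zero_of_fg_of_le_smul
    (Ideal.span {(p : ℤ)}) (⊤ : Submodule ℤ V) hV.fg_top (by
      intro v _
      obtain ⟨w, rfl⟩ := hdiv v
      exact Submodule.smul_mem_smul (Ideal.mem_span_singleton_self _) trivial)
  have hr0 : r ≠ 0 := by
    rintro rfl
    rw [Ideal.mem_span_singleton] at hr1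
    have h3 : (p : ℤ) ∣ 1 := by simpa using hr1
    have h4 : p ∣ 1 := by exact_mod_cast h3
    exact (Fact.out : p.Prime).one_lt.ne' (Nat.dvd_one.1 h4)
  refine ⟨r.natAbs, by omega, fun g => ?_⟩
  have h5 : r • (Additive.ofMul (Abelianization.of g) : V) = 0 := hr2 _ trivial
  have h6 : (Abelianization.of g) ^ r.natAbs = 1 := by
    have h7 : (Abelianization.of g) ^ r = 1 := h5
    rcases Int.natAbs_eq r with h8 | h8
    · rw [h8, zpow_natCast] at h7; exact h7
    · rw [h8, zpow_neg, zpow_natCast, inv_eq_one] at h7; exact h7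
  rw [← map_pow] at h6
  exact (QuotientGroup.eq_one_iff _).1 h6

end Pool.Agent.Helper122.Cuts
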