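import Pool.Agent.Helper122.LI

set_option autoImplicit false

namespace Pool.Agent.Helper122

variable {α : Type}

/-- Every element has a conjugate represented by a cyclically reduced word. -/
theorem exists_crdc (r : FreeGroup α) :
    ∃ R : List (α × Bool), CRdc R ∧ IsConj (FreeGroup.mk R) r := by
  classical
  have hex : ∃ n : ℕ, ∃ R : List (α × Bool), R.length = n ∧ IsConj (FreeGroup.mk R) r := by
    obtain ⟨L, hL⟩ := exists_mk r
    exact ⟨L.length, L, rfl, by rw [hL]⟩
  obtain ⟨R, hlen, hR⟩ := Nat.find_spec hex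
  refine ⟨R, ?_, hR⟩
  intro A B hAB A' B' x b hBA
  have h1 : IsConj (FreeGroup.mk (B ++ A) : FreeGroup α) (FreeGroup.mk R) := by
    rw [isConj_iff]
    refine ⟨FreeGroup.mk A, ?_⟩
    rw [hAB, ← FreeGroup.mul_mk, ← FreeGroup.mul_mk]
    group
  rw [hBA, mk_cancel] at h1
  have hlt : (A' ++ B').length < Nat.find hex := by
    rw [← hlen]
    have : R.length = (B ++ A).length := by rw [hAB]; simp [add_comm]
    rw [this, hBA]
    simp
  exact Nat.find_min hex hlt ⟨A' ++ B', rfl, h1.trans hR⟩

theorem normalClosure_conj {G : Type} [Group G] {a b : G} (h : IsConj a b) :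
    Subgroup.normalClosure ({a} : Set G) = Subgroup.normalClosure {b} := by
  have key : ∀ a b : G, IsConj a b → Subgroup.normalClosure ({a} : Set G) ≤
      Subgroup.normalClosure {b} := by
    intro a b h
    apply Subgroup.normalClosure_le_normal
    rw [Set.singleton_subset_iff]
    obtain ⟨c, hc⟩ := isConj_iff.1 h.symm
    rw [← hc]
    exact (Subgroup.normalClosure_normal (s := ({b} : Set G))).conj_mem b
      (Subgroup.subset_normalClosure rfl) c
  exact le_antisymm (key a b h) (key b a h.symm)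

theorem li_main (r : FreeGroup α) (hr : NotPow r)
    {G : Type} [Group G]
    (π : FreeGroup α →* G) (hπ : Function.Surjective π)
    (hker : π.ker = Subgroup.normalClosure {r})
    (T : Finset G) (hT : ∀ g ∈ T, ∃ k : ℕ, 0 < k ∧
      g ^ k ∈ ⁅Subgroup.closure (T : Set G), Subgroup.closure (T : Set G)⁆) :
    ∀ g ∈ T, g = 1 := by
  obtain ⟨R, hR, hc⟩ := exists_crdc r
  exact li_crdc R hR (hr.conj hc) π hπ (by rw [hker, normalClosure_conj hc]) T hT

theorem tf_main (r : FreeGroup α) (hr : NotPow r)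
    {G : Type} [Group G]
    (π : FreeGroup α →* G) (hπ : Function.Surjective π)
    (hker : π.ker = Subgroup.normalClosure {r}) (g : G) (k : ℕ) (hk : 0 < k) (hg : g ^ k = 1) :
    g = 1 := by
  refine li_main r hr π hπ hker {g} ?_ g (by simp)
  intro g' hg'
  rw [Finset.mem_singleton] at hg'
  subst hg'
  exact ⟨k, hk, by rw [hg]; exact Subgroup.one_mem _⟩

theorem le_norm_pow [DecidableEq α] (s : FreeGroup α) (hs : s ≠ 1) (m : ℕ) :
    m ≤ (s ^ m).toWord.length := by
  rcases Nat.eq_zero_or_pos m with rfl | hm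
  · exact Nat.zero_le _
  rw [FreeGroup.toWord_pow, FreeGroup.reduceCyclically.reduce_flatten_replicate
    FreeGroup.isReduced_toWord, if_neg hm.ne']
  have h1 : 1 ≤ (FreeGroup.reduceCyclically s.toWord).length := by
    by_contra h
    have h0 : FreeGroup.reduceCyclically s.toWord = [] := by
      rw [← List.length_eq_zero_iff]; omega
    have := FreeGroup.reduceCyclically.conj_conjugator_reduceCyclically s.toWord
    rw [h0, List.append_nil] at this
    apply hs
    rw [← FreeGroup.mk_toWord (x := s), ← this, ← FreeGroup.mul_mk, ← FreeGroup.inv_mk,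
      mul_inv_cancel]
  simp only [List.length_append, List.length_flatten, List.map_replicate, List.sum_replicate,
    smul_eq_mul]
  nlinarith

theorem exists_root (r : FreeGroup α) (hr : r ≠ 1) :
    ∃ (s : FreeGroup α) (m : ℕ), 1 ≤ m ∧ r = s ^ m ∧ NotPow s := by
  classical
  have hex : ∃ m : ℕ, 1 ≤ m ∧ ∃ s : FreeGroup α, r = s ^ m := ⟨1, le_rfl, r, by simp⟩
  have hb : ∀ m : ℕ, (1 ≤ m ∧ ∃ s : FreeGroup α, r = s ^ m) → m ≤ r.toWord.length := by
    rintro m ⟨hm, s, rfl⟩
    apply le_norm_pow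
    rintro rfl
    simp at hr
  obtain ⟨m, ⟨hm, s, hs⟩, hmax⟩ : ∃ m : ℕ, (1 ≤ m ∧ ∃ s : FreeGroup α, r = s ^ m) ∧
      ∀ m', (1 ≤ m' ∧ ∃ s : FreeGroup α, r = s ^ m') → m' ≤ m := by
    refine ⟨Nat.findGreatest (fun m => 1 ≤ m ∧ ∃ s : FreeGroup α, r = s ^ m) r.toWord.length,
      ?_, ?_⟩
    · exact Nat.findGreatest_spec (P := fun m => 1 ≤ m ∧ ∃ s : FreeGroup α, r = s ^ m)
        (hb 1 ⟨le_rfl, r, by simp⟩) ⟨le_rfl, r, by simp⟩
    · intro m' hm'
      exact Nat.le_findGreatest (hb m' hm') hm'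
  refine ⟨s, m, hm, hs, ?_⟩
  intro g k hk
  have hk0 : k ≠ 0 := by
    rintro rfl
    rw [zpow_zero] at hk
    rw [hk] at hs
    simp at hs
    exact hr hs
  -- r = g ^ (k m)
  have h1 : k.natAbs * m ≤ m := by
    apply hmax
    refine ⟨?_, ?_⟩
    · have : 1 ≤ k.natAbs := by omega
      nlinarith
    · rcases Int.natAbs_eq k with h | h
      · refine ⟨g, ?_⟩
        rw [hs, hk, pow_mul]
        congr 1
        nth_rewrite 1 [h]
        rw [zpow_natCast]
      · refine ⟨g⁻¹, ?_⟩
        rw [hs, hk, pow_mul]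
        congr 1
        nth_rewrite 1 [h]
        rw [zpow_neg, zpow_natCast, inv_pow]
  have h2 : k.natAbs ≤ 1 := by
    by_contra h
    push Not at h
    nlinarith
  omega

theorem pres_ker (r : FreeGroup α) :
    (PresentedGroup.mk ({r} : Set (FreeGroup α))).ker = Subgroup.normalClosure {r} :=
  QuotientGroup.ker_mk' _

/-- Torsion forces the relator to be a proper power. -/
theorem power_of_torsion (r : FreeGroup α)
    (h : ∃ g : PresentedGroup ({r} : Set (FreeGroup α)), g ≠ 1 ∧ IsOfFinOrder g) :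
    ∃ (s : FreeGroup α) (m : ℕ), 2 ≤ m ∧ r = s ^ m ∧ NotPow s := by
  obtain ⟨g, hg1, hg⟩ := h
  rw [isOfFinOrder_iff_pow_eq_one] at hg
  obtain ⟨k, hk, hgk⟩ := hg
  by_cases hr : r = 1
  · exfalso
    subst hr
    have hsurj : Function.Surjective (PresentedGroup.mk ({1} : Set (FreeGroup α))) :=
      PresentedGroup.mk_surjective _
    obtain ⟨w, rfl⟩ := hsurj g
    rw [← map_pow, ← MonoidHom.mem_ker, pres_ker] at hgk
    have hb : Subgroup.normalClosure ({1} : Set (FreeGroup α)) = ⊥ := by
      rw [eq_bot_iff]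
      apply Subgroup.normalClosure_le_normal
      simp
    rw [hb, Subgroup.mem_bot] at hgk
    apply hg1
    have : w = 1 := by
      have := (pow_left_injective (M := FreeGroup α) hk.ne') (a₁ := w) (a₂ := 1) (by simpa using hgk)
      exact this
    rw [this, map_one]
  · obtain ⟨s, m, hm, hs, hn⟩ := exists_root r hr
    refine ⟨s, m, ?_, hs, hn⟩
    by_contra hlt
    have hm1 : m = 1 := by omega
    subst hm1
    rw [pow_one] at hs
    subst hs
    apply hg1
    exact tf_main r hn _ (PresentedGroup.mk_surjective _) (pres_ker r) g k hk hgk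

end Pool.Agent.Helper122
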