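import Pool.Agent.Helper122.Union
import Pool.Agent.Helper122.OneRel
import Pool.Agent.Helper122.Nak

set_option autoImplicit false

namespace Pool.Agent.Helper122.Cuts

/-- The edge set of the Cayley graph of `Q` with `H` acting through `j`. -/
def EE {H Q : Type} [Group H] [Group Q] (_j : H →* Q) (α : Type) : Type := Q × α

instance {H Q : Type} [Group H] [Group Q] (j : H →* Q) (α : Type) : MulAction H (EE j α) where
  smul h e := (j h * e.1, e.2)
  one_smul e := by
    show (j 1 * e.1, e.2) = e
    rw [map_one, one_mul]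
    rfl
  mul_smul a b e := by
    show (j (a * b) * e.1, e.2) = (j a * (j b * e.1), e.2)
    simp [mul_assoc]

theorem EE.smul_def {H Q : Type} [Group H] [Group Q] (j : H →* Q) (α : Type) (h : H)
    (e : EE j α) : h • e = (j h * e.1, e.2) := rfl

section aff
variable {α Q : Type} [Group Q] {p : ℕ} (t : α → Q)

/-- translation -/
noncomputable def LL (g : Q) : (Q × α →₀ ZMod p) →+ (Q × α →₀ ZMod p) :=
  Finsupp.mapDomain.addMonoidHom (fun e : Q × α => (g * e.1, e.2))

theorem LL_mul (g h : Q) (m : Q × α →₀ ZMod p) : LL g (LL h m) = LL (g * h) m := by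
  simp only [LL, Finsupp.mapDomain.addMonoidHom_apply, ← Finsupp.mapDomain_comp]
  congr 1
  ext e <;> simp [mul_assoc]

theorem LL_one (m : Q × α →₀ ZMod p) : LL 1 m = m := by
  simp only [LL, Finsupp.mapDomain.addMonoidHom_apply, one_mul, Prod.mk.eta]
  exact Finsupp.mapDomain_id

/-- affine permutation attached to a generator -/
noncomputable def aff (x : α) : Equiv.Perm (Q × α →₀ ZMod p) where
  toFun m := Finsupp.single (1, x) 1 + LL (t x) m
  invFun m := LL (t x)⁻¹ (m - Finsupp.single (1, x) 1)
  left_inv m := by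
    simp only [add_sub_cancel_left, LL_mul, inv_mul_cancel, LL_one]
  right_inv m := by
    simp only [LL_mul, mul_inv_cancel, LL_one, add_sub_cancel]

theorem aff_key (w : FreeGroup α) (m : Q × α →₀ ZMod p) :
    (FreeGroup.lift (aff (p := p) t) w : Equiv.Perm _) m =
      (FreeGroup.lift (aff (p := p) t) w : Equiv.Perm _) 0 + LL (FreeGroup.lift t w) m := by
  induction w using FreeGroup.induction_on generalizing m with
  | C1 => simp [LL_one]
  | of x => simp [aff]
  | inv_of x _ =>
    simp only [map_inv, FreeGroup.lift_apply_of, Equiv.Perm.inv_def]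
    show LL (t x)⁻¹ (m - Finsupp.single (1, x) 1) = LL (t x)⁻¹ (0 - Finsupp.single (1, x) 1) + _
    rw [← map_add]
    congr 1
    abel
  | mul a b ha hb =>
    rw [map_mul, Equiv.Perm.mul_apply, Equiv.Perm.mul_apply, hb, ha,
      ha ((FreeGroup.lift (aff t) b : Equiv.Perm _) 0), map_add, map_mul, ← LL_mul]
    abel

/-- boundary -/
noncomputable def B0 : (Q × α →₀ ZMod p) →+ (Q →₀ ZMod p) :=
  Finsupp.liftAddHom (fun e : Q × α =>
    Finsupp.singleAddHom (e.1 * t e.2) - Finsupp.singleAddHom e.1)

theorem B0_single (e : Q × α) (c : ZMod p) : B0 t (Finsupp.single e c) =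
    Finsupp.single (e.1 * t e.2) c - Finsupp.single e.1 c := by
  simp [B0]

theorem B0_LL (g : Q) (m : Q × α →₀ ZMod p) : B0 t (LL g m) = tl g (B0 t m) := by
  have : (B0 t).comp (LL g) = (Finsupp.mapDomain.addMonoidHom (fun e : Q => g * e)).comp
      (B0 (p := p) t) := by
    apply Finsupp.addHom_ext
    intro e c
    simp only [AddMonoidHom.comp_apply, LL, Finsupp.mapDomain.addMonoidHom_apply,
      Finsupp.mapDomain_single, B0_single, mul_assoc]
    rw [sub_eq_add_neg, sub_eq_add_neg, Finsupp.mapDomain_add, ← Finsupp.single_neg,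
      ← Finsupp.single_neg, Finsupp.mapDomain_single, Finsupp.mapDomain_single]
  exact DFunLike.congr_fun this m

theorem aug_B0 (m : Q × α →₀ ZMod p) : aug (B0 t m) = 0 := by
  have : (aug).comp (B0 (p := p) t) = 0 := by
    apply Finsupp.addHom_ext
    intro e c
    simp only [AddMonoidHom.comp_apply, B0_single, map_sub, aug_single, sub_self,
      AddMonoidHom.zero_apply]
  exact DFunLike.congr_fun this m

theorem B0_der (w : FreeGroup α) :
    B0 t ((FreeGroup.lift (aff (p := p) t) w : Equiv.Perm _) 0) =
      Finsupp.single (FreeGroup.lift t w) 1 - Finsupp.single 1 1 := by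
  induction w using FreeGroup.induction_on with
  | C1 => simp
  | of x => simp [aff, B0_single]
  | inv_of x _ =>
    simp only [map_inv, FreeGroup.lift_apply_of, Equiv.Perm.inv_def]
    show B0 t (LL (t x)⁻¹ (0 - Finsupp.single (1, x) 1)) = _
    rw [B0_LL, zero_sub, map_neg, B0_single]
    simp only [one_mul, tl]
    rw [neg_sub, sub_eq_add_neg, Finsupp.mapDomain_add, ← Finsupp.single_neg,
      Finsupp.mapDomain_single, Finsupp.mapDomain_single]
    simp [sub_eq_add_neg]
  | mul a b ha hb =>
    rw [map_mul, Equiv.Perm.mul_apply, aff_key, map_add, B0_LL, ha, hb, map_mul]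
    simp only [tl]
    rw [sub_eq_add_neg (Finsupp.single (FreeGroup.lift t b) 1), Finsupp.mapDomain_add,
      ← Finsupp.single_neg, Finsupp.mapDomain_single, Finsupp.mapDomain_single]
    simp only [smul_eq_mul, mul_one, Finsupp.single_neg]
    abel

end aff

end Pool.Agent.Helper122.Cuts
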