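import Mathlib

set_option autoImplicit false

namespace Pool.Agent.Helper122.Cuts

variable {A : Type} [Group A] {ι : Type} [Fintype ι] (gen : ι → A)

/-- Edge boundary of a set in the (right) Cayley graph; the edge `(a, i)` joins `a` and `a * gen i`. -/
def bd (X : Set A) : Set (A × ι) := {e | ¬ (e.1 ∈ X ↔ e.1 * gen e.2 ∈ X)}

/-- Left translate `aX`. -/
def tr (a : A) (X : Set A) : Set A := {x | a⁻¹ * x ∈ X}

/-- Right invariance under a subgroup. -/
def RInv (Z : Subgroup A) (X : Set A) : Prop := ∀ x, ∀ z ∈ Z, (x * z ∈ X ↔ x ∈ X)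

/-- A cut: finite boundary, infinite, infinite complement. -/
def IsCut (X : Set A) : Prop := (bd gen X).Finite ∧ X.Infinite ∧ Xᶜ.Infinite

/-- Nested sets. -/
def Nested (X Y : Set A) : Prop := X ⊆ Y ∨ Y ⊆ X ∨ X ⊆ Yᶜ ∨ Xᶜ ⊆ Y

end Pool.Agent.Helper122.Cuts
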