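import Pool.Agent.Helper122.CutDefs

set_option autoImplicit false

namespace Pool.Agent.Helper122.Cuts

variable {A : Type} [Group A] {E : Type} [MulAction A E] {p : ℕ}

/-- Translation of a finitely supported function. -/
noncomputable def tl (a : A) (x : E →₀ ZMod p) : E →₀ ZMod p :=
  Finsupp.mapDomain (fun e => a • e) x

theorem tl_apply (a : A) (x : E →₀ ZMod p) (e : E) : tl a x e = x (a⁻¹ • e) := by
  have h := Finsupp.mapDomain_apply (f := fun e : E => a • e) (MulAction.injective a) x (a⁻¹ • e)
  simpa [tl] using h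

theorem tl_add (a : A) (x y : E →₀ ZMod p) : tl a (x + y) = tl a x + tl a y :=
  Finsupp.mapDomain_add

theorem tl_tl (a b : A) (x : E →₀ ZMod p) : tl a (tl b x) = tl (a * b) x := by
  ext e
  simp only [tl_apply, mul_inv_rev, mul_smul]

theorem tl_one (x : E →₀ ZMod p) : tl (1 : A) x = x := by
  ext e
  simp [tl_apply]

/-- Derivations. -/
def IsDer (D : A → (E →₀ ZMod p)) : Prop := ∀ a b, D (a * b) = D a + tl a (D b)

/-- Free action. -/
def FreeAct (A E : Type) [Group A] [MulAction A E] : Prop := ∀ (a : A) (e : E), a • e = e → a = 1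

theorem IsDer.apply {D : A → (E →₀ ZMod p)} (h : IsDer D) (a b : A) (e : E) :
    D (a * b) e = D a e + D b (a⁻¹ • e) := by
  rw [h a b, Finsupp.add_apply, tl_apply]

theorem IsDer.one {D : A → (E →₀ ZMod p)} (h : IsDer D) : D 1 = 0 := by
  have := h 1 1
  rw [mul_one, tl_one] at this
  simpa using this

/-- Kernel of a derivation. -/
def dker (D : A → (E →₀ ZMod p)) (h : IsDer D) : Subgroup A where
  carrier := {a | D a = 0}
  one_mem' := h.one
  mul_mem' := by
    intro a b ha hb
    simp only [Set.mem_ofPred_eq] at *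
    rw [h, ha, hb]; simp [tl]
  inv_mem' := by
    intro a ha
    simp only [Set.mem_ofPred_eq] at *
    have := h a a⁻¹
    rw [mul_inv_cancel, h.one, ha, zero_add] at this
    have h2 := congrArg (tl a⁻¹) this
    rw [tl_tl, inv_mul_cancel, tl_one] at h2
    rw [← h2]; simp [tl]

theorem mem_dker {D : A → (E →₀ ZMod p)} {h : IsDer D} {a : A} : a ∈ dker D h ↔ D a = 0 := Iff.rfl

theorem finite_smul_mem (hE : FreeAct A E) (e : E) (s : Set E) (hs : s.Finite) :
    {a : A | a⁻¹ • e ∈ s}.Finite := by
  apply Set.Finite.of_injOn (f := fun a : A => a⁻¹ • e) (t := s) (fun a ha => ha) _ hs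
  intro a _ b _ hab
  simp only at hab
  have : (b * a⁻¹) • e = e := by rw [mul_smul, hab, smul_inv_smul]
  have := hE _ _ this
  rw [mul_inv_eq_one] at this
  exact this.symm

variable {ι : Type} [Fintype ι] (gen : ι → A)

/-- level sets -/
def lev (D : A → (E →₀ ZMod p)) (e : E) (v : ZMod p) : Set A := {a | D a e = v}

theorem lev_bd (hE : FreeAct A E) {D : A → (E →₀ ZMod p)} (h : IsDer D) (e : E) (v : ZMod p) :
    (bd gen (lev D e v)).Finite := by
  have hfin : (⋃ i : ι, ({a : A | a⁻¹ • e ∈ ((D (gen i)).support : Set E)} ×ˢ ({i} : Set ι))).Finite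
      := by
    apply Set.finite_iUnion
    intro i
    apply Set.Finite.prod _ (Set.finite_singleton i)
    exact finite_smul_mem hE e _ (Finset.finite_toSet _)
  apply hfin.subset
  rintro ⟨a, i⟩ hai
  simp only [Set.mem_iUnion]
  refine ⟨i, ?_, rfl⟩
  simp only [Set.mem_ofPred_eq, Finset.mem_coe, Finsupp.mem_support_iff]
  intro h0
  apply hai
  simp only [lev, Set.mem_ofPred_eq]
  rw [h.apply, h0, add_zero]

theorem lev_rinv {D : A → (E →₀ ZMod p)} (h : IsDer D) (e : E) (v : ZMod p) :
    RInv (dker D h) (lev D e v) := by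
  intro x z hz
  rw [mem_dker] at hz
  simp only [lev, Set.mem_ofPred_eq]
  rw [h.apply, hz]; simp

/-- If no level set is a cut, the derivation is inner. -/
theorem inner_of_no_cut [Fact p.Prime] [Infinite A] (hgen : Subgroup.closure (Set.range gen) = ⊤)
    (hE : FreeAct A E) {D : A → (E →₀ ZMod p)} (h : IsDer D)
    (hno : ∀ e v, ¬ IsCut gen (lev D e v)) :
    ∃ c : E →₀ ZMod p, ∀ a, D a = c - tl a c := by
  classical
  have : NeZero p := ⟨(Fact.out : p.Prime).ne_zero⟩
  have h1 : ∀ e, ∃ v, (lev D e v)ᶜ.Finite := by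
    intro e
    have hex : ∃ v : ZMod p, (lev D e v).Infinite := by
      by_contra hcon
      push Not at hcon
      have : (Set.univ : Set A).Finite := by
        have hU : (⋃ v : ZMod p, lev D e v) = Set.univ := by
          ext a; simp [lev]
        rw [← hU]
        exact Set.finite_iUnion (fun v => hcon v)
      exact Set.infinite_univ this
    obtain ⟨v, hv⟩ := hex
    refine ⟨v, ?_⟩
    by_contra hinf
    exact hno e v ⟨lev_bd gen hE h e v, hv, hinf⟩
  choose c hc using h1
  have huniq : ∀ (s t : Set A), sᶜ.Finite → tᶜ.Finite → (s ∩ t).Nonempty := by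
    intro s t hs ht
    by_contra hcon
    rw [Set.not_nonempty_iff_eq_empty] at hcon
    have : (s ∩ t)ᶜ.Finite := by rw [Set.compl_inter]; exact hs.union ht
    rw [hcon, Set.compl_empty] at this
    exact Set.infinite_univ this
  have heq : ∀ a e, D a e = c e - c (a⁻¹ • e) := by
    intro a e
    have s1 : ({b : A | a * b ∈ lev D e (c e)})ᶜ.Finite := by
      have : ({b : A | a * b ∈ lev D e (c e)})ᶜ = (fun b => a * b) ⁻¹' (lev D e (c e))ᶜ := rfl
      rw [this]
      exact (hc e).preimage ((mul_right_injective a).injOn)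
    obtain ⟨b, hb1, hb2⟩ := huniq _ _ s1 (hc (a⁻¹ • e))
    simp only [lev, Set.mem_ofPred_eq] at hb1 hb2
    rw [h.apply, hb2] at hb1
    rw [← hb1]; ring
  have hsupp : (Function.support c).Finite := by
    -- finitely many relevant orbits
    have key : Function.support c ⊆ ⋃ i : ι, ⋃ e0 ∈ ((D (gen i)).support : Set E),
        (fun a : A => a • e0) '' {a : A | a⁻¹ ∈ (lev D e0 (c e0))ᶜ} := by
      intro e he
      -- some f_e is not identically zero
      have hne : ∃ i : ι, ∃ a : A, D (gen i) (a⁻¹ • e) ≠ 0 := by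
        by_contra hcon
        push Not at hcon
        have hz : ∀ a : A, ∀ b : A, D a (b⁻¹ • e) = 0 := by
          intro a
          have ha : a ∈ Subgroup.closure (Set.range gen) := by rw [hgen]; trivial
          induction ha using Subgroup.closure_induction with
          | mem x hx =>
            obtain ⟨i, rfl⟩ := hx
            intro b; exact hcon i b
          | one => intro b; rw [h.one]; rfl
          | mul x y _ _ hx hy =>
            intro b
            rw [h.apply, hx, ← mul_smul, ← mul_inv_rev, hy, add_zero]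
          | inv x _ hx =>
            intro b
            have := h.apply x⁻¹ x (b⁻¹ • e)
            rw [inv_mul_cancel, h.one, ← mul_smul, ← mul_inv_rev, hx, add_zero] at this
            exact this.symm
        obtain ⟨a, ha1, -⟩ := huniq _ _ (hc e) (hc e)
        apply he
        simp only [lev, Set.mem_ofPred_eq] at ha1
        rw [← ha1]
        have := hz a 1
        simpa using this
      obtain ⟨i, a, hia⟩ := hne
      simp only [Set.mem_iUnion]
      refine ⟨i, a⁻¹ • e, by simpa using hia, a, ?_, by simp⟩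
      simp only [Set.mem_ofPred_eq, Set.mem_compl_iff, lev]
      rw [heq]
      simp only [inv_inv, smul_inv_smul]
      intro hcon
      apply he
      have : c (a⁻¹ • e) - c e = c (a⁻¹ • e) := hcon
      have h3 : c e = 0 := by
        have := sub_eq_self.1 this
        exact this
      exact h3
    apply Set.Finite.subset _ key
    apply Set.finite_iUnion
    intro i
    apply Set.Finite.biUnion (Finset.finite_toSet _)
    intro e0 _
    apply Set.Finite.image
    exact (hc e0).preimage (inv_injective.injOn)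
  refine ⟨Finsupp.ofSupportFinite c hsupp, fun a => ?_⟩
  ext e
  rw [Finsupp.sub_apply, tl_apply, heq]
  rfl

/-- Stabilisers of nonzero vectors are trivial in a torsion free group. -/
theorem eq_one_of_tl_eq (htf : ∀ a : A, ∀ n : ℕ, 0 < n → a ^ n = 1 → a = 1) (hE : FreeAct A E)
    (c : E →₀ ZMod p) (hc : c ≠ 0) (a : A) (ha : tl a c = c) : a = 1 := by
  classical
  obtain ⟨e, he⟩ : ∃ e, c e ≠ 0 := by
    by_contra hcon
    push Not at hcon
    exact hc (Finsupp.ext hcon)
  have hpow : ∀ n : ℕ, (a ^ n)⁻¹ • e ∈ c.support := by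
    intro n
    induction n with
    | zero => simpa using he
    | succ n ih =>
      rw [Finsupp.mem_support_iff] at ih ⊢
      rw [pow_succ, mul_inv_rev, mul_smul, ← tl_apply, ha]
      exact ih
  obtain ⟨n, m, hnm, hE2⟩ : ∃ n m : ℕ, n < m ∧ (a ^ n)⁻¹ • e = (a ^ m)⁻¹ • e := by
    have := Finite.exists_ne_map_eq_of_infinite
      (fun n : ℕ => (⟨(a ^ n)⁻¹ • e, hpow n⟩ : c.support))
    obtain ⟨n, m, hne, heq⟩ := this
    have heq' := congrArg Subtype.val heq
    simp only at heq'
    rcases lt_or_gt_of_ne hne with hlt | hlt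
    · exact ⟨n, m, hlt, heq'⟩
    · exact ⟨m, n, hlt, heq'.symm⟩
  apply htf a (m - n) (by omega)
  apply hE _ e
  have h3 : (a ^ m) • ((a ^ n)⁻¹ • e) = e := by rw [hE2, smul_inv_smul]
  rw [← mul_smul] at h3
  rw [← h3]
  congr 1
  have : a ^ m = a ^ (m - n) * a ^ n := by rw [← pow_add]; congr 1; omega
  rw [this]
  group

end Pool.Agent.Helper122.Cuts
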