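import Pool.Agent.Helper122.Walks

set_option autoImplicit false

namespace Pool.Agent.Helper122

variable {α : Type} {Ω : Type}

/-- No nonempty reduced closed walk inside the edge set. -/
def Forest (τ : α → Equiv.Perm Ω) (Γ : Set (Ω × α)) : Prop :=
  ∀ ω L, Rdc L → (∀ e ∈ edges τ L ω, e ∈ Γ) → walk τ L ω = ω → L = []

/-- Every integer labelling killing the relator cycles has vanishing periods. -/
def Acyc (τ : α → Equiv.Perm Ω) (R : List (α × Bool)) (Γ : Set (Ω × α)) (C : Finset Ω) : Prop :=
  ∀ χ : Ω × α → ℤ, (∀ c ∈ C, zs τ χ R c = 0) →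
    ∀ ω L, (∀ e ∈ edges τ L ω, e ∈ Γ) → walk τ L ω = ω → zs τ χ L ω = 0

theorem Forest.mono {τ : α → Equiv.Perm Ω} {Γ Γ' : Set (Ω × α)} (h : Forest τ Γ) (hs : Γ' ⊆ Γ) :
    Forest τ Γ' := fun ω L h1 h2 h3 => h ω L h1 (fun e he => hs (h2 e he)) h3

/-- characteristic labelling of an edge -/
noncomputable def delta (e : Ω × α) : Ω × α → ℤ := by
  classical exact fun f => if f = e then 1 else 0

theorem zs_delta_eq_zero (τ : α → Equiv.Perm Ω) (e : Ω × α) (L : List (α × Bool)) (ω : Ω)
    (h : e ∉ edges τ L ω) : zs τ (delta e) L ω = 0 := by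
  induction L with
  | nil => rfl
  | cons l L ih =>
    simp only [edges_cons, List.mem_cons, not_or] at h
    rw [zs_cons, ih h.2]
    have : delta e (edgeOf τ l (walk τ L ω)) = 0 := by
      simp only [delta]; rw [if_neg]; exact fun h' => h.1 h'.symm
    simp [this]

theorem edge_cases (τ : α → Equiv.Perm Ω) {l l' : α × Bool} {ω ω' : Ω}
    (h : edgeOf τ l ω = edgeOf τ l' ω') :
    (l' = l ∧ ω' = ω) ∨ (l' = invl l ∧ ω' = step τ l ω) := by
  rcases l with ⟨x, b⟩
  rcases l' with ⟨x', b'⟩
  simp only [edgeOf, Prod.mk.injEq] at h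
  obtain ⟨h1, rfl⟩ := h
  cases b <;> cases b' <;> simp [invl, step] at h1 ⊢
  · exact h1.symm
  · exact h1.symm
  · rw [h1]; simp
  · exact h1.symm

/-- first traversal of an edge -/
theorem first_trav (τ : α → Equiv.Perm Ω) {e : Ω × α} {L : List (α × Bool)} {ω : Ω}
    (h : e ∈ edges τ L ω) : ∃ A B : List (α × Bool), ∃ l, L = A ++ l :: B ∧
      e = edgeOf τ l (walk τ B ω) ∧ e ∉ edges τ B ω := by
  induction L with
  | nil => simp at h
  | cons m L ih =>
    by_cases hm : e ∈ edges τ L ω
    · obtain ⟨A, B, l, rfl, h1, h2⟩ := ih hm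
      exact ⟨m :: A, B, l, rfl, h1, h2⟩
    · simp only [edges_cons, List.mem_cons, hm, or_false] at h
      exact ⟨[], L, m, rfl, h, hm⟩

/-- last traversal of an edge -/
theorem last_trav (τ : α → Equiv.Perm Ω) {e : Ω × α} {L : List (α × Bool)} {ω : Ω}
    (h : e ∈ edges τ L ω) : ∃ A B : List (α × Bool), ∃ l, L = A ++ l :: B ∧
      e = edgeOf τ l (walk τ B ω) ∧ e ∉ edges τ A (step τ l (walk τ B ω)) := by
  induction L with
  | nil => simp at h
  | cons m L ih =>
    by_cases hm : e = edgeOf τ m (walk τ L ω)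
    · exact ⟨[], L, m, rfl, hm, by simp⟩
    · simp only [edges_cons, List.mem_cons, hm, false_or] at h
      obtain ⟨A, B, l, rfl, h1, h2⟩ := ih h
      refine ⟨m :: A, B, l, rfl, h1, ?_⟩
      rw [walk_append, walk_cons] at hm
      simp only [edges_cons, List.mem_cons, not_or]
      exact ⟨hm, h2⟩

theorem acyc_empty_forest (τ : α → Equiv.Perm Ω) (R : List (α × Bool)) (Γ : Set (Ω × α))
    (h : Acyc τ R Γ ∅) : Forest τ Γ := by
  classical
  by_contra hF
  -- minimal length counterexample
  have hex : ∃ n : ℕ, ∃ ω L, L.length = n ∧ Rdc L ∧ (∀ e ∈ edges τ L ω, e ∈ Γ) ∧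
      walk τ L ω = ω ∧ L ≠ [] := by
    simp only [Forest, not_forall] at hF
    obtain ⟨ω, L, h1, h2, h3, h4⟩ := hF
    exact ⟨_, ω, L, rfl, h1, h2, h3, h4⟩
  obtain ⟨ω, L, hn, h1, h2, h3, h4⟩ := Nat.find_spec hex
  have hmin : ∀ ω' L', L'.length < Nat.find hex → Rdc L' → (∀ e ∈ edges τ L' ω', e ∈ Γ) →
      walk τ L' ω' = ω' → L' = [] := by
    intro ω' L' hl a b c
    by_contra hne
    exact Nat.find_min hex hl ⟨ω', L', rfl, a, b, c, hne⟩
  rcases L with _ | ⟨l, L'⟩
  · exact h4 rfl
  obtain ⟨p, hp⟩ : ∃ p, p = walk τ L' ω := ⟨_, rfl⟩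
  have hq : step τ l p = ω := by rw [hp]; exact h3
  have hnot : edgeOf τ l p ∉ edges τ L' ω := by
    intro hmem
    obtain ⟨A, B, l2, hL, he, -⟩ := first_trav τ hmem
    subst hL
    rcases edge_cases τ he with ⟨h5, h6⟩ | ⟨h5, h6⟩
    · -- same direction : A ++ [l2] closed at p
      subst h5
      rw [walk_append, walk_cons, h6] at hp
      have := hmin p (A ++ [l2]) (by rw [← hn]; simp) (h1.sub (A := [l2]) (C := B) (by simp))
        (by
          intro e hme
          apply h2
          rw [edges_append] at hme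
          simp only [edges_cons, List.mem_cons, edges_append, List.mem_append, walk_cons, h6]
          simp only [walk_cons, walk_nil, edges_cons, edges_nil, List.mem_append, List.mem_cons,
            List.not_mem_nil, or_false] at hme
          tauto) (by rw [walk_append]; simpa using hp.symm)
      simp at this
    · rw [hq] at h6
      have hB := hmin ω B (by rw [← hn]; simp; omega) (h1.sub (A := l :: A ++ [l2]) (C := [])
          (by simp)) (by
          intro e hme; apply h2
          simp only [edges_cons, List.mem_cons, edges_append, List.mem_append]; tauto) h6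
      subst hB
      subst h5
      have hst : step τ (invl l) ω = p := by rw [← hq]; simp
      have hA := hmin p A (by rw [← hn]; simp) (h1.sub (A := [l]) (C := [invl l])
          (by simp)) (by
          intro e hme; apply h2
          simp only [edges_cons, List.mem_cons, edges_append, List.mem_append, walk_cons, walk_nil,
            hst]; tauto) (by
          rw [walk_append, walk_cons, walk_nil, hst] at hp; exact hp.symm)
      subst hA
      apply h1 [] [] l.1 l.2
      simp [invl]
  have := h (delta (edgeOf τ l p)) (by simp) ω (l :: L') h2 h3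
  rw [zs_cons, zs_delta_eq_zero τ _ _ _ hnot] at this
  rw [← hp] at this
  simp only [delta, if_true, add_zero] at this
  split_ifs at this <;> simp at this

/-- potentials -/
theorem exists_pot {Q : Type} [Group Q] (τ : α → Equiv.Perm Ω) (Γ : Set (Ω × α))
    (μ : Ω × α → Q)
    (h : ∀ ω L, (∀ e ∈ edges τ L ω, e ∈ Γ) → walk τ L ω = ω → pr τ μ L ω = 1) :
    ∃ φ : Ω → Q, ∀ ω y, (ω, y) ∈ Γ → μ (ω, y) = φ (τ y ω) * (φ ω)⁻¹ := by
  classical
  let S : Setoid Ω := {
    r := fun a b => ∃ L, (∀ e ∈ edges τ L a, e ∈ Γ) ∧ walk τ L a = b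
    iseqv := {
      refl := fun a => ⟨[], by simp, rfl⟩
      symm := by
        rintro a b ⟨L, h1, rfl⟩
        exact ⟨invL L, fun e he => h1 e ((mem_edges_invL τ L a e).1 he), walk_invL τ L a⟩
      trans := by
        rintro a b c ⟨L, h1, rfl⟩ ⟨L', h2, rfl⟩
        refine ⟨L' ++ L, ?_, walk_append τ _ _ _⟩
        intro e he
        rw [edges_append, List.mem_append] at he
        rcases he with he | he
        · exact h2 e he
        · exact h1 e he } }
  have hr : ∀ ω : Ω, ∃ L, (∀ e ∈ edges τ L (Quotient.out (Quotient.mk S ω)), e ∈ Γ) ∧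
      walk τ L (Quotient.out (Quotient.mk S ω)) = ω := by
    intro ω
    exact Quotient.mk_out (s := S) ω
  choose P hP1 hP2 using hr
  refine ⟨fun ω => pr τ μ (P ω) (Quotient.out (Quotient.mk S ω)), fun ω y hy => ?_⟩
  have hrep : Quotient.mk S (τ y ω) = Quotient.mk S ω := by
    apply Quotient.sound
    refine ⟨[(y, false)], ?_, ?_⟩
    · simpa [edgeOf] using hy
    · simp [step]
  have h1 := hP1 (τ y ω)
  have h2 := hP2 (τ y ω)
  rw [hrep] at h1 h2
  have key := h (Quotient.out (Quotient.mk S ω)) (invL (P (τ y ω)) ++ ((y, true) :: P ω)) (by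
    intro e he
    rw [edges_append, List.mem_append] at he
    have hw : walk τ ((y, true) :: P ω) (Quotient.out (Quotient.mk S ω)) =
        walk τ (P (τ y ω)) (Quotient.out (Quotient.mk S ω)) := by
      rw [h2, walk_cons, hP2]; simp [step]
    rcases he with he | he
    · rw [hw, mem_edges_invL] at he
      exact h1 e he
    · simp only [edges_cons, List.mem_cons, hP2] at he
      rcases he with he | he
      · rw [he]; simpa [edgeOf] using hy
      · exact hP1 ω e he) (by
    have hw : walk τ ((y, true) :: P ω) (Quotient.out (Quotient.mk S ω)) =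
        walk τ (P (τ y ω)) (Quotient.out (Quotient.mk S ω)) := by
      rw [h2, walk_cons, hP2]; simp [step]
    rw [walk_append, hw, walk_invL])
  have hw : walk τ ((y, true) :: P ω) (Quotient.out (Quotient.mk S ω)) =
        walk τ (P (τ y ω)) (Quotient.out (Quotient.mk S ω)) := by
      rw [h2, walk_cons, hP2]; simp [step]
  rw [pr_append, hw, pr_invL, pr_cons, hP2] at key
  simp only [lab, edgeOf, if_true] at key
  show μ (ω, y) = pr τ μ (P (τ y ω)) (Quotient.out (Quotient.mk S (τ y ω))) * _
  rw [hrep, eq_mul_inv_iff_mul_eq]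
  rw [inv_mul_eq_one] at key
  exact key.symm

theorem Forest.pot {Q : Type} [Group Q] {τ : α → Equiv.Perm Ω} {Γ : Set (Ω × α)}
    (h : Forest τ Γ) (μ : Ω × α → Q) :
    ∃ φ : Ω → Q, ∀ ω y, (ω, y) ∈ Γ → μ (ω, y) = φ (τ y ω) * (φ ω)⁻¹ := by
  apply exists_pot
  intro ω L h1 h2
  obtain ⟨L', h3, h4, h5⟩ := exists_rdc τ L
  have : L' = [] := h ω L' h3 (fun e he => h1 e (h5 ω e he)) (by
    rw [walk_eq_of_mk_eq τ h4, h2])
  subst this
  rw [← pr_eq_of_mk_eq τ μ h4]; rfl

/-- Telescoping along a forest plus one extra edge. -/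
theorem tele {Q : Type} [Group Q] (τ : α → Equiv.Perm Ω) (T : Set (Ω × α)) (e : Ω × α)
    (μ : Ω × α → Q) (ψ : Ω → Q) (θ : Q)
    (h1 : ∀ ω y, (ω, y) ∈ T → (ω, y) ≠ e → μ (ω, y) = ψ (τ y ω) * (ψ ω)⁻¹)
    (h2 : μ e = ψ (τ e.2 e.1) * θ * (ψ e.1)⁻¹) (L : List (α × Bool)) (ω : Ω)
    (hL : ∀ f ∈ edges τ L ω, f ∈ T ∨ f = e) :
    pr τ μ L ω = ψ (walk τ L ω) * θ ^ (zs τ (delta e) L ω) * (ψ ω)⁻¹ := by
  induction L with
  | nil => simp
  | cons l L ih =>
    have ih' := ih (fun f hf => hL f (by simp [hf]))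
    rw [pr_cons, ih', zs_cons]
    have hl := hL (edgeOf τ l (walk τ L ω)) (by simp)
    rcases l with ⟨y, b⟩
    obtain ⟨p, hp⟩ : ∃ p, p = walk τ L ω := ⟨_, rfl⟩
    rw [walk_cons]
    rw [← hp] at hl ⊢
    by_cases he : edgeOf τ (y, b) p = e
    · have hd : delta e (edgeOf τ (y, b) p) = 1 := by simp [delta, he]
      rw [hd]
      cases b
      · simp only [edgeOf, Bool.false_eq_true, if_false] at he
        simp only [lab, edgeOf, Bool.false_eq_true, if_false, step]
        rw [he, h2, ← he]
        simp only [Equiv.apply_symm_apply, zpow_add, zpow_neg, zpow_one]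
        group
      · simp only [edgeOf, if_true] at he
        simp only [lab, edgeOf, if_true, step]
        rw [he, h2, ← he]
        simp only [zpow_add, zpow_one]
        group
    · have hd : delta e (edgeOf τ (y, b) p) = 0 := by simp [delta, he]
      have hT := hl.resolve_right he
      rw [hd]
      cases b
      · simp only [edgeOf, Bool.false_eq_true, if_false] at he hT
        simp only [lab, edgeOf, Bool.false_eq_true, if_false, step]
        rw [h1 _ _ hT he]
        simp only [Equiv.apply_symm_apply]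
        group
      · simp only [edgeOf, if_true] at he hT
        simp only [lab, edgeOf, if_true, step]
        rw [h1 _ _ hT he]
        group

end Pool.Agent.Helper122
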