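import Mathlib

set_option autoImplicit false

namespace Pool.Agent.Helper122.Cuts

variable {H : Type} [Group H]

/-- `K` is the internal free product of `A1` and `A2`. -/
def FP (K A1 A2 : Subgroup H) : Prop :=
  Function.Injective (Monoid.Coprod.lift A1.subtype A2.subtype) ∧ A1 ⊔ A2 = K

/-- `S` is a free basis of the subgroup `K`. -/
def Bas (S : Set H) (K : Subgroup H) : Prop :=
  Function.Injective (FreeGroup.lift (fun s : S => (s : H))) ∧ Subgroup.closure S = K

theorem lift_range (S : Set H) :
    (FreeGroup.lift (fun s : S => (s : H))).range = Subgroup.closure S := by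
  rw [FreeGroup.range_lift_eq_closure, Subtype.range_coe]

theorem Bas.retr {S : Set H} {K : Subgroup H} (h : Bas S K) :
    ∃ e : K ≃* FreeGroup S, ∀ s : S, ∀ hs : (s : H) ∈ K, e ⟨s, hs⟩ = FreeGroup.of s := by
  have hr : ∀ w, FreeGroup.lift (fun s : S => (s : H)) w ∈ K := by
    intro w
    rw [← h.2, ← lift_range]
    exact ⟨w, rfl⟩
  let f : FreeGroup S →* K := (FreeGroup.lift (fun s : S => (s : H))).codRestrict K hr
  have hf : Function.Bijective f := by
    constructor
    · intro a b hab
      apply h.1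
      exact congrArg Subtype.val hab
    · rintro ⟨x, hx⟩
      rw [← h.2, ← lift_range] at hx
      obtain ⟨w, hw⟩ := hx
      exact ⟨w, Subtype.ext hw⟩
  refine ⟨(MulEquiv.ofBijective f hf).symm, fun s hs => ?_⟩
  rw [MulEquiv.symm_apply_eq]
  apply Subtype.ext
  simp [f]

theorem Bas.isFree {S : Set H} {K : Subgroup H} (h : Bas S K) : IsFreeGroup K := by
  obtain ⟨e, -⟩ := h.retr
  exact IsFreeGroup.ofMulEquiv e.symm

theorem exists_bas_of_free {K : Subgroup H} (h : IsFreeGroup K) : ∃ S, Bas S K := by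
  let b := IsFreeGroup.toFreeGroup K
  let f : IsFreeGroup.Generators K → H := fun g => ((b.symm (FreeGroup.of g) : K) : H)
  have hf : (FreeGroup.lift f) = K.subtype.comp b.symm.toMonoidHom := by
    apply FreeGroup.ext_hom; intro g; simp [f]
  have hinj : Function.Injective (FreeGroup.lift f) := by
    rw [hf]
    exact K.subtype_injective.comp b.symm.injective
  have hfi : Function.Injective f := by
    intro x y hxy
    have : FreeGroup.lift f (FreeGroup.of x) = FreeGroup.lift f (FreeGroup.of y) := by simpa using hxy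
    exact FreeGroup.of_injective (hinj this)
  refine ⟨Set.range f, ?_, ?_⟩
  · let e : IsFreeGroup.Generators K ≃ Set.range f := Equiv.ofInjective f hfi
    have : (FreeGroup.lift (fun s : Set.range f => (s : H))) =
        (FreeGroup.lift f).comp (FreeGroup.freeGroupCongr e.symm).toMonoidHom := by
      apply FreeGroup.ext_hom
      intro s
      obtain ⟨g, rfl⟩ := e.surjective s
      simp [e]
    rw [this]
    exact hinj.comp (FreeGroup.freeGroupCongr e.symm).injective
  · rw [← FreeGroup.range_lift_eq_closure, hf]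
    ext x
    constructor
    · rintro ⟨w, rfl⟩
      exact (b.symm w).2
    · intro hx
      exact ⟨b ⟨x, hx⟩, by simp⟩

theorem exists_bas_of_le {S : Set H} {K Z : Subgroup H} (h : Bas S K) (hZ : Z ≤ K) :
    ∃ S', Bas S' Z := by
  have h1 := h.isFree
  have h2 : IsFreeGroup (Z.subgroupOf K) := inferInstance
  have h3 : IsFreeGroup Z := IsFreeGroup.ofMulEquiv (Subgroup.subgroupOfEquivOfLe hZ)
  exact exists_bas_of_free h3

theorem Bas.eq_empty {S : Set H} (h : Bas S (⊥ : Subgroup H)) : S = ∅ := by
  by_contra hne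
  obtain ⟨s, hs⟩ := Set.nonempty_iff_ne_empty.2 hne
  have h1 : s = 1 := by
    have : s ∈ Subgroup.closure S := Subgroup.subset_closure hs
    rw [h.2] at this
    simpa using this
  have h2 : FreeGroup.lift (fun s : S => (s : H)) (FreeGroup.of ⟨s, hs⟩) =
    FreeGroup.lift (fun s : S => (s : H)) 1 := by simpa using h1
  have := h.1 h2
  exact FreeGroup.of_ne_one _ this

theorem bas_empty : Bas (∅ : Set H) ⊥ := by
  constructor
  · intro a b _
    exact Subsingleton.elim _ _
  · simp

theorem bas_union {K A1 A2 : Subgroup H} {S1 S2 : Set H} (h : FP K A1 A2) (h1 : Bas S1 A1)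
    (h2 : Bas S2 A2) : Bas (S1 ∪ S2) K := by
  classical
  refine ⟨?_, by rw [Subgroup.closure_union, h1.2, h2.2, h.2]⟩
  obtain ⟨e1, he1⟩ := h1.retr
  obtain ⟨e2, he2⟩ := h2.retr
  have hS1 : ∀ s ∈ S1, s ∈ A1 := fun s hs => by rw [← h1.2]; exact Subgroup.subset_closure hs
  have hS2 : ∀ s ∈ S2, s ∈ A2 := fun s hs => by rw [← h2.2]; exact Subgroup.subset_closure hs
  let F : FreeGroup ↥(S1 ∪ S2) →* Monoid.Coprod A1 A2 := FreeGroup.lift (fun s =>
    if hs : (s : H) ∈ S1 then Monoid.Coprod.inl ⟨s, hS1 _ hs⟩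
    else Monoid.Coprod.inr ⟨s, hS2 _ (s.2.resolve_left hs)⟩)
  have hcomp : (Monoid.Coprod.lift A1.subtype A2.subtype).comp F =
      FreeGroup.lift (fun s : ↥(S1 ∪ S2) => (s : H)) := by
    apply FreeGroup.ext_hom
    intro s
    simp only [MonoidHom.comp_apply, F, FreeGroup.lift_apply_of]
    split_ifs with hs
    · simp
    · simp
  rw [← hcomp, MonoidHom.coe_comp]
  apply h.1.comp
  let j1 : FreeGroup S1 →* FreeGroup ↥(S1 ∪ S2) := FreeGroup.map (Set.inclusion Set.subset_union_left)
  let j2 : FreeGroup S2 →* FreeGroup ↥(S1 ∪ S2) := FreeGroup.map (Set.inclusion Set.subset_union_right)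
  let B : Monoid.Coprod A1 A2 →* FreeGroup ↥(S1 ∪ S2) :=
    Monoid.Coprod.lift (j1.comp e1.toMonoidHom) (j2.comp e2.toMonoidHom)
  have hBF : B.comp F = MonoidHom.id _ := by
    apply FreeGroup.ext_hom
    intro s
    simp only [MonoidHom.comp_apply, F, FreeGroup.lift_apply_of]
    split_ifs with hs
    · have := he1 ⟨s, hs⟩ (hS1 _ hs)
      simp only [B, Monoid.Coprod.lift_apply_inl, MonoidHom.comp_apply, MulEquiv.coe_toMonoidHom,
        this, j1, MonoidHom.id_apply, FreeGroup.map.of]
    · have := he2 ⟨s, s.2.resolve_left hs⟩ (hS2 _ (s.2.resolve_left hs))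
      simp only [B, Monoid.Coprod.lift_apply_inr, MonoidHom.comp_apply, MulEquiv.coe_toMonoidHom,
        this, j2, MonoidHom.id_apply, FreeGroup.map.of]
  have hinj : Function.Injective (B.comp F) := by rw [hBF]; exact fun _ _ h => h
  rw [MonoidHom.coe_comp] at hinj
  exact hinj.of_comp

/-- The equivalence with the abstract free product. -/
theorem FP.equiv {K A1 A2 : Subgroup H} (h : FP K A1 A2) :
    ∃ e : Monoid.Coprod A1 A2 ≃* K, ∀ w, ((e w : K) : H) =
      Monoid.Coprod.lift A1.subtype A2.subtype w := by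
  have hr : (Monoid.Coprod.lift A1.subtype A2.subtype).range = K := by
    rw [Monoid.Coprod.range_lift, Subgroup.range_subtype, Subgroup.range_subtype, h.2]
  have hm : ∀ w, Monoid.Coprod.lift A1.subtype A2.subtype w ∈ K := by
    intro w; rw [← hr]; exact ⟨w, rfl⟩
  let f : Monoid.Coprod A1 A2 →* K := (Monoid.Coprod.lift A1.subtype A2.subtype).codRestrict K hm
  have hf : Function.Bijective f := by
    constructor
    · intro a b hab
      exact h.1 (congrArg Subtype.val hab)
    · rintro ⟨x, hx⟩
      rw [← hr] at hx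
      obtain ⟨w, hw⟩ := hx
      exact ⟨w, Subtype.ext hw⟩
  exact ⟨MulEquiv.ofBijective f hf, fun w => rfl⟩

theorem FP.fg_left {K A1 A2 : Subgroup H} (h : FP K A1 A2) (hK : K.FG) : A1.FG := by
  obtain ⟨e, -⟩ := h.equiv
  rw [← Group.fg_iff_subgroup_fg] at hK ⊢
  let f : K →* A1 := (Monoid.Coprod.lift (MonoidHom.id A1) (1 : A2 →* A1)).comp e.symm.toMonoidHom
  have hf : Function.Surjective f := by
    intro a
    refine ⟨e (Monoid.Coprod.inl a), ?_⟩
    simp [f]
  exact Group.fg_of_surjective hf

theorem FP.fg_right {K A1 A2 : Subgroup H} (h : FP K A1 A2) (hK : K.FG) : A2.FG := by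
  obtain ⟨e, -⟩ := h.equiv
  rw [← Group.fg_iff_subgroup_fg] at hK ⊢
  let f : K →* A2 := (Monoid.Coprod.lift (1 : A1 →* A2) (MonoidHom.id A2)).comp e.symm.toMonoidHom
  have hf : Function.Surjective f := by
    intro a
    refine ⟨e (Monoid.Coprod.inr a), ?_⟩
    simp [f]
  exact Group.fg_of_surjective hf

theorem finite_hom {G P : Type} [Group G] [Group P] [Finite P] (hG : Group.FG G) :
    Finite (G →* P) := by
  obtain ⟨S, hS, hfin⟩ := Group.fg_iff.1 hG
  have : Finite S := hfin
  let f : (G →* P) → (S → P) := fun φ s => φ s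
  apply Finite.of_injective f
  intro φ ψ hφ
  apply MonoidHom.eq_of_eqOn_dense hS
  intro s hs
  exact congrFun hφ ⟨s, hs⟩

/-- number of homs to P -/
noncomputable def hN (P : Type) [Group P] (K : Subgroup H) : ℕ := Nat.card (K →* P)

theorem FP.card_mul_le {P : Type} [Group P] [Finite P] {K A1 A2 : Subgroup H} (h : FP K A1 A2)
    (hK : K.FG) : hN P A1 * hN P A2 ≤ hN P K := by
  obtain ⟨e, -⟩ := h.equiv
  have hf : Finite (K →* P) := finite_hom ((Group.fg_iff_subgroup_fg K).2 hK)
  unfold hN
  rw [← Nat.card_prod]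
  apply Nat.card_le_card_of_injective
    (fun q : (A1 →* P) × (A2 →* P) => (Monoid.Coprod.lift q.1 q.2).comp e.symm.toMonoidHom)
  rintro ⟨f1, f2⟩ ⟨g1, g2⟩ hfg
  simp only at hfg
  have h1 : Monoid.Coprod.lift f1 f2 = Monoid.Coprod.lift g1 g2 := by
    apply MonoidHom.ext
    intro w
    have := DFunLike.congr_fun hfg (e w)
    simpa using this
  have h2 := congrArg (fun f => f.comp Monoid.Coprod.inl) h1
  have h3 := congrArg (fun f => f.comp Monoid.Coprod.inr) h1
  simp only [Monoid.Coprod.lift_comp_inl, Monoid.Coprod.lift_comp_inr] at h2 h3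
  rw [h2, h3]

theorem one_lt_hN {P : Type} [Group P] [Finite P] {K : Subgroup H} (hK : K.FG)
    (h : ∃ φ : K →* P, φ ≠ 1) : 1 < hN P K := by
  have hf : Finite (K →* P) := finite_hom ((Group.fg_iff_subgroup_fg K).2 hK)
  obtain ⟨φ, hφ⟩ := h
  unfold hN
  rw [Finite.one_lt_card_iff_nontrivial]
  exact ⟨φ, 1, hφ⟩

theorem FP.map {K : Subgroup H} {A1 A2 : Subgroup K}
    (h : Function.Bijective (Monoid.Coprod.lift A1.subtype A2.subtype)) :
    FP K (A1.map K.subtype) (A2.map K.subtype) := by
  let e1 : A1 ≃* A1.map K.subtype := A1.equivMapOfInjective K.subtype K.subtype_injective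
  let e2 : A2 ≃* A2.map K.subtype := A2.equivMapOfInjective K.subtype K.subtype_injective
  constructor
  · have hcomp : (Monoid.Coprod.lift (A1.map K.subtype).subtype (A2.map K.subtype).subtype) =
        (K.subtype.comp (Monoid.Coprod.lift A1.subtype A2.subtype)).comp
          (Monoid.Coprod.map e1.symm.toMonoidHom e2.symm.toMonoidHom) := by
      apply Monoid.Coprod.hom_ext
      · apply MonoidHom.ext
        intro a
        obtain ⟨b, rfl⟩ := e1.surjective a
        simp [e1]
      · apply MonoidHom.ext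
        intro a
        obtain ⟨b, rfl⟩ := e2.surjective a
        simp [e2]
    rw [hcomp, MonoidHom.coe_comp, MonoidHom.coe_comp]
    apply (K.subtype_injective.comp h.1).comp
    have hid : (Monoid.Coprod.map e1.toMonoidHom e2.toMonoidHom).comp
        (Monoid.Coprod.map e1.symm.toMonoidHom e2.symm.toMonoidHom) = MonoidHom.id _ := by
      apply Monoid.Coprod.hom_ext
      · apply MonoidHom.ext; intro a; simp
      · apply MonoidHom.ext; intro a; simp
    have hinj : Function.Injective ((Monoid.Coprod.map e1.toMonoidHom e2.toMonoidHom).comp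
        (Monoid.Coprod.map e1.symm.toMonoidHom e2.symm.toMonoidHom)) := by
      rw [hid]; exact fun _ _ h => h
    rw [MonoidHom.coe_comp] at hinj
    exact hinj.of_comp
  · have hr : A1 ⊔ A2 = ⊤ := by
      have := MonoidHom.range_eq_top.2 h.2
      rw [Monoid.Coprod.range_lift, Subgroup.range_subtype, Subgroup.range_subtype] at this
      exact this
    rw [← Subgroup.map_sup, hr, ← MonoidHom.range_eq_map, Subgroup.range_subtype]

end Pool.Agent.Helper122.Cuts
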