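import Pool.Agent.Helper122.CutDefs
import Pool.Agent.Helper122.NCut

set_option autoImplicit false

namespace Pool.Agent.Helper122.Cuts

variable {A : Type} [Group A] {ι : Type} [Fintype ι] (gen : ι → A)

/-- Dunwoody: if there is a right-`Z`-invariant cut, there is one nested with all its left translates. -/
theorem exists_nested_cut (hgen : Subgroup.closure (Set.range gen) = ⊤) (Z : Subgroup A)
    (hex : ∃ X, RInv Z X ∧ IsCut gen X) :
    ∃ X, RInv Z X ∧ IsCut gen X ∧ ∀ a, Nested (tr a X) X :=
  NCut.exists_nested_cut gen hgen Z hex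

end Pool.Agent.Helper122.Cuts
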