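import Mathlib

set_option autoImplicit false
set_option linter.unusedSectionVars false

namespace Pool.Agent.Helper122.Spl

variable {A : Type} [Group A] {ι : Type} [Fintype ι] (gen : ι → A)

/-- Edge boundary of a set in the (right) Cayley graph; the edge `(a, i)` joins `a` and `a * gen i`. -/
def bd (X : Set A) : Set (A × ι) := {e | ¬ (e.1 ∈ X ↔ e.1 * gen e.2 ∈ X)}

/-- Left translate `aX`. -/
def tr (a : A) (X : Set A) : Set A := {x | a⁻¹ * x ∈ X}

/-- Right invariance under a subgroup. -/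
def RInv (Z : Subgroup A) (X : Set A) : Prop := ∀ x, ∀ z ∈ Z, (x * z ∈ X ↔ x ∈ X)

/-- A cut: finite boundary, infinite, infinite complement. -/
def IsCut (X : Set A) : Prop := (bd gen X).Finite ∧ X.Infinite ∧ Xᶜ.Infinite

/-- Nested sets. -/
def Nested (X Y : Set A) : Prop := X ⊆ Y ∨ Y ⊆ X ∨ X ⊆ Yᶜ ∨ Xᶜ ⊆ Y

section basics

theorem mem_tr {a x : A} {X : Set A} : x ∈ tr a X ↔ a⁻¹ * x ∈ X := Iff.rfl

theorem tr_one (X : Set A) : tr 1 X = X := by ext x; simp [mem_tr]

theorem tr_tr (a b : A) (X : Set A) : tr a (tr b X) = tr (a * b) X := by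
  ext x; simp [mem_tr, mul_assoc]

theorem tr_compl (a : A) (X : Set A) : tr a Xᶜ = (tr a X)ᶜ := rfl

theorem tr_mono {a : A} {X Y : Set A} (h : X ⊆ Y) : tr a X ⊆ tr a Y := fun _ hx => h hx

theorem tr_subset {a : A} {X Y : Set A} : tr a X ⊆ tr a Y ↔ X ⊆ Y := by
  refine ⟨fun h => ?_, tr_mono⟩
  have := tr_mono (a := a⁻¹) h
  simpa [tr_tr, tr_one] using this

theorem tr_inj {a : A} {X Y : Set A} : tr a X = tr a Y ↔ X = Y := by
  refine ⟨fun h => ?_, fun h => by rw [h]⟩
  have := congrArg (tr a⁻¹) h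
  simpa [tr_tr, tr_one] using this

theorem tr_ssubset {a : A} {X Y : Set A} : tr a X ⊂ tr a Y ↔ X ⊂ Y := by
  simp only [Set.ssubset_iff_subset_ne, ne_eq, tr_subset, tr_inj]

theorem nested_compl_right {X Y : Set A} (h : Nested X Y) : Nested X Yᶜ := by
  unfold Nested at *
  rcases h with h | h | h | h
  · right; right; left; simpa using h
  · right; right; right; exact Set.compl_subset_compl.2 h
  · left; exact h
  · right; left; exact Set.compl_subset_comm.1 h

theorem nested_compl_left {X Y : Set A} (h : Nested X Y) : Nested Xᶜ Y := by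
  unfold Nested at *
  rcases h with h | h | h | h
  · right; right; right; simpa using h
  · right; right; left; exact Set.compl_subset_compl.2 h
  · right; left; exact Set.subset_compl_comm.1 h
  · left; exact h

theorem nested_tr {a : A} {X Y : Set A} (h : Nested X Y) : Nested (tr a X) (tr a Y) := by
  unfold Nested at *
  rw [← tr_compl, ← tr_compl, tr_subset, tr_subset, tr_subset, tr_subset]
  exact h

/-- The family of all translates and complements. -/
def EE (X : Set A) : Set (Set A) := {E | ∃ a, E = tr a X ∨ E = (tr a X)ᶜ}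

theorem self_mem_EE (X : Set A) : X ∈ EE X := ⟨1, Or.inl (tr_one X).symm⟩

theorem EE_compl {X E : Set A} (h : E ∈ EE X) : Eᶜ ∈ EE X := by
  obtain ⟨a, rfl | rfl⟩ := h
  · exact ⟨a, Or.inr rfl⟩
  · exact ⟨a, Or.inl (compl_compl _)⟩

theorem EE_tr {X E : Set A} (b : A) (h : E ∈ EE X) : tr b E ∈ EE X := by
  obtain ⟨a, rfl | rfl⟩ := h
  · exact ⟨b * a, Or.inl (tr_tr _ _ _)⟩
  · refine ⟨b * a, Or.inr ?_⟩
    rw [tr_compl, tr_tr]

theorem EE_EE {X C : Set A} (h : C ∈ EE X) : EE C = EE X := by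
  have key : ∀ {X C : Set A}, C ∈ EE X → EE C ⊆ EE X := by
    intro X C h E hE
    obtain ⟨a, rfl | rfl⟩ := hE
    · exact EE_tr a h
    · exact EE_compl (EE_tr a h)
  refine Set.Subset.antisymm (key h) (key ?_)
  obtain ⟨a, rfl | rfl⟩ := h
  · refine ⟨a⁻¹, Or.inl ?_⟩
    rw [tr_tr, inv_mul_cancel, tr_one]
  · refine ⟨a⁻¹, Or.inr ?_⟩
    rw [tr_compl, compl_compl, tr_tr, inv_mul_cancel, tr_one]

/-- The properties of the family that are used below. -/
structure Good (X : Set A) : Prop where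
  ne : ∀ E ∈ EE X, E.Nonempty
  nest : ∀ E ∈ EE X, ∀ F ∈ EE X, Nested E F
  stab : ∀ a, tr a X = X → a = 1
  stab' : ∀ a, tr a X ≠ Xᶜ
  fin : ∀ x y : A, {E ∈ EE X | x ∈ E ∧ y ∉ E}.Finite

variable {X : Set A}

theorem Good.nec (hG : Good X) {E : Set A} (hE : E ∈ EE X) : ¬ E ⊆ Eᶜ := by
  intro h
  obtain ⟨x, hx⟩ := hG.ne E hE
  exact h hx hx

/-- `E` covers `D`. -/
def Cov (X D E : Set A) : Prop := D ⊂ E ∧ ∀ F ∈ EE X, D ⊂ F → ¬ F ⊂ E

theorem Cov.compl {D E : Set A} (h : Cov X D E) : Cov X Eᶜ Dᶜ := by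
  refine ⟨compl_lt_compl_iff_lt.2 h.1, ?_⟩
  intro F hF h1 h2
  refine h.2 Fᶜ (EE_compl hF) ?_ ?_
  · have := compl_lt_compl_iff_lt.2 h2
    rwa [compl_compl] at this
  · have := compl_lt_compl_iff_lt.2 h1
    rwa [compl_compl] at this

theorem Cov.tr {D E : Set A} (a : A) (h : Cov X D E) : Cov X (tr a D) (tr a E) := by
  refine ⟨tr_ssubset.2 h.1, ?_⟩
  intro F hF h1 h2
  have e : Spl.tr a (Spl.tr a⁻¹ F) = F := by rw [tr_tr, mul_inv_cancel, tr_one]
  rw [← e] at h1 h2
  exact h.2 (Spl.tr a⁻¹ F) (EE_tr _ hF) (tr_ssubset.1 h1) (tr_ssubset.1 h2)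

/-- Adjacency of oriented edges. -/
def Rel (X D E : Set A) : Prop := D = E ∨ Cov X D Eᶜ

theorem Rel.symm {D E : Set A} (h : Rel X D E) : Rel X E D := by
  rcases h with h | h
  · exact Or.inl h.symm
  · right; simpa using h.compl

theorem Rel.tr {D E : Set A} (a : A) (h : Rel X D E) : Rel X (tr a D) (tr a E) := by
  rcases h with h | h
  · left; rw [h]
  · right; exact h.tr a

theorem Rel.trans (hG : Good X) {D E F : Set A} (hD : D ∈ EE X) (hE : E ∈ EE X) (hF : F ∈ EE X)
    (h1 : Rel X D E) (h2 : Rel X E F) : Rel X D F := by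
  by_cases hDF : D = F
  · exact Or.inl hDF
  rcases h1 with rfl | h1
  · exact h2
  rcases h2 with rfl | h2
  · exact Or.inr h1
  have h3 : Cov X F Eᶜ := by simpa using h2.compl
  right
  have absurd' : ∀ G ∈ EE X, ∀ K : Set A, G ⊆ K → G ⊆ Kᶜ → False := by
    intro G hG' K ha hb
    obtain ⟨x, hx⟩ := hG.ne G hG'
    exact hb hx (ha hx)
  have hDE : D ⊆ Eᶜ := h1.1.subset
  have hED : E ⊆ Dᶜ := Set.subset_compl_comm.1 hDE
  have hFE : F ⊆ Eᶜ := h3.1.subset
  have hEF : E ⊆ Fᶜ := h2.1.subset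
  rcases hG.nest D hD F hF with h | h | h | h
  · exact absurd h3.1 (h1.2 F hF (Set.ssubset_iff_subset_ne.2 ⟨h, hDF⟩))
  · exact absurd h1.1 (h3.2 D hD (Set.ssubset_iff_subset_ne.2 ⟨h, fun e => hDF e.symm⟩))
  rotate_left
  · exact absurd (hED.trans (h.trans hFE)) (hG.nec hE)
  · have hne : D ≠ Fᶜ := by
      intro e
      exact absurd ((hEF.trans (by rw [e])).trans hDE) (hG.nec hE)
    refine ⟨Set.ssubset_iff_subset_ne.2 ⟨h, hne⟩, ?_⟩
    intro Y hY hDY hYF
    rcases hG.nest Y hY E hE with h' | h' | h' | h'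
    · exact absurd' D hD E (hDY.subset.trans h') hDE
    · rcases eq_or_ne E Y with e | e
      · subst e
        exact absurd' D hD E hDY.subset hDE
      · exact h2.2 Y hY (Set.ssubset_iff_subset_ne.2 ⟨h', e⟩) hYF
    · rcases eq_or_ne Y Eᶜ with e | e
      · subst e
        exact absurd' F hF E (Set.compl_subset_compl.1 hYF.subset) hFE
      · exact h1.2 Y hY hDY (Set.ssubset_iff_subset_ne.2 ⟨h', e⟩)
    · have : F ⊆ E := by
        have h4 : Yᶜᶜ ⊆ Fᶜ := by simpa using hYF.subset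
        exact (Set.compl_subset_compl.1 h4).trans h'
      exact absurd' F hF E this hFE

theorem Rel.disj {D E : Set A} (h : Rel X D E) (hne : D ≠ E) : D ⊆ Eᶜ := by
  rcases h with h | h
  · exact absurd h hne
  · exact h.1.subset

/-- Minimal members containing a point exist. -/
theorem Good.exists_min (hG : Good X) (x : A) :
    ∃ C ∈ EE X, x ∈ C ∧ ∀ E ∈ EE X, x ∈ E → E ⊆ C → E = C := by
  have : ∃ E0 ∈ EE X, x ∈ E0 := by
    by_cases hx : x ∈ X
    · exact ⟨X, self_mem_EE X, hx⟩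
    · exact ⟨Xᶜ, EE_compl (self_mem_EE X), hx⟩
  obtain ⟨E0, hE0, hx0⟩ := this
  obtain ⟨y, hy⟩ := hG.ne E0ᶜ (EE_compl hE0)
  have hfin : {E ∈ EE X | x ∈ E ∧ E ⊆ E0}.Finite :=
    (hG.fin x y).subset fun E hE => ⟨hE.1, hE.2.1, fun h => hy (hE.2.2 h)⟩
  obtain ⟨C, hC, hmin⟩ := hfin.exists_minimal ⟨E0, hE0, hx0, subset_rfl⟩
  refine ⟨C, hC.1, hC.2.1, ?_⟩
  intro E hE hxE hEC
  exact Set.Subset.antisymm hEC (hmin ⟨hE, hxE, hEC.trans hC.2.2⟩ hEC)

/-- Going up along covers. -/
theorem Good.climb (hG : Good X) (P : Set A → Prop)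
    (hP : ∀ D ∈ EE X, ∀ E ∈ EE X, P D → Cov X D E → P E)
    {D D' : Set A} (hD : D ∈ EE X) (hD' : D' ∈ EE X) (h : P D) (hDD : D ⊆ D') : P D' := by
  obtain ⟨x, hx⟩ := hG.ne D hD
  obtain ⟨y, hy⟩ := hG.ne D'ᶜ (EE_compl hD')
  have hfin : {E ∈ EE X | (D ⊆ E ∧ E ⊆ D') ∧ P E}.Finite :=
    (hG.fin x y).subset fun E hE => ⟨hE.1, hE.2.1.1 hx, fun h => hy (hE.2.1.2 h)⟩
  obtain ⟨M, hM, hmax⟩ := hfin.exists_maximal ⟨D, hD, ⟨subset_rfl, hDD⟩, h⟩
  by_cases hMD : M = D'
  · rw [← hMD]; exact hM.2.2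
  have hfin2 : {E ∈ EE X | M ⊂ E ∧ E ⊆ D'}.Finite :=
    (hG.fin x y).subset fun E hE =>
      ⟨hE.1, hE.2.1.subset (hM.2.1.1 hx), fun h => hy (hE.2.2 h)⟩
  obtain ⟨E, hE, hmin⟩ := hfin2.exists_minimal
    ⟨D', hD', Set.ssubset_iff_subset_ne.2 ⟨hM.2.1.2, hMD⟩, subset_rfl⟩
  have hcov : Cov X M E := by
    refine ⟨hE.2.1, ?_⟩
    intro F hF h1 h2
    exact h2.2 (hmin ⟨hF, h1, h2.subset.trans hE.2.2⟩ h2.subset)
  have hPE : P E := hP M hM.1 E hE.1 hM.2.2 hcov
  exact absurd (hmax ⟨hE.1, ⟨hM.2.1.1.trans hE.2.1.subset, hE.2.2⟩, hPE⟩ hE.2.1.subset)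
    hE.2.1.2

end basics

section good

theorem sep_finite (hgen : Subgroup.closure (Set.range gen) = ⊤) {X : Set A}
    (hX : (bd gen X).Finite) (x y : A) : {a : A | ¬ (a⁻¹ * x ∈ X ↔ a⁻¹ * y ∈ X)}.Finite := by
  have key : ∀ g ∈ Subgroup.closure (Set.range gen), ∀ x : A,
      {a : A | ¬ (a⁻¹ * x ∈ X ↔ a⁻¹ * (x * g) ∈ X)}.Finite := by
    intro g hg
    induction hg using Subgroup.closure_induction with
    | mem g hg =>
      obtain ⟨i, rfl⟩ := hg
      intro x
      have hinj : Function.Injective (fun a : A => (a⁻¹ * x, i)) := by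
        intro a b h
        simpa using h
      refine (hX.preimage (hinj.injOn)).subset ?_
      intro a ha
      simpa [bd, mul_assoc] using ha
    | one => intro x; simp
    | mul g h _ _ ihg ihh =>
      intro x
      refine ((ihg x).union (ihh (x * g))).subset ?_
      intro a ha
      simp only [Set.mem_setOf_eq, Set.mem_union, mul_assoc] at *
      tauto
    | inv g _ ih =>
      intro x
      refine (ih (x * g⁻¹)).subset ?_
      intro a ha
      simp only [Set.mem_setOf_eq, inv_mul_cancel_right] at *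
      tauto
  have := key (x⁻¹ * y) (by rw [hgen]; trivial) x
  simpa using this

theorem bd_nonempty (hgen : Subgroup.closure (Set.range gen) = ⊤) {X : Set A}
    (h1 : X.Nonempty) (h2 : Xᶜ.Nonempty) : (bd gen X).Nonempty := by
  by_contra hne
  rw [Set.not_nonempty_iff_eq_empty] at hne
  have h0 : ∀ g i, (g ∈ X ↔ g * gen i ∈ X) := by
    intro g i
    by_contra h
    have : (g, i) ∈ bd gen X := h
    rw [hne] at this
    exact this
  have key : ∀ g ∈ Subgroup.closure (Set.range gen), ∀ x : A, (x ∈ X ↔ x * g ∈ X) := by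
    intro g hg
    induction hg using Subgroup.closure_induction with
    | mem g hg =>
      obtain ⟨i, rfl⟩ := hg
      intro x
      exact h0 x i
    | one => intro x; simp
    | mul g h _ _ ihg ihh =>
      intro x
      rw [← mul_assoc, ← ihh (x * g), ← ihg x]
    | inv g _ ih =>
      intro x
      rw [ih (x * g⁻¹), inv_mul_cancel_right]
  obtain ⟨x, hx⟩ := h1
  obtain ⟨y, hy⟩ := h2
  apply hy
  have := (key (x⁻¹ * y) (by rw [hgen]; trivial) x).1 hx
  simpa using this

theorem pow_inj (htf : ∀ a : A, a ≠ 1 → ∀ n : ℕ, 0 < n → a ^ n ≠ 1) {a : A} (ha : a ≠ 1) :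
    Function.Injective (fun n : ℕ => a ^ n) := by
  rw [injective_pow_iff_not_isOfFinOrder, isOfFinOrder_iff_pow_eq_one]
  rintro ⟨n, hn, h⟩
  exact htf a ha n hn h

theorem stab_trivial (hgen : Subgroup.closure (Set.range gen) = ⊤)
    (htf : ∀ a : A, a ≠ 1 → ∀ n : ℕ, 0 < n → a ^ n ≠ 1) {X : Set A}
    (hX : IsCut gen X) (a : A) (h : tr a X = X) : a = 1 := by
  by_contra ha
  obtain ⟨⟨g, i⟩, hgi⟩ := bd_nonempty gen hgen hX.2.1.nonempty hX.2.2.nonempty
  have h1 : ∀ x, (a * x ∈ X ↔ x ∈ X) := by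
    intro x
    have : (a * x ∈ tr a X ↔ x ∈ X) := by simp [mem_tr]
    rwa [h] at this
  have h2 : ∀ (n : ℕ) x, (a ^ n * x ∈ X ↔ x ∈ X) := by
    intro n
    induction n with
    | zero => intro x; simp
    | succ n ih => intro x; rw [pow_succ', mul_assoc, h1, ih]
  have h3 : ∀ n : ℕ, (a ^ n * g, i) ∈ bd gen X := by
    intro n
    have e := h2 n g
    have e' := h2 n (g * gen i)
    simp only [bd, Set.mem_setOf_eq, mul_assoc] at *
    rw [e, e']
    exact hgi
  refine Set.infinite_of_injective_forall_mem (f := fun n : ℕ => (a ^ n * g, i)) ?_ h3 hX.1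
  intro n m hnm
  simp only [Prod.mk.injEq, mul_left_inj, and_true] at hnm
  exact pow_inj htf ha hnm

theorem good_of (hgen : Subgroup.closure (Set.range gen) = ⊤)
    (htf : ∀ a : A, a ≠ 1 → ∀ n : ℕ, 0 < n → a ^ n ≠ 1) {X : Set A}
    (hX : IsCut gen X) (hn : ∀ a, Nested (tr a X) X) : Good X where
  ne := by
    have key : ∀ (a : A) (Y : Set A), Y.Nonempty → (tr a Y).Nonempty := by
      rintro a Y ⟨y, hy⟩
      exact ⟨a * y, by simpa [mem_tr] using hy⟩
    rintro E ⟨a, rfl | rfl⟩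
    · exact key a X hX.2.1.nonempty
    · rw [← tr_compl]; exact key a _ hX.2.2.nonempty
  nest := by
    have key : ∀ a b : A, Nested (tr a X) (tr b X) := by
      intro a b
      have := nested_tr (a := b) (hn (b⁻¹ * a))
      rwa [tr_tr, mul_inv_cancel_left] at this
    rintro E ⟨a, rfl | rfl⟩ F ⟨b, rfl | rfl⟩
    · exact key a b
    · exact nested_compl_right (key a b)
    · exact nested_compl_left (key a b)
    · exact nested_compl_left (nested_compl_right (key a b))
  stab := stab_trivial gen hgen htf hX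
  stab' := by
    intro a h
    have h2 : tr (a * a) X = X := by
      rw [← tr_tr, h, tr_compl, h, compl_compl]
    have h3 := stab_trivial gen hgen htf hX _ h2
    have ha : a = 1 := by
      by_contra ha
      exact htf a ha 2 (by norm_num) (by rw [pow_two]; exact h3)
    rw [ha, tr_one] at h
    obtain ⟨x, hx⟩ := hX.2.1.nonempty
    have : x ∈ Xᶜ := h ▸ hx
    exact this hx
  fin := by
    intro x y
    have hs := sep_finite gen hgen hX.1 x y
    refine ((hs.image (fun a => tr a X)).union (hs.image (fun a => (tr a X)ᶜ))).subset ?_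
    rintro E ⟨⟨a, rfl | rfl⟩, h1, h2⟩
    · left
      refine ⟨a, ?_, rfl⟩
      simp only [mem_tr, Set.mem_setOf_eq] at *
      tauto
    · right
      refine ⟨a, ?_, rfl⟩
      simp only [mem_tr, Set.mem_setOf_eq, Set.mem_compl_iff] at *
      tauto

end good

section pingpong

open Pointwise in
theorem coprod_bij (A1 A2 : Subgroup A) (hsup : A1 ⊔ A2 = ⊤) (Y1 Y2 : Set A)
    (h1 : Y1.Nonempty) (h2 : Y2.Nonempty) (hd : Disjoint Y1 Y2)
    (hp1 : ∀ a ∈ A1, a ≠ 1 → ∀ y ∈ Y2, a * y ∈ Y1)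
    (hp2 : ∀ a ∈ A2, a ≠ 1 → ∀ y ∈ Y1, a * y ∈ Y2) (hcard : Infinite A2) :
    Function.Bijective (Monoid.Coprod.lift A1.subtype A2.subtype) := by
  let H : Bool → Subgroup A := fun b => cond b A1 A2
  let f : ∀ b : Bool, H b →* A := fun b => (H b).subtype
  have hinj : Function.Injective (Monoid.CoprodI.lift f) := by
    refine Monoid.CoprodI.lift_injective_of_ping_pong f (Or.inr ⟨false, ?_⟩)
      (fun b : Bool => cond b Y1 Y2) ?_ ?_ ?_
    · have : Infinite (H false) := hcard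
      exact (Cardinal.nat_lt_aleph0 3).le.trans (Cardinal.aleph0_le_mk _)
    · rintro (_ | _)
      · exact h2
      · exact h1
    · rintro (_ | _) (_ | _) hne
      · exact absurd rfl hne
      · exact hd.symm
      · exact hd
      · exact absurd rfl hne
    · rintro (_ | _) (_ | _) hne
      · exact absurd rfl hne
      · rintro ⟨h, hh⟩ hne1 _ ⟨y, hy, rfl⟩
        exact hp2 h hh (fun e => hne1 (Subtype.ext e)) y hy
      · rintro ⟨h, hh⟩ hne1 _ ⟨y, hy, rfl⟩
        exact hp1 h hh (fun e => hne1 (Subtype.ext e)) y hy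
      · exact absurd rfl hne
  let φ : Monoid.Coprod A1 A2 →* Monoid.CoprodI (fun b => H b) :=
    Monoid.Coprod.lift (Monoid.CoprodI.of (M := fun b => H b) (i := true))
      (Monoid.CoprodI.of (M := fun b => H b) (i := false))
  let ψ : Monoid.CoprodI (fun b => H b) →* Monoid.Coprod A1 A2 :=
    Monoid.CoprodI.lift (fun b => match b with
      | true => (Monoid.Coprod.inl : A1 →* Monoid.Coprod A1 A2)
      | false => (Monoid.Coprod.inr : A2 →* Monoid.Coprod A1 A2))
  have hψφ : ψ.comp φ = MonoidHom.id _ := by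
    apply Monoid.Coprod.hom_ext
    · ext x
      simp only [MonoidHom.comp_apply, φ, ψ, Monoid.Coprod.lift_apply_inl, MonoidHom.id_apply]
      exact Monoid.CoprodI.lift_of _ _
    · ext x
      simp only [MonoidHom.comp_apply, φ, ψ, Monoid.Coprod.lift_apply_inr, MonoidHom.id_apply]
      exact Monoid.CoprodI.lift_of _ _
  have hφ : Function.Injective φ := by
    intro x y hxy
    have := congrArg ψ hxy
    rw [← MonoidHom.comp_apply, ← MonoidHom.comp_apply, hψφ] at this
    exact this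
  have hcomp : (Monoid.CoprodI.lift f).comp φ = Monoid.Coprod.lift A1.subtype A2.subtype := by
    apply Monoid.Coprod.hom_ext
    · ext x
      simp only [MonoidHom.comp_apply, φ, Monoid.Coprod.lift_apply_inl]
      exact Monoid.CoprodI.lift_of _ _
    · ext x
      simp only [MonoidHom.comp_apply, φ, Monoid.Coprod.lift_apply_inr]
      exact Monoid.CoprodI.lift_of _ _
  constructor
  · rw [← hcomp]
    exact hinj.comp hφ
  · rw [← MonoidHom.range_eq_top, Monoid.Coprod.range_lift, Subgroup.range_subtype,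
      Subgroup.range_subtype, hsup]

end pingpong

section main

variable {X : Set A}

theorem conj_one {a b : A} (h : b⁻¹ * a * b = 1) : a = 1 := by
  have h2 : a = b * (b⁻¹ * a * b) * b⁻¹ := by group
  rw [h2, h]; simp

/-- Stabiliser of the class of `D`. -/
def St (hG : Good X) (D : Set A) (hD : D ∈ EE X) : Subgroup A where
  carrier := {b | Rel X (tr b D) D}
  one_mem' := Or.inl (tr_one D)
  mul_mem' := by
    intro a b ha hb
    have h := Rel.tr a hb
    rw [tr_tr] at h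
    exact h.trans hG (EE_tr _ hD) (EE_tr _ hD) hD ha
  inv_mem' := by
    intro a ha
    have h := Rel.tr a⁻¹ ha
    rw [tr_tr, inv_mul_cancel, tr_one] at h
    exact h.symm

theorem mem_St (hG : Good X) {D : Set A} (hD : D ∈ EE X) {b : A} :
    b ∈ St hG D hD ↔ Rel X (tr b D) D := Iff.rfl

theorem gen_top (hG : Good X) (G0 : Subgroup A)
    (hP : ∀ b, Rel X (tr b X) X → b ∈ G0) (hQ : ∀ b, Rel X (tr b Xᶜ) Xᶜ → b ∈ G0)
    (hT : ∀ b, Rel X (tr b X) Xᶜ → b ∈ G0) (a : A) : a ∈ G0 := by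
  let P : Set A → Prop := fun E => ∃ g ∈ G0, E = tr g X ∨ E = (tr g X)ᶜ
  have hclimb : ∀ D ∈ EE X, ∀ E ∈ EE X, P D → Cov X D E → P E := by
    rintro D - E ⟨h, hE⟩ ⟨g, hg, hD⟩ hc
    refine ⟨h, ?_, hE⟩
    rcases hD with rfl | rfl <;> rcases hE with rfl | rfl
    · have h1 := hc.tr h⁻¹
      rw [tr_tr, tr_tr, inv_mul_cancel, tr_one] at h1
      have h2 := hT (h⁻¹ * g) (Or.inr (by rwa [compl_compl]))
      have h3 := G0.mul_mem hg (G0.inv_mem h2)
      simpa using h3
    · have h1 := hc.tr h⁻¹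
      rw [tr_tr, tr_compl, tr_tr, inv_mul_cancel, tr_one] at h1
      have h2 := hP (h⁻¹ * g) (Or.inr h1)
      have h3 := G0.mul_mem hg (G0.inv_mem h2)
      simpa using h3
    · have h1 := hc.tr h⁻¹
      rw [tr_compl, tr_tr, tr_tr, inv_mul_cancel, tr_one] at h1
      have h2 := hQ (h⁻¹ * g) (Or.inr (by rwa [compl_compl, tr_compl]))
      have h3 := G0.mul_mem hg (G0.inv_mem h2)
      simpa using h3
    · have h0 := hc.compl
      rw [compl_compl, compl_compl] at h0
      have h1 := h0.tr g⁻¹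
      rw [tr_tr, tr_tr, inv_mul_cancel, tr_one] at h1
      have h2 := hT (g⁻¹ * h) (Or.inr (by rwa [compl_compl]))
      have h3 := G0.mul_mem hg h2
      simpa using h3
  have hX : X ∈ EE X := self_mem_EE X
  have hXc : Xᶜ ∈ EE X := EE_compl hX
  have haX : tr a X ∈ EE X := EE_tr a hX
  have haXc : (tr a X)ᶜ ∈ EE X := EE_compl haX
  have hPX : P X := ⟨1, G0.one_mem, Or.inl (tr_one X).symm⟩
  have hPXc : P Xᶜ := ⟨1, G0.one_mem, Or.inr (by rw [tr_one])⟩
  have fin1 : P (tr a X) → a ∈ G0 := by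
    rintro ⟨g, hg, h | h⟩
    · have h1 := congrArg (tr g⁻¹) h
      rw [tr_tr, tr_tr, inv_mul_cancel, tr_one] at h1
      have h2 := hG.stab _ h1
      rw [inv_mul_eq_one] at h2
      rwa [← h2]
    · have h1 := congrArg (tr g⁻¹) h
      rw [tr_tr, tr_compl, tr_tr, inv_mul_cancel, tr_one] at h1
      exact absurd h1 (hG.stab' _)
  have fin2 : P (tr a X)ᶜ → a ∈ G0 := by
    rintro ⟨g, hg, h | h⟩
    · exact fin1 ⟨g, hg, Or.inr (by rw [← h, compl_compl])⟩
    · exact fin1 ⟨g, hg, Or.inl (compl_injective h)⟩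
  rcases hG.nest _ haX _ hX with h | h | h | h
  · exact fin2 (hG.climb P hclimb hXc haXc hPXc (Set.compl_subset_compl.2 h))
  · exact fin1 (hG.climb P hclimb hX haX hPX h)
  · exact fin2 (hG.climb P hclimb hX haXc hPX (Set.subset_compl_comm.1 h))
  · exact fin1 (hG.climb P hclimb hXc haX hPXc (Set.compl_subset_comm.1 h))

theorem Z_le (hG : Good X) (Z : Subgroup A) (hZ : RInv Z X) (h1 : (1 : A) ∈ X)
    (hmin : ∀ E ∈ EE X, (1 : A) ∈ E → E ⊆ X → E = X) (z : A) (hz : z ∈ Z) :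
    Rel X (tr z Xᶜ) Xᶜ := by
  have hX : X ∈ EE X := self_mem_EE X
  have hRE : ∀ E ∈ EE X, RInv Z E := by
    rintro E ⟨a, rfl | rfl⟩ x w hw
    · rw [mem_tr, mem_tr, ← mul_assoc]; exact hZ _ w hw
    · rw [Set.mem_compl_iff, Set.mem_compl_iff, mem_tr, mem_tr, ← mul_assoc]
      exact not_congr (hZ _ w hw)
  have hz1 : (1 : A) ∈ tr z X := by
    rw [mem_tr, mul_one]
    have := (hZ 1 z⁻¹ (Z.inv_mem hz)).2 h1
    simpa using this
  have hminz : ∀ E ∈ EE X, (1 : A) ∈ E → E ⊆ tr z X → E = tr z X := by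
    intro E hE h1E hEz
    have hz' : tr z⁻¹ E ⊆ X := by
      have := tr_mono (a := z⁻¹) hEz
      rwa [tr_tr, inv_mul_cancel, tr_one] at this
    have h1z : (1 : A) ∈ tr z⁻¹ E := by
      rw [mem_tr, inv_inv, mul_one]
      have := (hRE E hE 1 z hz).2 h1E
      simpa using this
    have e := hmin _ (EE_tr z⁻¹ hE) h1z hz'
    rw [← e, tr_tr, mul_inv_cancel, tr_one]
  rcases hG.nest _ (EE_tr z hX) _ hX with h | h | h | h
  · left; rw [tr_compl, hmin _ (EE_tr z hX) hz1 h]
  · left; rw [tr_compl, ← hminz _ hX h1 h]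
  · exact absurd h1 (h hz1)
  · right
    rw [compl_compl, tr_compl]
    refine ⟨Set.ssubset_iff_subset_ne.2 ⟨h, ?_⟩, ?_⟩
    · intro e
      exact hG.stab' z (by rw [← compl_compl (tr z X), e])
    · intro F hF hF1 hF2
      by_cases h1F : (1 : A) ∈ F
      · exact hF2.ne (hmin F hF h1F hF2.subset)
      · have h3 : Fᶜ ⊆ tr z X := Set.compl_subset_comm.1 hF1.subset
        have h4 := hminz _ (EE_compl hF) h1F h3
        exact hF1.ne (by rw [← h4, compl_compl])

theorem splitting_min (hG : Good X) (htf : ∀ a : A, a ≠ 1 → ∀ n : ℕ, 0 < n → a ^ n ≠ 1)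
    (Z : Subgroup A) (hZ : RInv Z X) (hi : X.Infinite) (hic : Xᶜ.Infinite) (h1 : (1 : A) ∈ X)
    (hmin : ∀ E ∈ EE X, (1 : A) ∈ E → E ⊆ X → E = X) :
    ∃ A1 A2 : Subgroup A, Z ≤ A1 ∧ A2 ≠ ⊥ ∧ (A1 = ⊥ → ∃ t, A2 = Subgroup.zpowers t) ∧
      Function.Bijective (Monoid.Coprod.lift A1.subtype A2.subtype) := by
  have hX : X ∈ EE X := self_mem_EE X
  have hXc : Xᶜ ∈ EE X := EE_compl hX
  have hinf : ∀ (B : Subgroup A) (t : A), t ∈ B → t ≠ 1 → Infinite B := by
    intro B t ht ht1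
    refine Infinite.of_injective (fun n : ℕ => (⟨t ^ n, B.pow_mem ht n⟩ : B)) ?_
    intro n m hnm
    exact pow_inj htf ht1 (congrArg Subtype.val hnm)
  by_cases hT : ∃ t, Rel X (tr t X) Xᶜ
  · obtain ⟨t, ht⟩ := hT
    have hcov : Cov X (tr t X) X := by
      rcases ht with ht | ht
      · exact absurd ht (hG.stab' t)
      · rwa [compl_compl] at ht
    have ht1 : t ≠ 1 := by
      rintro rfl
      rw [tr_one] at hcov
      exact hcov.1.ne rfl
    have hTQ : ∀ b, Rel X (tr b X) Xᶜ → b ∈ St hG Xᶜ hXc ⊔ Subgroup.zpowers t := by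
      intro b hb
      have h2 : Rel X X (tr t⁻¹ Xᶜ) := by
        have := ht.tr t⁻¹
        rwa [tr_tr, inv_mul_cancel, tr_one] at this
      have h3 : Rel X (tr b X) (tr (b * t⁻¹) Xᶜ) := by
        have := h2.tr b
        rwa [tr_tr] at this
      have h4 : b * t⁻¹ ∈ St hG Xᶜ hXc :=
        h3.symm.trans hG (EE_tr _ hXc) (EE_tr _ hX) hXc hb
      have h5 := Subgroup.mul_mem _ (Subgroup.mem_sup_left h4 : _ ∈ St hG Xᶜ hXc ⊔ Subgroup.zpowers t)
        (Subgroup.mem_sup_right (Subgroup.mem_zpowers t))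
      simpa using h5
    have hPQ : ∀ b, Rel X (tr b X) X → b ∈ St hG Xᶜ hXc ⊔ Subgroup.zpowers t := by
      intro b hb
      have h2 : Rel X (tr (t * b) X) Xᶜ := by
        have h3 := hb.tr t
        rw [tr_tr] at h3
        exact h3.trans hG (EE_tr _ hX) (EE_tr _ hX) hXc ht
      have h4 := hTQ _ h2
      have h5 := Subgroup.mul_mem _ (Subgroup.inv_mem _ (Subgroup.mem_sup_right (Subgroup.mem_zpowers t) :
        t ∈ St hG Xᶜ hXc ⊔ Subgroup.zpowers t)) h4
      simpa using h5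
    have htop : St hG Xᶜ hXc ⊔ Subgroup.zpowers t = ⊤ := by
      rw [eq_top_iff]
      intro a _
      exact gen_top hG _ hPQ (fun b hb => Subgroup.mem_sup_left hb) hTQ a
    have htX : tr t X ⊆ X := hcov.1.subset
    obtain ⟨x0, hx0, hx0'⟩ := Set.exists_of_ssubset hcov.1
    refine ⟨St hG Xᶜ hXc, Subgroup.zpowers t, fun z hz => Z_le hG Z hZ h1 hmin z hz, ?_,
      fun _ => ⟨t, rfl⟩, ?_⟩
    · intro h
      exact ht1 (by simpa using h)
    refine coprod_bij _ _ htop (X \ tr t X) (Xᶜ ∪ tr t X) ⟨x0, hx0, hx0'⟩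
      ((hG.ne _ hXc).mono Set.subset_union_left) ?_ ?_ ?_ (hinf _ t (Subgroup.mem_zpowers t) ht1)
    · rw [Set.disjoint_left]
      rintro x ⟨hx1, hx2⟩ (hx3 | hx3)
      · exact hx3 hx1
      · exact hx2 hx3
    · intro q hq hq1
      have hqc : Rel X (tr q Xᶜ) Xᶜ := hq
      have htt : Rel X (tr q (tr t X)) (tr q Xᶜ) := ht.tr q
      have e1 : Rel X (tr q (tr t X)) Xᶜ :=
        htt.trans hG (EE_tr _ (EE_tr _ hX)) (EE_tr _ hXc) hXc hqc
      have e2 : Rel X (tr q Xᶜ) (tr t X) := hqc.trans hG (EE_tr _ hXc) hXc (EE_tr _ hX) ht.symm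
      have e3 : Rel X (tr q (tr t X)) (tr t X) :=
        e1.trans hG (EE_tr _ (EE_tr _ hX)) hXc (EE_tr _ hX) ht.symm
      have n1 : tr q (tr t X) ≠ Xᶜ := by rw [tr_tr]; exact hG.stab' _
      have n2 : tr q Xᶜ ≠ tr t X := by
        intro h
        have := congrArg (tr q⁻¹) h
        rw [tr_tr, tr_tr, inv_mul_cancel, tr_one] at this
        exact hG.stab' _ this.symm
      have n3 : tr q (tr t X) ≠ tr t X := by
        intro h
        have := congrArg (tr t⁻¹) h
        rw [tr_tr, tr_tr, tr_tr, inv_mul_cancel, tr_one] at this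
        have h6 := hG.stab _ this
        exact hq1 (conj_one h6)
      have n4 : tr q Xᶜ ≠ Xᶜ := by
        intro h
        rw [tr_compl] at h
        exact hq1 (hG.stab _ (compl_injective h))
      rintro y (hy | hy)
      · have hy' : q * y ∈ tr q Xᶜ := by simpa [mem_tr] using hy
        refine ⟨?_, e2.disj n2 hy'⟩
        have := hqc.disj n4 hy'
        rwa [compl_compl] at this
      · have hy' : q * y ∈ tr q (tr t X) := by
          rw [mem_tr, inv_mul_cancel_left]; exact hy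
        refine ⟨?_, e3.disj n3 hy'⟩
        have := e1.disj n1 hy'
        rwa [compl_compl] at this
    · rintro a ha ha1 y ⟨hy1, hy2⟩
      obtain ⟨n, rfl⟩ := Subgroup.mem_zpowers_iff.1 ha
      have hpos : ∀ m : ℕ, tr (t ^ (m + 1)) X ⊆ tr t X := by
        intro m
        induction m with
        | zero => simp
        | succ m ih =>
          rw [pow_succ, ← tr_tr]
          exact (tr_mono htX).trans ih
      have hneg : ∀ m : ℕ, tr ((t ^ (m + 1))⁻¹) (tr t X)ᶜ ⊆ Xᶜ := by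
        intro m
        induction m with
        | zero =>
          rw [zero_add, pow_one, ← tr_compl, tr_tr, inv_mul_cancel, tr_one]
        | succ m ih =>
          rw [pow_succ', mul_inv_rev, ← tr_tr]
          refine (tr_mono ?_).trans ih
          rw [← tr_compl, tr_tr, inv_mul_cancel, tr_one]
          exact Set.compl_subset_compl.2 htX
      rcases lt_trichotomy n 0 with hn | hn | hn
      · left
        obtain ⟨m, hm⟩ : ∃ m : ℕ, n = -((m + 1 : ℕ) : ℤ) := ⟨(-n).toNat - 1, by omega⟩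
        subst hm
        rw [zpow_neg, zpow_natCast]
        apply hneg m
        rw [mem_tr, inv_inv, mul_inv_cancel_left]
        exact hy2
      · subst hn
        exact absurd (zpow_zero t) ha1
      · right
        obtain ⟨m, hm⟩ : ∃ m : ℕ, n = ((m + 1 : ℕ) : ℤ) := ⟨n.toNat - 1, by omega⟩
        subst hm
        rw [zpow_natCast]
        apply hpos m
        rw [mem_tr, inv_mul_cancel_left]
        exact hy1
  · have hT' : ∀ b, ¬ Rel X (tr b X) Xᶜ := fun b hb => hT ⟨b, hb⟩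
    have htop : St hG Xᶜ hXc ⊔ St hG X hX = ⊤ := by
      rw [eq_top_iff]
      intro a _
      exact gen_top hG _ (fun b hb => Subgroup.mem_sup_right hb)
        (fun b hb => Subgroup.mem_sup_left hb) (fun b hb => absurd hb (hT' b)) a
    have key : ∀ D : Set A, ∀ hD : D ∈ EE X, D.Infinite → (∀ b, tr b D = D → b = 1) →
        St hG D hD ≠ ⊤ := by
      intro D hD hDi hst htop
      obtain ⟨x, hx, y, hy, hxy⟩ := hDi.nontrivial
      have hb : x * y⁻¹ ∈ St hG D hD := by rw [htop]; trivial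
      have hne : x * y⁻¹ ≠ 1 := by rwa [Ne, mul_inv_eq_one]
      have hrel : Rel X (tr (x * y⁻¹) D) D := hb
      have hd := hrel.disj (fun h => hne (hst _ h))
      refine hd (a := x) ?_ hx
      rw [mem_tr]
      simpa using hy
    have hP : St hG X hX ≠ ⊤ := key X hX hi hG.stab
    have hQ : St hG Xᶜ hXc ≠ ⊤ := key Xᶜ hXc hic (fun b hb => hG.stab b (compl_injective hb))
    have hPb : St hG X hX ≠ ⊥ := by
      intro h
      rw [h, sup_bot_eq] at htop
      exact hQ htop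
    have hQb : St hG Xᶜ hXc ≠ ⊥ := by
      intro h
      rw [h, bot_sup_eq] at htop
      exact hP htop
    obtain ⟨⟨p, hp⟩, hp1'⟩ := Subgroup.ne_bot_iff_exists_ne_one.1 hPb
    have hp1 : p ≠ 1 := fun h => hp1' (Subtype.ext h)
    refine ⟨St hG Xᶜ hXc, St hG X hX, fun z hz => Z_le hG Z hZ h1 hmin z hz, hPb,
      fun h => absurd h hQb, ?_⟩
    refine coprod_bij _ _ htop X Xᶜ (hG.ne _ hX) (hG.ne _ hXc) disjoint_compl_right ?_ ?_
      (hinf _ p hp hp1)
    · intro q hq hq1 y hy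
      have hrel : Rel X (tr q Xᶜ) Xᶜ := hq
      have hd := hrel.disj (fun h => hq1 (hG.stab _ (compl_injective h)))
      have hy' : q * y ∈ tr q Xᶜ := by rw [mem_tr, inv_mul_cancel_left]; exact hy
      have := hd hy'
      rwa [compl_compl] at this
    · intro q hq hq1 y hy
      have hrel : Rel X (tr q X) X := hq
      have hd := hrel.disj (fun h => hq1 (hG.stab _ h))
      have hy' : q * y ∈ tr q X := by rw [mem_tr, inv_mul_cancel_left]; exact hy
      exact hd hy'

end main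

/-- A torsion-free group with a nested cut splits as a free product. -/
theorem splitting (hgen : Subgroup.closure (Set.range gen) = ⊤)
    (htf : ∀ a : A, a ≠ 1 → ∀ n : ℕ, 0 < n → a ^ n ≠ 1) (Z : Subgroup A) (X : Set A)
    (hZ : RInv Z X) (hX : IsCut gen X) (hn : ∀ a, Nested (tr a X) X) :
    ∃ A1 A2 : Subgroup A, Z ≤ A1 ∧ A2 ≠ ⊥ ∧ (A1 = ⊥ → ∃ t, A2 = Subgroup.zpowers t) ∧
      Function.Bijective (Monoid.Coprod.lift A1.subtype A2.subtype) := by
  have hG := good_of gen hgen htf hX hn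
  obtain ⟨C, hC, h1C, hmin⟩ := hG.exists_min 1
  have hEE := EE_EE hC
  have hinf : ∀ (a : A) (Y : Set A), Y.Infinite → (tr a Y).Infinite := by
    intro a Y hY h
    apply hY
    refine (h.image (fun x => a⁻¹ * x)).subset ?_
    intro y hy
    exact ⟨a * y, by simpa [mem_tr] using hy, by simp⟩
  have hCi : C.Infinite ∧ Cᶜ.Infinite := by
    obtain ⟨a, rfl | rfl⟩ := hC
    · exact ⟨hinf a X hX.2.1, hinf a Xᶜ hX.2.2⟩
    · rw [compl_compl]
      exact ⟨hinf a Xᶜ hX.2.2, hinf a X hX.2.1⟩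
  have hCZ : RInv Z C := by
    obtain ⟨a, rfl | rfl⟩ := hC
    · intro x w hw
      rw [mem_tr, mem_tr, ← mul_assoc]; exact hZ _ w hw
    · intro x w hw
      rw [Set.mem_compl_iff, Set.mem_compl_iff, mem_tr, mem_tr, ← mul_assoc]
      exact not_congr (hZ _ w hw)
  have hGC : Good C := by
    constructor
    · rw [hEE]; exact hG.ne
    · rw [hEE]; exact hG.nest
    · intro a h
      obtain ⟨b, rfl | rfl⟩ := hC
      · have h2 := congrArg (tr b⁻¹) h
        rw [tr_tr, tr_tr, tr_tr, inv_mul_cancel, tr_one] at h2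
        have h3 := hG.stab _ h2
        exact conj_one h3
      · rw [tr_compl] at h
        have h2 := congrArg (tr b⁻¹) (compl_injective h)
        rw [tr_tr, tr_tr, tr_tr, inv_mul_cancel, tr_one] at h2
        have h3 := hG.stab _ h2
        exact conj_one h3
    · intro a h
      obtain ⟨b, rfl | rfl⟩ := hC
      · have h2 := congrArg (tr b⁻¹) h
        rw [tr_tr, tr_tr, tr_compl, tr_tr, inv_mul_cancel, tr_one] at h2
        exact hG.stab' _ h2
      · rw [tr_compl] at h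
        have h2 := congrArg (tr b⁻¹) (compl_injective h)
        rw [tr_tr, tr_tr, tr_compl, tr_tr, inv_mul_cancel, tr_one] at h2
        exact hG.stab' _ h2
    · rw [hEE]; exact hG.fin
  refine splitting_min hGC htf Z hCZ hCi.1 hCi.2 h1C ?_
  rw [hEE]
  exact hmin

end Pool.Agent.Helper122.Spl
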