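import Pool.Agent.Helper122.CutDefs
import Pool.Agent.Helper122.Spl

set_option autoImplicit false

namespace Pool.Agent.Helper122.Cuts

variable {A : Type} [Group A] {ι : Type} [Fintype ι] (gen : ι → A)

/-- A torsion-free group with a nested cut splits as a free product. -/
theorem splitting (hgen : Subgroup.closure (Set.range gen) = ⊤)
    (htf : ∀ a : A, a ≠ 1 → ∀ n : ℕ, 0 < n → a ^ n ≠ 1) (Z : Subgroup A) (X : Set A)
    (hZ : RInv Z X) (hX : IsCut gen X) (hn : ∀ a, Nested (tr a X) X) :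
    ∃ A1 A2 : Subgroup A, Z ≤ A1 ∧ A2 ≠ ⊥ ∧ (A1 = ⊥ → ∃ t, A2 = Subgroup.zpowers t) ∧
      Function.Bijective (Monoid.Coprod.lift A1.subtype A2.subtype) :=
  Spl.splitting gen hgen htf Z X hZ hX hn

end Pool.Agent.Helper122.Cuts
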