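import Pool.Agent.Helper122.Deriv
import Pool.Agent.Helper122.FreeProd
import Pool.Agent.Helper122.NestedCut
import Pool.Agent.Helper122.Splitting

set_option autoImplicit false

namespace Pool.Agent.Helper122.Cuts

variable {H : Type} [Group H] {E : Type} [MulAction H E] {p : ℕ}

/-- Torsion free. -/
def TF (H : Type) [Group H] : Prop := ∀ g : H, ∀ n : ℕ, 0 < n → g ^ n = 1 → g = 1

/-- Every nontrivial finitely generated subgroup has a quotient of order `p`. -/
def LIp (H : Type) [Group H] (p : ℕ) : Prop :=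
  ∀ K : Subgroup H, K.FG → K ≠ ⊥ → ∃ φ : K →* Multiplicative (ZMod p), φ ≠ 1

theorem isDer_sub {D : H → (E →₀ ZMod p)} (h : IsDer D) (K : Subgroup H) :
    IsDer (fun a : K => D a) := by
  intro a b
  exact h a b

theorem freeAct_sub (hE : FreeAct H E) (K : Subgroup H) : FreeAct K E := by
  intro a e hae
  exact Subtype.ext (hE a e hae)

theorem tf_sub (htf : TF H) (K : Subgroup H) : TF K := by
  intro g n hn hg
  apply Subtype.ext
  apply htf g n hn
  exact congrArg Subtype.val hg

theorem infinite_of_ne_one (htf : TF H) (x : H) (hx1 : x ≠ 1) : Infinite (Subgroup.zpowers x) := by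
  apply Infinite.of_injective (fun n : ℕ => (⟨x ^ n, n, by simp⟩ : Subgroup.zpowers x))
  intro n m hnm
  by_contra hne
  wlog hlt : n < m generalizing n m
  · exact this hnm.symm (Ne.symm hne) (by omega)
  apply hx1
  apply htf x (m - n) (by omega)
  have hnm' : x ^ n = x ^ m := congrArg Subtype.val hnm
  have : (x : H) ^ m = x ^ (m - n) * x ^ n := by rw [← pow_add]; congr 1; omega
  rw [this] at hnm'
  exact (right_eq_mul.1 hnm')

theorem infinite_of_ne_bot (htf : TF H) (K : Subgroup H) (hK : K ≠ ⊥) : Infinite K := by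
  obtain ⟨x, hx⟩ := Subgroup.ne_bot_iff_exists_ne_one.1 hK
  have := infinite_of_ne_one (tf_sub htf K) x hx
  exact Infinite.of_injective (Subtype.val : Subgroup.zpowers x → K) Subtype.val_injective

theorem exists_gen (K : Subgroup H) (hK : K.FG) :
    ∃ (ι : Type) (_ : Fintype ι) (gen : ι → K), Subgroup.closure (Set.range gen) = ⊤ := by
  rw [← Group.fg_iff_subgroup_fg] at hK
  obtain ⟨S, hS, hfin⟩ := Group.fg_iff.1 hK
  refine ⟨S, hfin.fintype, Subtype.val, ?_⟩
  rw [Subtype.range_coe, hS]

/-- The splitting of a subgroup obtained from a cut. -/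
theorem split_sub (htf : TF H) (K : Subgroup H) {ι : Type} [Fintype ι] (gen : ι → K)
    (hgen : Subgroup.closure (Set.range gen) = ⊤) (Z : Subgroup H)
    (hex : ∃ X, RInv (Z.subgroupOf K) X ∧ IsCut gen X) :
    ∃ A1 A2 : Subgroup H, Z ⊓ K ≤ A1 ∧ A2 ≠ ⊥ ∧ (A1 = ⊥ → ∃ t, A2 = Subgroup.zpowers t) ∧
      FP K A1 A2 := by
  obtain ⟨X, h1, h2, h3⟩ := exists_nested_cut gen hgen (Z.subgroupOf K) hex
  obtain ⟨A1, A2, g1, g2, g3, g4⟩ := splitting gen hgen
    (fun a ha n hn h => ha (tf_sub htf K a n hn h)) (Z.subgroupOf K) X h1 h2 h3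
  refine ⟨A1.map K.subtype, A2.map K.subtype, ?_, ?_, ?_, FP.map g4⟩
  · intro z hz
    exact ⟨⟨z, hz.2⟩, g1 (Subgroup.mem_subgroupOf.2 hz.1), rfl⟩
  · intro h
    apply g2
    rw [Subgroup.map_eq_bot_iff_of_injective _ K.subtype_injective] at h
    exact h
  · intro h
    rw [Subgroup.map_eq_bot_iff_of_injective _ K.subtype_injective] at h
    obtain ⟨t, ht⟩ := g3 h
    refine ⟨t, ?_⟩
    rw [ht, MonoidHom.map_zpowers]
    rfl

/-- Augmentation. -/
noncomputable def aug {X : Type} : (X →₀ ZMod p) →+ ZMod p :=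
  Finsupp.liftAddHom (fun _ => AddMonoidHom.id _)

theorem aug_single {X : Type} (x : X) (c : ZMod p) : aug (Finsupp.single x c) = c := by
  simp [aug]

/-- The boundary data. -/
structure Bdry (D : H → (E →₀ ZMod p)) (B : (E →₀ ZMod p) →+ (H →₀ ZMod p)) : Prop where
  equi : ∀ (a : H) (x : E →₀ ZMod p), B (tl a x) = tl a (B x)
  der : ∀ a, B (D a) = Finsupp.single a 1 - Finsupp.single 1 1
  aug : ∀ x, Cuts.aug (B x) = 0

theorem tl_sub' (a : H) (x y : E →₀ ZMod p) : tl a (x - y) = tl a x - tl a y := by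
  ext e; simp [tl_apply]

theorem tl_single (a b : H) (c : ZMod p) :
    tl a (Finsupp.single b c : H →₀ ZMod p) = Finsupp.single (a * b) c := by
  simp [tl]

/-- With boundary data, a derivation is not inner on an infinite subgroup. -/
theorem not_inner [Fact p.Prime] {D : H → (E →₀ ZMod p)} {B : (E →₀ ZMod p) →+ (H →₀ ZMod p)}
    (hB : Bdry D B) (K : Subgroup H) [Infinite K] (c : E →₀ ZMod p)
    (hc : ∀ a : K, D a = c - tl a c) : False := by
  classical
  obtain ⟨y, hy⟩ : ∃ y, y = Finsupp.single 1 1 + B c := ⟨_, rfl⟩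
  have h1 : ∀ a : K, tl (a : H) y = y := by
    intro a
    have h2 := hB.der a
    rw [hc a] at h2
    have h3 : B (c - tl (a : H) c) = B c - tl (a : H) (B c) := by
      rw [map_sub, hB.equi]
    have h4 : B (c - tl a c) = B (c - tl (a : H) c) := rfl
    rw [h4, h3] at h2
    rw [hy, tl_add, tl_single, mul_one]
    have h5 : tl (a : H) (B c) = B c - (Finsupp.single (a : H) 1 - Finsupp.single 1 1) := by
      rw [← h2]; abel
    rw [h5]; abel
  have hy0 : y = 0 := by
    by_contra hne
    obtain ⟨g, hg⟩ : ∃ g, y g ≠ 0 := by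
      by_contra hcon
      push Not at hcon
      exact hne (Finsupp.ext hcon)
    have hinj : Function.Injective (fun a : K => (⟨(a : H)⁻¹ * g, by
      have h6 := DFunLike.congr_fun (h1 a) g
      rw [tl_apply] at h6
      rw [Finsupp.mem_support_iff]
      have h7 : (a : H)⁻¹ • g = (a : H)⁻¹ * g := rfl
      rw [h7] at h6
      rw [h6]; exact hg⟩ : y.support)) := by
      intro a b hab
      have := congrArg Subtype.val hab
      simp only at this
      apply Subtype.ext
      exact inv_injective (mul_right_cancel this)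
    have := Finite.of_injective _ hinj
    exact not_finite K
  have h8 : aug y = 1 := by
    rw [hy, map_add, aug_single, hB.aug, add_zero]
  rw [hy0, map_zero] at h8
  exact zero_ne_one h8

/-- Finitely generated subgroups are free. -/
theorem fg_free [Fact p.Prime] (htf : TF H) (hli : LIp H p) (hE : FreeAct H E)
    {D : H → (E →₀ ZMod p)} (hD : IsDer D) {B : (E →₀ ZMod p) →+ (H →₀ ZMod p)}
    (hB : Bdry D B) (n : ℕ) :
    ∀ K : Subgroup H, K.FG → hN (Multiplicative (ZMod p)) K = n → ∃ S, Bas S K := by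
  have : NeZero p := ⟨(Fact.out : p.Prime).ne_zero⟩
  induction n using Nat.strong_induction_on with
  | _ n ih =>
    intro K hK hn
    by_cases hbot : K = ⊥
    · subst hbot; exact ⟨∅, bas_empty⟩
    have hinf := infinite_of_ne_bot htf K hbot
    obtain ⟨ι, _, gen, hgen⟩ := exists_gen K hK
    have hex : ∃ X, RInv ((⊥ : Subgroup H).subgroupOf K) X ∧ IsCut gen X := by
      by_contra hno
      have hno' : ∀ e v, ¬ IsCut gen (lev (fun a : K => D a) e v) := by
        intro e v hcut
        apply hno
        refine ⟨_, ?_, hcut⟩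
        intro x z hz
        rw [Subgroup.mem_subgroupOf, Subgroup.mem_bot] at hz
        have : z = 1 := Subtype.ext hz
        rw [this, mul_one]
      obtain ⟨c, hc⟩ := inner_of_no_cut gen hgen (freeAct_sub hE K) (isDer_sub hD K) hno'
      exact not_inner hB K c hc
    obtain ⟨A1, A2, -, g2, g3, g4⟩ := split_sub htf K gen hgen ⊥ hex
    have f1 := g4.fg_left hK
    have f2 := g4.fg_right hK
    by_cases hA1 : A1 = ⊥
    · obtain ⟨t, ht⟩ := g3 hA1
      have hKt : K = Subgroup.zpowers t := by
        rw [← g4.2, hA1, ht, bot_sup_eq]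
      have ht1 : t ≠ 1 := by
        rintro rfl
        apply g2; rw [ht]; simp
      refine ⟨{t}, ?_, by rw [hKt, Subgroup.zpowers_eq_closure]⟩
      -- injectivity
      intro a b hab
      have hcyc : ∀ w : FreeGroup ({t} : Set H), ∃ k : ℤ, w = (FreeGroup.of ⟨t, rfl⟩) ^ k := by
        intro w
        have hU : (Set.range (FreeGroup.of : ({t} : Set H) → FreeGroup ({t} : Set H))) =
            {FreeGroup.of ⟨t, rfl⟩} := by
          ext y
          constructor
          · rintro ⟨⟨s, hs⟩, rfl⟩
            have : s = t := hs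
            subst this; rfl
          · rintro rfl; exact ⟨_, rfl⟩
        have hw : w ∈ Subgroup.closure (Set.range
            (FreeGroup.of : ({t} : Set H) → FreeGroup ({t} : Set H))) := by
          rw [FreeGroup.closure_range_of]; trivial
        rw [hU, ← Subgroup.zpowers_eq_closure] at hw
        obtain ⟨k, hk⟩ := hw
        exact ⟨k, hk.symm⟩
      obtain ⟨k, rfl⟩ := hcyc a
      obtain ⟨l, rfl⟩ := hcyc b
      simp only [map_zpow, FreeGroup.lift_apply_of] at hab
      have hkl : k = l := by
        by_contra hne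
        apply ht1
        have h0 : t ^ (k - l) = 1 := by rw [zpow_sub, hab, mul_inv_cancel]
        rcases Int.natAbs_eq (k - l) with h | h
        · apply htf t (k - l).natAbs (by omega)
          rw [← zpow_natCast, ← h, h0]
        · apply htf t (k - l).natAbs (by omega)
          rw [← zpow_natCast]
          have : ((k - l).natAbs : ℤ) = -(k - l) := by omega
          rw [this, zpow_neg, h0, inv_one]
      rw [hkl]
    · have c1 := one_lt_hN f1 (hli A1 f1 hA1)
      have c2 := one_lt_hN f2 (hli A2 f2 g2)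
      have hle := g4.card_mul_le (P := Multiplicative (ZMod p)) hK
      rw [hn] at hle
      obtain ⟨S1, hS1⟩ := ih _ (by nlinarith) A1 f1 rfl
      obtain ⟨S2, hS2⟩ := ih _ (by nlinarith) A2 f2 rfl
      exact ⟨_, bas_union g4 hS1 hS2⟩

/-- Kernels of derivations are free factors of finitely generated subgroups. -/
theorem ker_factor [Fact p.Prime] (htf : TF H) (hli : LIp H p) (hE : FreeAct H E)
    (hfree : ∀ K : Subgroup H, K.FG → ∃ S, Bas S K)
    {D : H → (E →₀ ZMod p)} (hD : IsDer D) (n : ℕ) :
    ∀ K : Subgroup H, K.FG → hN (Multiplicative (ZMod p)) K = n →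
      (dker D hD ⊓ K).FG ∧ ∃ T : Set H, ∀ S, Bas S (dker D hD ⊓ K) → Bas (S ∪ T) K := by
  have : NeZero p := ⟨(Fact.out : p.Prime).ne_zero⟩
  induction n using Nat.strong_induction_on with
  | _ n ih =>
    intro K hK hn
    by_cases hle : K ≤ dker D hD
    · rw [inf_eq_right.2 hle]
      exact ⟨hK, ∅, fun S hS => by simpa using hS⟩
    by_cases hbot : dker D hD ⊓ K = ⊥
    · rw [hbot]
      refine ⟨⟨∅, by simp⟩, ?_⟩
      obtain ⟨T, hT⟩ := hfree K hK
      refine ⟨T, fun S hS => ?_⟩
      rw [hS.eq_empty, Set.empty_union]; exact hT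
    have hKbot : K ≠ ⊥ := by
      rintro rfl
      exact hle bot_le
    have hinf := infinite_of_ne_bot htf K hKbot
    obtain ⟨ι, _, gen, hgen⟩ := exists_gen K hK
    have hex : ∃ X, RInv ((dker D hD).subgroupOf K) X ∧ IsCut gen X := by
      by_contra hno
      have hno' : ∀ e v, ¬ IsCut gen (lev (fun a : K => D a) e v) := by
        intro e v hcut
        apply hno
        refine ⟨_, ?_, hcut⟩
        exact lev_rinv (isDer_sub hD K) e v
      obtain ⟨c, hc⟩ := inner_of_no_cut gen hgen (freeAct_sub hE K) (isDer_sub hD K) hno'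
      by_cases hc0 : c = 0
      · apply hle
        intro a ha
        rw [mem_dker]
        have := hc ⟨a, ha⟩
        rw [hc0] at this
        simp only at this
        rw [this]
        simp [tl]
      · apply hbot
        rw [eq_bot_iff]
        rintro a ⟨ha1, ha2⟩
        rw [Subgroup.mem_bot]
        have h1 := hc ⟨a, ha2⟩
        have ha1' : D a = 0 := ha1
        simp only [ha1'] at h1
        have h2 : tl a c = c := (sub_eq_zero.1 h1.symm).symm
        exact eq_one_of_tl_eq htf hE c hc0 a h2
    obtain ⟨A1, A2, g1, g2, g3, g4⟩ := split_sub htf K gen hgen _ hex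
    have f1 := g4.fg_left hK
    have f2 := g4.fg_right hK
    have hA1 : A1 ≠ ⊥ := by
      rintro rfl
      exact hbot (le_bot_iff.1 g1)
    have c1 := one_lt_hN f1 (hli A1 f1 hA1)
    have c2 := one_lt_hN f2 (hli A2 f2 g2)
    have hcard := g4.card_mul_le (P := Multiplicative (ZMod p)) hK
    rw [hn] at hcard
    obtain ⟨i1, T1, hT1⟩ := ih _ (by nlinarith) A1 f1 rfl
    have hA1K : A1 ≤ K := by rw [← g4.2]; exact le_sup_left
    have heq : dker D hD ⊓ A1 = dker D hD ⊓ K := by
      apply le_antisymm
      · exact inf_le_inf_left _ hA1K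
      · exact le_inf inf_le_left g1
    rw [heq] at i1 hT1
    obtain ⟨T2, hT2⟩ := hfree A2 f2
    refine ⟨i1, T1 ∪ T2, fun S hS => ?_⟩
    rw [← Set.union_assoc]
    exact bas_union g4 (hT1 S hS) hT2

end Pool.Agent.Helper122.Cuts
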