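import Pool.Agent.Helper122.MainThm

set_option autoImplicit false

namespace Pool.Agent.Helper122

variable {α : Type} {Ω : Type}

/-- Not a proper power (and nontrivial). -/
def NotPow (r : FreeGroup α) : Prop := ∀ (g : FreeGroup α) (k : ℤ), r = g ^ k → k = 1 ∨ k = -1

theorem NotPow.ne_one {r : FreeGroup α} (h : NotPow r) : r ≠ 1 := by
  intro h1
  have := h 1 0 (by simpa using h1)
  omega

theorem NotPow.conj {r s : FreeGroup α} (h : NotPow r) (hc : IsConj s r) : NotPow s := by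
  intro g k hk
  obtain ⟨c, hc⟩ := isConj_iff.1 hc
  apply h (c * g * c⁻¹) k
  rw [conj_zpow, ← hk, hc]

/-- Structure theorem for relators which are not proper powers. -/
theorem structure_thm' [LinearOrder Ω] (τ : α → Equiv.Perm Ω) (hτ : ∀ y, StrictMono (τ y))
    (R : List (α × Bool)) (hR : CRdc R) (hRp : NotPow (FreeGroup.mk R)) (x : α)
    (hx : ∃ b, (x, b) ∈ R) {G : Type} [Group G] (gen : α → G)
    (hgen : FreeGroup.lift gen (FreeGroup.mk R) = 1) (n : ℕ) :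
    ∀ (Γ : Set (Ω × α)) (C : Finset Ω), C.card = n →
      (∀ c ∈ C, walk τ R c = c ∧ ∀ e ∈ edges τ R c, e ∈ Γ) → Acyc τ R Γ C →
      ∃ (phi : Ω → G), ∀ ω y, (ω, y) ∈ Γ → gen y = phi (τ y ω) * (phi ω)⁻¹ := by
  classical
  induction n with
  | zero =>
    intro Γ C hC h1 h2
    rw [Finset.card_eq_zero] at hC
    subst hC
    have hF := acyc_empty_forest τ R Γ h2
    exact hF.pot (fun f => gen f.2)
  | succ n ih =>
    intro Γ C hC h1 h2
    have hne : C.Nonempty := by rw [← Finset.card_pos]; omega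
    obtain ⟨c0, hc0⟩ : ∃ c0, c0 = C.max' hne := ⟨_, rfl⟩
    have hc0m : c0 ∈ C := by rw [hc0]; exact Finset.max'_mem _ _
    have hmax : ∀ c ∈ C, c ≤ c0 := by intro c hc; rw [hc0]; exact Finset.le_max' _ _ hc
    obtain ⟨ωe, hg⟩ := exists_greatest_edge τ R x hx c0
    have hε : zs τ (delta (ωe, x)) R c0 ≠ 0 := by
      refine exp_ne_zero τ hτ R hR x Γ C ?_ h1 h2 c0 hc0m hmax ωe hg
      intro Γ' C' hcard g1 g2
      exact forest_least τ hτ R hR x hx Γ' C' g1 g2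
    obtain ⟨g1, g2⟩ := acyc_erase τ hτ R x Γ C h1 h2 c0 hmax ωe hg hε
    obtain ⟨phi', hphi⟩ := ih _ _ (by
      rw [Finset.card_erase_of_mem hc0m, hC]; rfl) g1 g2
    have hF := forest_least τ hτ R hR x hx _ _ g1 g2
    obtain ⟨T, hT⟩ : ∃ T, T = (Γ \ {(ωe, x)}) \ {e : Ω × α | ∃ c ∈ C.erase c0, e.2 = x ∧
      IsLeast {ω | (ω, x) ∈ edges τ R c} e.1} := ⟨_, rfl⟩
    rw [← hT] at hF
    have hTΓ : ∀ f ∈ T, f ∈ Γ \ {(ωe, x)} := by intro f hf; rw [hT] at hf; exact hf.1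
    have hL : ∀ f ∈ edges τ R c0, f ∈ T ∨ f = (ωe, x) := by
      intro f hf
      by_cases hfe : f = (ωe, x)
      · exact Or.inr hfe
      · left
        rw [hT]
        refine ⟨⟨(h1 c0 hc0m).2 f hf, hfe⟩, ?_⟩
        rcases f with ⟨ω, y⟩
        rintro ⟨c, hc, hy, hl⟩
        simp only at hy hl
        subst hy
        rw [Finset.mem_erase] at hc
        have hlt : c < c0 := lt_of_le_of_ne (hmax c hc.2) hc.1
        obtain ⟨ω', h3, h4⟩ := edges_gt hτ R hlt hf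
        exact absurd (hl.2 h4) (not_le.2 h3)
    -- in the free group
    obtain ⟨ψ, hψ⟩ := hF.pot (fun f : Ω × α => FreeGroup.of f.2)
    have hone : zs τ (delta (ωe, x)) R c0 = 1 ∨ zs τ (delta (ωe, x)) R c0 = -1 := by
      have := tele τ T (ωe, x) (fun f : Ω × α => FreeGroup.of f.2) ψ
        ((ψ (τ x ωe))⁻¹ * FreeGroup.of x * ψ ωe)
        (fun ω y hy _ => hψ ω y hy) (by simp only; group) R c0 hL
      rw [pr_gen, (h1 c0 hc0m).1] at this
      have hid : FreeGroup.lift (FreeGroup.of : α → FreeGroup α) = MonoidHom.id _ := by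
        apply FreeGroup.ext_hom; intro a; simp
      rw [hid, MonoidHom.id_apply, ← conj_zpow] at this
      exact hRp _ _ this
    obtain ⟨θ, hθ⟩ : ∃ θ, θ = (phi' (τ x ωe))⁻¹ * gen x * phi' ωe := ⟨_, rfl⟩
    have hθ1 : θ = 1 := by
      have := tele τ T (ωe, x) (fun f => gen f.2) phi' θ
        (fun ω y hy _ => hphi ω y (hTΓ _ hy)) (by simp only; rw [hθ]; group) R c0 hL
      rw [pr_gen, hgen, (h1 c0 hc0m).1] at this
      have h5 := conj_eq_one_iff.1 this.symm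
      rcases hone with h | h
      · rw [h] at h5; simpa using h5
      · rw [h] at h5; simpa using h5
    refine ⟨phi', fun ω y hy => ?_⟩
    by_cases hfe : (ω, y) = (ωe, x)
    · simp only [Prod.mk.injEq] at hfe
      rw [hfe.1, hfe.2]
      rw [hθ] at hθ1
      rw [mul_assoc, inv_mul_eq_one] at hθ1
      rw [hθ1]
      group
    · exact hphi ω y ⟨hy, hfe⟩

theorem valid_skew' (S E : Set (FreeGroup α))
    (R : List (α × Bool))
    (hS : ∀ w ∈ S, ∃ k : ℕ, 0 < k ∧ ∃ κ ∈ ⁅Subgroup.closure S, Subgroup.closure S⁆,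
      κ⁻¹ * w ^ k ∈ Subgroup.closure ((fun g => g * FreeGroup.mk R * g⁻¹) '' E))
    (τ : α → Equiv.Perm Ω) (v : Ω) (hv : Valid S E (FreeGroup.mk R) τ v)
    (μ : Ω × α → Multiplicative ℤ)
    (hμ : ∀ g ∈ E, pr τ μ R ((FreeGroup.lift τ g⁻¹ : Equiv.Perm Ω) v) = 1) :
    Valid S E (FreeGroup.mk R) (skew τ μ) (v, 1) := by
  have hE : ∀ g ∈ E, g * FreeGroup.mk R * g⁻¹ ∈ stab (skew τ μ) (v, 1) := by
    intro g hg
    have h1 := hv.2 g hg
    rw [mem_stab, map_mul, map_mul, Equiv.Perm.mul_apply, Equiv.Perm.mul_apply] at h1 ⊢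
    obtain ⟨p, hp⟩ : ∃ p, p = (FreeGroup.lift (skew τ μ) g⁻¹ : Equiv.Perm (Ω × Multiplicative ℤ))
      (v, 1) := ⟨_, rfl⟩
    have hp1 : p.1 = (FreeGroup.lift τ g⁻¹ : Equiv.Perm Ω) v := by rw [hp, lift_skew_fst]
    have hR1 : (FreeGroup.lift (skew τ μ) (FreeGroup.mk R) :
        Equiv.Perm (Ω × Multiplicative ℤ)) p = p := by
      have : p = (p.1, p.2) := rfl
      rw [this, lift_skew, hp1, hμ g hg, one_mul, ← lift_mk_eq_walk]
      congr 1
      apply (FreeGroup.lift τ g : Equiv.Perm Ω).injective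
      rw [h1]
      rw [map_inv, Equiv.Perm.inv_def, Equiv.apply_symm_apply]
    rw [← hp, hR1, hp, map_inv, Equiv.Perm.inv_def, Equiv.apply_symm_apply]
  refine ⟨?_, hE⟩
  have hle : Subgroup.closure ((fun g => g * FreeGroup.mk R * g⁻¹) '' E) ≤
      stab (skew τ μ) (v, 1) := by
    rw [Subgroup.closure_le]
    rintro _ ⟨g, hg, rfl⟩
    exact hE g hg
  have hW : Subgroup.closure S ≤ stab τ v := by
    rw [Subgroup.closure_le]; exact hv.1
  let h : Subgroup.closure S →* Multiplicative ℤ := (hol τ μ v).comp (Subgroup.inclusion hW)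
  have hh : ∀ w, h w = 1 ↔ w.1 ∈ stab (skew τ μ) (v, 1) := fun w =>
    hol_eq_one τ μ v (Subgroup.inclusion hW w)
  intro w hw
  obtain ⟨k, hk, κ, hκ, hρ⟩ := hS w hw
  have hκ' : κ ∈ (commutator (Subgroup.closure S)).map (Subgroup.closure S).subtype := by
    rw [Subgroup.map_subtype_commutator]; exact hκ
  obtain ⟨κ', hκ1, rfl⟩ := hκ'
  have hκ2 : h κ' = 1 := Abelianization.commutator_subset_ker h hκ1
  obtain ⟨w', hw'⟩ : ∃ w' : Subgroup.closure S, w'.1 = w := ⟨⟨w, Subgroup.subset_closure hw⟩, rfl⟩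
  have h1 : h (κ'⁻¹ * w' ^ k) = 1 := by
    rw [hh]
    apply hle
    simpa [hw'] using hρ
  rw [map_mul, map_inv, hκ2, inv_one, one_mul, map_pow] at h1
  have h2 : h w' = 1 := by
    have h3 : (k : ℤ) * Multiplicative.toAdd (h w') = 0 := by
      have := congrArg Multiplicative.toAdd h1
      simpa using this
    have hk' : (k : ℤ) ≠ 0 := by exact_mod_cast hk.ne'
    have := (mul_eq_zero.1 h3).resolve_left hk'
    exact this
  rw [← hw']
  exact (hh w').1 h2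

theorem exists_acyc' (S E : Set (FreeGroup α)) (R : List (α × Bool))
    (hS : ∀ w ∈ S, ∃ k : ℕ, 0 < k ∧ ∃ κ ∈ ⁅Subgroup.closure S, Subgroup.closure S⁆,
      κ⁻¹ * w ^ k ∈ Subgroup.closure ((fun g => g * FreeGroup.mk R * g⁻¹) '' E))
    (Wd : List (List (α × Bool))) (Cf : List (List (α × Bool)))
    (hE : ∀ g ∈ E, ∃ L ∈ Cf, FreeGroup.mk L = g⁻¹) :
    ∃ (Ω : Type) (_ : LinearOrder Ω) (τ : α → Equiv.Perm Ω) (v : Ω),
      (∀ y, StrictMono (τ y)) ∧ Valid S E (FreeGroup.mk R) τ v ∧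
      ∀ C : Finset Ω, (∀ c, c ∈ C ↔ ∃ L ∈ Cf, walk τ L v = c) →
        Acyc τ R (supp τ v Wd) C := by
  by_contra hno
  have key : ∀ n : ℕ, ∃ (Ω : Type) (_ : LinearOrder Ω) (τ : α → Equiv.Perm Ω) (v : Ω),
      (∀ y, StrictMono (τ y)) ∧ Valid S E (FreeGroup.mk R) τ v ∧ n ≤ (sv τ v Wd).card := by
    intro n
    induction n with
    | zero =>
      refine ⟨PUnit, inferInstance, fun _ => 1, PUnit.unit, ?_, ?_, Nat.zero_le _⟩
      · intro y a b hab; exact hab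
      · exact ⟨fun w _ => rfl, fun g _ => rfl⟩
    | succ n ih =>
      obtain ⟨Ω, inst, τ, v, hτ, hv, hn⟩ := ih
      have hna : ¬ ∀ C : Finset Ω, (∀ c, c ∈ C ↔ ∃ L ∈ Cf, walk τ L v = c) →
        Acyc τ R (supp τ v Wd) C := fun h => hno ⟨Ω, inst, τ, v, hτ, hv, h⟩
      simp only [not_forall] at hna
      obtain ⟨C, hC, hA⟩ := hna
      simp only [Acyc, not_forall] at hA
      obtain ⟨χ, hχ, ω0, L0, h1, h2, h3⟩ := hA
      refine ⟨Ω × Multiplicative ℤ, lexOrder Ω,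
        skew τ (fun f => Multiplicative.ofAdd (χ f)), (v, 1), ?_, ?_, ?_⟩
      · exact skew_strictMono τ hτ _
      · apply valid_skew' S E R hS τ v hv
        intro g hg
        obtain ⟨L, hL, hLg⟩ := hE g hg
        rw [← hLg, lift_mk_eq_walk, pr_ofAdd, hχ _ ((hC _).2 ⟨L, hL, rfl⟩)]
        rfl
      · exact lt_of_le_of_lt hn (card_sv_lt τ v Wd χ ω0 L0 h1 h2 h3)
  obtain ⟨Ω, inst, τ, v, hτ, hv, hn⟩ := key ((sfx Wd).length + 1)
  exact absurd (card_sv_le τ v Wd) (by omega)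

theorem li_aux (S E : Set (FreeGroup α)) (R : List (α × Bool)) (hR : CRdc R)
    (hRp : NotPow (FreeGroup.mk R)) (x : α)
    (hx : ∃ b, (x, b) ∈ R) {G : Type} [Group G]
    (π : FreeGroup α →* G) (hπR : π (FreeGroup.mk R) = 1)
    (hS : ∀ w ∈ S, ∃ k : ℕ, 0 < k ∧ ∃ κ ∈ ⁅Subgroup.closure S, Subgroup.closure S⁆,
      κ⁻¹ * w ^ k ∈ Subgroup.closure ((fun g => g * FreeGroup.mk R * g⁻¹) '' E))
    (Cf Wd : List (List (α × Bool))) (hE2 : ∀ g ∈ E, ∃ L ∈ Cf, FreeGroup.mk L = g⁻¹)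
    (hCfE : ∀ L ∈ Cf, ∃ g ∈ E, FreeGroup.mk L = g⁻¹) (hSW : ∀ w ∈ S, ∃ L ∈ Wd, FreeGroup.mk L = w)
    (hRW : ∀ L ∈ Cf, R ++ L ∈ Wd) :
    ∀ w ∈ S, π w = 1 := by
  classical
  obtain ⟨Ω, inst, τ, v, hτ, hv, hA⟩ := exists_acyc' S E R hS Wd Cf hE2
  obtain ⟨C, hC⟩ : ∃ C : Finset Ω, ∀ c, c ∈ C ↔ ∃ L ∈ Cf, walk τ L v = c :=
    ⟨(Cf.map (fun L => walk τ L v)).toFinset, by intro c; simp⟩
  have hA' := hA C hC
  have hgen : FreeGroup.lift (fun a => π (FreeGroup.of a)) (FreeGroup.mk R) = 1 := by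
    rw [lift_of_hom, hπR]
  have hcyc : ∀ c ∈ C, walk τ R c = c ∧ ∀ e ∈ edges τ R c, e ∈ supp τ v Wd := by
    intro c hc
    obtain ⟨L, hL, rfl⟩ := (hC c).1 hc
    constructor
    · obtain ⟨g, hg, hgL⟩ := hCfE L hL
      have := hv.2 g hg
      rw [mem_stab, map_mul, map_mul, Equiv.Perm.mul_apply, Equiv.Perm.mul_apply] at this
      rw [← lift_mk_eq_walk, ← lift_mk_eq_walk, hgL]
      apply (FreeGroup.lift τ g : Equiv.Perm Ω).injective
      rw [this, map_inv, Equiv.Perm.inv_def, Equiv.apply_symm_apply]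
    · intro e he
      refine ⟨R ++ L, hRW L hL, ?_⟩
      rw [edges_append, List.mem_append]; exact Or.inl he
  obtain ⟨phi, hphi⟩ := structure_thm' τ hτ R hR hRp x
    hx (fun a => π (FreeGroup.of a)) hgen C.card _ C rfl hcyc hA'
  intro w hw
  have h3 := hv.1 w hw
  obtain ⟨L, hL, hLw⟩ := hSW w hw
  have h4 := pr_tele τ (fun a => π (FreeGroup.of a)) (fun _ => (1 : G)) (MonoidHom.id G) phi
    (supp τ v Wd) (by
      intro ω y hy
      simpa using hphi ω y hy) L v (by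
    intro f hf
    exact ⟨L, hL, hf⟩)
  have h5 : pr τ (fun _ => (1 : G)) L v = 1 := by
    have := pr_map τ (fun _ => (1 : PUnit)) (1 : PUnit →* G) L v
    simpa using this
  rw [mem_stab, ← hLw, lift_mk_eq_walk] at h3
  rw [h5, h3, hLw, lift_of_hom] at h4
  rw [h4]; simp

/-- Local indicability, in a convenient form. -/
theorem li_crdc (R : List (α × Bool)) (hR : CRdc R) (hRp : NotPow (FreeGroup.mk R))
    {G : Type} [Group G]
    (π : FreeGroup α →* G) (hπ : Function.Surjective π)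
    (hker : π.ker = Subgroup.normalClosure {FreeGroup.mk R})
    (T : Finset G) (hT : ∀ g ∈ T, ∃ k : ℕ, 0 < k ∧
      g ^ k ∈ ⁅Subgroup.closure (T : Set G), Subgroup.closure (T : Set G)⁆) :
    ∀ g ∈ T, g = 1 := by
  classical
  choose lft hlft using hπ
  obtain ⟨S, hSdef⟩ : ∃ S : Finset (FreeGroup α), S = T.image lft := ⟨_, rfl⟩
  have hmap : (Subgroup.closure (S : Set (FreeGroup α))).map π = Subgroup.closure (T : Set G) := by
    rw [MonoidHom.map_closure, hSdef]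
    congr 1
    ext g
    simp only [Finset.coe_image, Set.mem_image, Finset.mem_coe, exists_exists_and_eq_and, hlft,
      exists_eq_right]
  have h1 : ∀ w ∈ S, ∃ k : ℕ, 0 < k ∧ ∃ κ ∈ ⁅Subgroup.closure (S : Set (FreeGroup α)),
      Subgroup.closure (S : Set (FreeGroup α))⁆,
      κ⁻¹ * w ^ k ∈ Subgroup.normalClosure {FreeGroup.mk R} := by
    intro w hw
    rw [hSdef, Finset.mem_image] at hw
    obtain ⟨g, hg, rfl⟩ := hw
    obtain ⟨k, hk, hgk⟩ := hT g hg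
    refine ⟨k, hk, ?_⟩
    rw [← hmap, ← Subgroup.map_commutator] at hgk
    obtain ⟨κ, hκ, hκ2⟩ := hgk
    refine ⟨κ, hκ, ?_⟩
    rw [← hker, MonoidHom.mem_ker, map_mul, map_inv, hκ2, map_pow, hlft, inv_mul_cancel]
  have h2 : ∀ w : FreeGroup α, ∃ E : Finset (FreeGroup α), w ∈ S →
      ∃ k : ℕ, 0 < k ∧
      ∃ κ ∈ ⁅Subgroup.closure (S : Set (FreeGroup α)), Subgroup.closure (S : Set (FreeGroup α))⁆,
      κ⁻¹ * w ^ k ∈ Subgroup.closure ((fun g => g * FreeGroup.mk R * g⁻¹) '' (E : Set _)) := by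
    intro w
    by_cases hw : w ∈ S
    · obtain ⟨k, hk, κ, hκ, hκ2⟩ := h1 w hw
      obtain ⟨E, hE⟩ := exists_finite_conj _ _ hκ2
      exact ⟨E, fun _ => ⟨k, hk, κ, hκ, hE⟩⟩
    · exact ⟨∅, fun h => absurd h hw⟩
  choose Ef hEf using h2
  obtain ⟨E, hE⟩ : ∃ E : Finset (FreeGroup α), E = S.biUnion Ef := ⟨_, rfl⟩
  have hS : ∀ w ∈ (S : Set (FreeGroup α)), ∃ k : ℕ, 0 < k ∧
      ∃ κ ∈ ⁅Subgroup.closure (S : Set (FreeGroup α)), Subgroup.closure (S : Set (FreeGroup α))⁆,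
      κ⁻¹ * w ^ k ∈ Subgroup.closure ((fun g => g * FreeGroup.mk R * g⁻¹) '' (E : Set _)) := by
    intro w hw
    obtain ⟨k, hk, κ, hκ, hκ2⟩ := hEf w hw
    refine ⟨k, hk, κ, hκ, Subgroup.closure_mono ?_ hκ2⟩
    apply Set.image_mono
    rw [hE]
    intro g hg
    simp only [Finset.coe_biUnion, Set.mem_iUnion]
    exact ⟨w, hw, hg⟩
  obtain ⟨x, hx⟩ : ∃ x, ∃ b, (x, b) ∈ R := by
    have hRne : R ≠ [] := by
      rintro rfl
      exact hRp.ne_one rfl
    obtain ⟨⟨x, b⟩, R', rfl⟩ := List.exists_cons_of_ne_nil hRne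
    exact ⟨x, b, by simp⟩
  have hπR : π (FreeGroup.mk R) = 1 := by
    rw [← MonoidHom.mem_ker, hker]
    exact Subgroup.subset_normalClosure (Set.mem_singleton _)
  obtain ⟨Cf, Wd, hE2, hCfE, hSW, hRW⟩ := exists_words S E R
  have := li_aux (↑S) (↑E) R hR hRp x hx π hπR hS Cf Wd
    (fun g hg => hE2 g (Finset.mem_coe.1 hg))
    (fun L hL => by
      obtain ⟨g, h1, h2⟩ := hCfE L hL
      exact ⟨g, Finset.mem_coe.2 h1, h2⟩) (fun g hg => hSW g (Finset.mem_coe.1 hg)) hRW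
  intro g hg
  have h5 := this (lft g) (by rw [hSdef]; exact Finset.mem_coe.2 (Finset.mem_image_of_mem _ hg))
  rw [hlft] at h5
  exact h5

end Pool.Agent.Helper122
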