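import Pool.Agent.Helper122.Forest

set_option autoImplicit false

namespace Pool.Agent.Helper122

variable {α : Type} {Ω : Type}

/-- Every rotation has no cancelling pair. -/
def CRdc (R : List (α × Bool)) : Prop := ∀ A B, R = A ++ B → Rdc (B ++ A)

theorem zs_congr (τ : α → Equiv.Perm Ω) {χ χ' : Ω × α → ℤ} (L : List (α × Bool)) (ω : Ω)
    (h : ∀ f ∈ edges τ L ω, χ f = χ' f) : zs τ χ L ω = zs τ χ' L ω := by
  induction L with
  | nil => rfl
  | cons l L ih =>
    rw [zs_cons, zs_cons, ih (fun f hf => h f (by simp [hf])), h _ (by simp)]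

theorem zs_comb (τ : α → Equiv.Perm Ω) (χ χ' : Ω × α → ℤ) (u v : ℤ) (L : List (α × Bool)) (ω : Ω) :
    zs τ (fun f => u * χ f + v * χ' f) L ω = u * zs τ χ L ω + v * zs τ χ' L ω := by
  induction L with
  | nil => simp
  | cons l L ih =>
    rw [zs_cons, zs_cons, zs_cons, ih]
    split_ifs <;> ring

theorem zs_zero (τ : α → Equiv.Perm Ω) (L : List (α × Bool)) (ω : Ω) :
    zs τ (fun _ => 0) L ω = 0 := by
  induction L with
  | nil => simp
  | cons l L ih => rw [zs_cons, ih]; simp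

section order
variable [LinearOrder Ω]

theorem symm_strictMono {f : Equiv.Perm Ω} (h : StrictMono f) : StrictMono f.symm := by
  intro a b hab
  rcases lt_trichotomy (f.symm a) (f.symm b) with h1 | h1 | h1
  · exact h1
  · have := congrArg f h1; simp at this; exact absurd this hab.ne
  · have := h h1; simp at this; exact absurd hab this.not_gt

theorem step_strictMono {τ : α → Equiv.Perm Ω} (h : ∀ y, StrictMono (τ y)) (l : α × Bool) :
    StrictMono (step τ l) := by
  rcases l with ⟨y, b⟩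
  cases b
  · intro a b hab; simp only [step, Bool.false_eq_true, if_false]; exact symm_strictMono (h y) hab
  · intro a b hab; simp only [step, if_true]; exact h y hab

theorem walk_strictMono {τ : α → Equiv.Perm Ω} (h : ∀ y, StrictMono (τ y)) (L : List (α × Bool)) :
    StrictMono (walk τ L) := by
  induction L with
  | nil => intro a b h; exact h
  | cons l L ih => intro a b hab; exact step_strictMono h l (ih hab)

theorem edges_lt {τ : α → Equiv.Perm Ω} (h : ∀ y, StrictMono (τ y)) (L : List (α × Bool))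
    {c c' ω : Ω} {x : α} (hc : c < c') (hm : (ω, x) ∈ edges τ L c) :
    ∃ ω', ω < ω' ∧ (ω', x) ∈ edges τ L c' := by
  induction L with
  | nil => simp at hm
  | cons l L ih =>
    simp only [edges_cons, List.mem_cons] at hm
    rcases hm with hm | hm
    · rcases l with ⟨y, b⟩
      cases b
      · simp only [edgeOf, Bool.false_eq_true, if_false, Prod.mk.injEq] at hm
        obtain ⟨rfl, rfl⟩ := hm
        exact ⟨(τ x).symm (walk τ L c'), symm_strictMono (h x) (walk_strictMono h L hc),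
          by simp [edgeOf]⟩
      · simp only [edgeOf, if_true, Prod.mk.injEq] at hm
        obtain ⟨rfl, rfl⟩ := hm
        exact ⟨walk τ L c', walk_strictMono h L hc, by simp [edgeOf]⟩
    · obtain ⟨ω', h1, h2⟩ := ih hm
      exact ⟨ω', h1, by simp [h2]⟩

theorem edges_gt {τ : α → Equiv.Perm Ω} (h : ∀ y, StrictMono (τ y)) (L : List (α × Bool))
    {c c' ω : Ω} {x : α} (hc : c < c') (hm : (ω, x) ∈ edges τ L c') :
    ∃ ω', ω' < ω ∧ (ω', x) ∈ edges τ L c := by
  have := @edges_lt α Ω (OrderDual.instLinearOrder Ω) τ (fun y a b hab => h y hab) L c' c ω x hc hm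
  exact this

end order

theorem zs_single_ne (τ : α → Equiv.Perm Ω) {e : Ω × α} {l : α × Bool} {p : Ω}
    (he : e = edgeOf τ l p) : zs τ (delta e) [l] p ≠ 0 := by
  rw [zs_cons]
  simp only [walk_nil, ← he, zs_nil, add_zero, delta, if_true]
  split_ifs <;> simp

/-- The key lemma: the top edge has nonzero exponent in the top relator cycle. -/
theorem exp_ne_zero [LinearOrder Ω] (τ : α → Equiv.Perm Ω) (hτ : ∀ y, StrictMono (τ y))
    (R : List (α × Bool)) (hR : CRdc R) (x : α) (Γ : Set (Ω × α)) (C : Finset Ω)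
    (IH : ∀ (Γ' : Set (Ω × α)) (C' : Finset Ω), C'.card < C.card →
      (∀ c ∈ C', walk τ R c = c ∧ ∀ e ∈ edges τ R c, e ∈ Γ') → Acyc τ R Γ' C' →
      Forest τ (Γ' \ {e | ∃ c ∈ C', e.2 = x ∧ IsLeast {ω | (ω, x) ∈ edges τ R c} e.1}))
    (h1 : ∀ c ∈ C, walk τ R c = c ∧ ∀ e ∈ edges τ R c, e ∈ Γ) (h2 : Acyc τ R Γ C)
    (c0 : Ω) (hc0 : c0 ∈ C) (hmax : ∀ c ∈ C, c ≤ c0) (ωe : Ω)
    (hg : IsGreatest {ω | (ω, x) ∈ edges τ R c0} ωe) :
    zs τ (delta (ωe, x)) R c0 ≠ 0 := by
  classical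
  intro hε
  obtain ⟨e, he⟩ : ∃ e : Ω × α, e = (ωe, x) := ⟨_, rfl⟩
  rw [← he] at hε
  have heR : e ∈ edges τ R c0 := by rw [he]; exact hg.1
  have hother : ∀ c ∈ C, c ≠ c0 → e ∉ edges τ R c := by
    intro c hc hne hmem
    have hlt : c < c0 := lt_of_le_of_ne (hmax c hc) hne
    rw [he] at hmem
    obtain ⟨ω', h3, h4⟩ := edges_lt hτ R hlt hmem
    exact absurd (hg.2 h4) (not_le.2 h3)
  have hkill : ∀ c ∈ C, zs τ (delta e) R c = 0 := by
    intro c hc
    by_cases hcc : c = c0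
    · rw [hcc]; exact hε
    · exact zs_delta_eq_zero τ e R c (hother c hc hcc)
  have hper : ∀ ω L, (∀ f ∈ edges τ L ω, f ∈ Γ) → walk τ L ω = ω → zs τ (delta e) L ω = 0 :=
    h2 _ hkill
  obtain ⟨A, B, l, hRAB, hel, -⟩ := first_trav τ heR
  obtain ⟨p, hp⟩ : ∃ p, p = walk τ B c0 := ⟨_, rfl⟩
  obtain ⟨q, hq⟩ : ∃ q, q = step τ l p := ⟨_, rfl⟩
  rw [← hp] at hel
  have hAq : walk τ A q = c0 := by
    have := (h1 c0 hc0).1
    rw [hRAB, walk_append, walk_cons, ← hp, ← hq] at this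
    exact this
  obtain ⟨S, hS⟩ : ∃ S, S = B ++ A := ⟨_, rfl⟩
  have hSq : walk τ S q = p := by rw [hS, walk_append, hAq, hp]
  have hSR : ∀ f ∈ edges τ S q, f ∈ edges τ R c0 := by
    intro f hf
    rw [hS, edges_append, hAq] at hf
    rw [hRAB, edges_append, walk_cons, ← hp, ← hq, edges_cons]
    simp only [List.mem_append, List.mem_cons] at hf ⊢
    tauto
  have hRΓ : ∀ f ∈ edges τ R c0, f ∈ Γ := (h1 c0 hc0).2
  have hred1 : Rdc (S ++ [l]) := by
    have := hR (A ++ [l]) B (by simp [hRAB])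
    rw [hS]; simpa using this
  have hred2 : Rdc (l :: S) := by
    have := hR A (l :: B) hRAB
    rw [hS]; simpa using this
  -- closed walks at p made from a walk q → p
  have hloop : ∀ L, (∀ f ∈ edges τ L q, f ∈ Γ) → walk τ L q = p → zs τ (delta e) L q ≠ 0 := by
    intro L hL hw h0
    have := hper p (L ++ [l]) (by
      intro f hf
      rw [edges_append] at hf
      simp only [walk_cons, walk_nil, edges_cons, edges_nil, List.mem_append, List.mem_cons,
        List.not_mem_nil, or_false, ← hq, ← hel] at hf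
      rcases hf with hf | hf
      · exact hL f hf
      · rw [hf]; exact hRΓ e heR) (by
      rw [walk_append]; simp only [walk_cons, walk_nil, ← hq, hw])
    rw [zs_append] at this
    simp only [walk_cons, walk_nil, ← hq] at this
    rw [h0, zero_add] at this
    exact zs_single_ne τ hel this
  have heS : e ∈ edges τ S q := by
    by_contra hc
    exact hloop S (fun f hf => hRΓ f (hSR f hf)) hSq (zs_delta_eq_zero τ e S q hc)
  -- first traversal : closed reduced segment at q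
  obtain ⟨S1, S0, l1, hS10, hel1, hS0⟩ := first_trav τ heS
  have hS0q : l1 = invl l ∧ walk τ S0 q = q := by
    rcases edge_cases τ (hel.symm.trans hel1) with ⟨h5, h6⟩ | ⟨h5, h6⟩
    · exfalso
      refine hloop S0 (fun f hf => hRΓ f (hSR f ?_)) h6 (zs_delta_eq_zero τ e S0 q hS0)
      rw [hS10, edges_append, edges_cons]; simp [hf]
    · exact ⟨h5, by rw [h6, hq]⟩
  have hS0ne : S0 ≠ [] := by
    rintro rfl
    apply hred1 S1 [] l.1 (!l.2)
    rw [hS10, hS0q.1]; simp [invl]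
  have hS0red : Rdc S0 := hred1.sub (A := S1 ++ [l1]) (C := [l]) (by rw [hS10]; simp)
  -- last traversal : closed reduced segment at p
  obtain ⟨S3, S2, l3, hS32, hel3, hS3⟩ := last_trav τ heS
  have hl3 : l3 = invl l ∧ walk τ S2 q = q := by
    rcases edge_cases τ (hel.symm.trans hel3) with ⟨h5, h6⟩ | ⟨h5, h6⟩
    · exfalso
      rw [h6, h5, ← hq] at hS3
      have hw : walk τ S3 q = p := by
        have := hSq
        rw [hS32, walk_append, walk_cons, h6, h5, ← hq] at this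
        exact this
      refine hloop S3 (fun f hf => hRΓ f (hSR f ?_)) hw (zs_delta_eq_zero τ e S3 q hS3)
      rw [hS32, edges_append, walk_cons, h6, h5, ← hq]; simp [hf]
    · exact ⟨h5, by rw [h6, hq]⟩
  have hqp : step τ (invl l) q = p := by rw [hq]; simp
  rw [hl3.2, hl3.1, hqp] at hS3
  have hS3p : walk τ S3 p = p := by
    have := hSq
    rw [hS32, walk_append, walk_cons, hl3.2, hl3.1, hqp] at this
    exact this
  have hS3ne : S3 ≠ [] := by
    rintro rfl
    apply hred2 [] S2 l.1 l.2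
    rw [hS32, hl3.1]; simp [invl]
  have hS3red : Rdc S3 := hred2.sub (A := [l]) (C := l3 :: S2) (by rw [hS32]; simp)
  -- component of q
  let K : Set Ω := {ω | ∃ L, (∀ f ∈ edges τ L q, f ∈ Γ ∧ f ≠ e) ∧ walk τ L q = ω}
  have hqK : q ∈ K := ⟨[], by simp, rfl⟩
  have hpK : p ∉ K := by
    rintro ⟨L, hL1, hL2⟩
    refine hloop L (fun f hf => (hL1 f hf).1) hL2 (zs_delta_eq_zero τ e L q ?_)
    intro hmem; exact (hL1 e hmem).2 rfl
  have hadj1 : ∀ ω l', edgeOf τ l' ω ∈ Γ → edgeOf τ l' ω ≠ e → ω ∈ K → step τ l' ω ∈ K := by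
    rintro ω l' ha hb ⟨L, hL1, rfl⟩
    refine ⟨l' :: L, ?_, rfl⟩
    intro f hf
    simp only [edges_cons, List.mem_cons] at hf
    rcases hf with rfl | hf
    · exact ⟨ha, hb⟩
    · exact hL1 f hf
  have hadj : ∀ ω l', edgeOf τ l' ω ∈ Γ → edgeOf τ l' ω ≠ e → (step τ l' ω ∈ K ↔ ω ∈ K) := by
    intro ω l' ha hb
    constructor
    · intro h
      have := hadj1 (step τ l' ω) (invl l') (by simpa using ha) (by simpa using hb) h
      simpa using this
    · exact hadj1 ω l' ha hb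
  have hpath : ∀ (L : List (α × Bool)) (ω : Ω), (∀ f ∈ edges τ L ω, f ∈ Γ ∧ f ≠ e) →
      (walk τ L ω ∈ K ↔ ω ∈ K) ∧ ∀ f ∈ edges τ L ω, (f.1 ∈ K ↔ ω ∈ K) := by
    intro L ω
    induction L with
    | nil => intro _; simp
    | cons m L ih =>
      intro hL
      obtain ⟨i1, i2⟩ := ih (fun f hf => hL f (by simp [hf]))
      have hm := hL (edgeOf τ m (walk τ L ω)) (by simp)
      have ha := hadj _ _ hm.1 hm.2
      refine ⟨by rw [walk_cons, ha, i1], ?_⟩
      intro f hf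
      simp only [edges_cons, List.mem_cons] at hf
      rcases hf with rfl | hf
      · rcases m with ⟨y, b⟩
        cases b
        · simp only [edgeOf, Bool.false_eq_true, if_false, step] at ha ⊢
          rw [ha, i1]
        · simp only [edgeOf, if_true]; exact i1
      · exact i2 f hf
  obtain ⟨Γ1, hΓ1⟩ : ∃ Γ1 : Set (Ω × α), Γ1 = {f | f ∈ Γ ∧ f ≠ e ∧ f.1 ∈ K} := ⟨_, rfl⟩
  obtain ⟨Γ2, hΓ2⟩ : ∃ Γ2 : Set (Ω × α), Γ2 = {f | f ∈ Γ ∧ f ≠ e ∧ f.1 ∉ K} := ⟨_, rfl⟩
  obtain ⟨C1, hC1⟩ : ∃ C1 : Finset Ω, C1 = (C.erase c0).filter (fun c => c ∈ K) := ⟨_, rfl⟩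
  obtain ⟨C2, hC2⟩ : ∃ C2 : Finset Ω, C2 = (C.erase c0).filter (fun c => c ∉ K) := ⟨_, rfl⟩
  have hcardE : (C.erase c0).card < C.card := Finset.card_erase_lt_of_mem hc0
  have hcard1 : C1.card < C.card := by
    rw [hC1]; exact lt_of_le_of_lt (Finset.card_filter_le _ _) hcardE
  have hcard2 : C2.card < C.card := by
    rw [hC2]; exact lt_of_le_of_lt (Finset.card_filter_le _ _) hcardE
  have hcyc : ∀ c ∈ C, c ≠ c0 → ∀ f ∈ edges τ R c, f ∈ Γ ∧ f ≠ e := by
    intro c hc hne f hf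
    refine ⟨(h1 c hc).2 f hf, ?_⟩
    rintro rfl
    exact hother c hc hne hf
  have hdich : Acyc τ R Γ1 C1 ∨ Acyc τ R Γ2 C2 := by
    by_contra hno
    rw [not_or] at hno
    obtain ⟨hn1, hn2⟩ := hno
    simp only [Acyc, not_forall] at hn1 hn2
    obtain ⟨χ1, hk1, ω1, L1, hL1, hw1, hz1⟩ := hn1
    obtain ⟨χ2, hk2, ω2, L2, hL2, hw2, hz2⟩ := hn2
    let X1 : Ω × α → ℤ := fun f => if f.1 ∈ K then χ1 f else 0
    let X2 : Ω × α → ℤ := fun f => if f.1 ∈ K then 0 else χ2 f
    have in1 : ∀ (L : List (α × Bool)) (ω : Ω), (∀ f ∈ edges τ L ω, f ∈ Γ ∧ f ≠ e) → ω ∈ K →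
        zs τ X1 L ω = zs τ χ1 L ω ∧ zs τ X2 L ω = 0 := by
      intro L ω hL hω
      have hh := (hpath L ω hL).2
      constructor
      · apply zs_congr; intro f hf; simp only [X1]; rw [if_pos ((hh f hf).2 hω)]
      · rw [← zs_zero τ L ω]
        apply zs_congr; intro f hf; simp only [X2]; rw [if_pos ((hh f hf).2 hω)]
    have in2 : ∀ (L : List (α × Bool)) (ω : Ω), (∀ f ∈ edges τ L ω, f ∈ Γ ∧ f ≠ e) → ω ∉ K →
        zs τ X1 L ω = 0 ∧ zs τ X2 L ω = zs τ χ2 L ω := by
      intro L ω hL hω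
      have hh := (hpath L ω hL).2
      constructor
      · rw [← zs_zero τ L ω]
        apply zs_congr; intro f hf; simp only [X1]; rw [if_neg (fun h => hω ((hh f hf).1 h))]
      · apply zs_congr; intro f hf; simp only [X2]; rw [if_neg (fun h => hω ((hh f hf).1 h))]
    have hkey : ∀ u v : ℤ, u * zs τ X1 R c0 + v * zs τ X2 R c0 = 0 → u = 0 ∧ v = 0 := by
      intro u v huv
      have hA := h2 (fun f => u * X1 f + v * X2 f) (by
        intro c hc
        rw [zs_comb]
        by_cases hcc : c = c0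
        · rw [hcc]; exact huv
        · by_cases hcK : c ∈ K
          · obtain ⟨i1, i2⟩ := in1 R c (hcyc c hc hcc) hcK
            rw [i1, i2, hk1 c (by rw [hC1]; simp [hcK, hcc, hc])]; ring
          · obtain ⟨i1, i2⟩ := in2 R c (hcyc c hc hcc) hcK
            rw [i1, i2, hk2 c (by rw [hC2]; simp [hcK, hcc, hc])]; ring)
      constructor
      · have hLL : ∀ f ∈ edges τ L1 ω1, f ∈ Γ ∧ f ≠ e := by
          intro f hf; have := hL1 f hf; rw [hΓ1] at this; exact ⟨this.1, this.2.1⟩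
        have hω1 : ω1 ∈ K := by
          rcases L1 with _ | ⟨m, L1⟩
          · exact absurd rfl hz1
          · have hm : edgeOf τ m (walk τ L1 ω1) ∈ edges τ (m :: L1) ω1 := by simp
            rw [← (hpath _ _ hLL).2 _ hm]
            have := hL1 _ hm; rw [hΓ1] at this; exact this.2.2
        obtain ⟨i1, i2⟩ := in1 L1 ω1 hLL hω1
        have := hA ω1 L1 (fun f hf => (hLL f hf).1) hw1
        rw [zs_comb, i1, i2, mul_zero, add_zero, mul_eq_zero] at this
        exact this.resolve_right hz1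
      · have hLL : ∀ f ∈ edges τ L2 ω2, f ∈ Γ ∧ f ≠ e := by
          intro f hf; have := hL2 f hf; rw [hΓ2] at this; exact ⟨this.1, this.2.1⟩
        have hω2 : ω2 ∉ K := by
          rcases L2 with _ | ⟨m, L2⟩
          · exact absurd rfl hz2
          · have hm : edgeOf τ m (walk τ L2 ω2) ∈ edges τ (m :: L2) ω2 := by simp
            rw [← (hpath _ _ hLL).2 _ hm]
            have := hL2 _ hm; rw [hΓ2] at this; exact this.2.2
        obtain ⟨i1, i2⟩ := in2 L2 ω2 hLL hω2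
        have := hA ω2 L2 (fun f hf => (hLL f hf).1) hw2
        rw [zs_comb, i1, i2, mul_zero, zero_add, mul_eq_zero] at this
        exact this.resolve_right hz2
    obtain ⟨h7, h8⟩ := hkey (zs τ X2 R c0) (-(zs τ X1 R c0)) (by ring)
    have h9 := (hkey 1 0 (by rw [neg_eq_zero] at h8; rw [h8]; ring)).1
    exact one_ne_zero h9
  have hnotmin : ∀ f ∈ edges τ R c0, ∀ c ∈ C.erase c0,
      ¬ (f.2 = x ∧ IsLeast {ω | (ω, x) ∈ edges τ R c} f.1) := by
    rintro ⟨ω, y⟩ hf c hc ⟨hy, hl⟩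
    simp only at hy hl
    subst hy
    rw [Finset.mem_erase] at hc
    have hlt : c < c0 := lt_of_le_of_ne (hmax c hc.2) hc.1
    obtain ⟨ω', h3, h4⟩ := edges_gt hτ R hlt hf
    exact absurd (hl.2 h4) (not_le.2 h3)
  rcases hdich with hA | hA
  · have hF := IH Γ1 C1 hcard1 (by
      intro c hc
      rw [hC1, Finset.mem_filter, Finset.mem_erase] at hc
      refine ⟨(h1 c hc.1.2).1, fun f hf => ?_⟩
      have hh := hcyc c hc.1.2 hc.1.1
      rw [hΓ1]
      exact ⟨(hh f hf).1, (hh f hf).2, ((hpath R c hh).2 f hf).2 hc.2⟩) hA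
    have hS0R : ∀ f ∈ edges τ S0 q, f ∈ edges τ R c0 := by
      intro f hf; apply hSR
      rw [hS10, edges_append, edges_cons]; simp [hf]
    have hS0' : ∀ f ∈ edges τ S0 q, f ∈ Γ ∧ f ≠ e := by
      intro f hf
      refine ⟨hRΓ f (hS0R f hf), ?_⟩
      rintro rfl; exact hS0 hf
    apply hS0ne
    apply hF q S0 hS0red _ hS0q.2
    intro f hf
    refine ⟨?_, ?_⟩
    · rw [hΓ1]; exact ⟨(hS0' f hf).1, (hS0' f hf).2, ((hpath S0 q hS0').2 f hf).2 hqK⟩
    · rintro ⟨c, hc, hm⟩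
      rw [hC1, Finset.mem_filter] at hc
      exact hnotmin f (hS0R f hf) c hc.1 hm
  · have hF := IH Γ2 C2 hcard2 (by
      intro c hc
      rw [hC2, Finset.mem_filter, Finset.mem_erase] at hc
      refine ⟨(h1 c hc.1.2).1, fun f hf => ?_⟩
      have hh := hcyc c hc.1.2 hc.1.1
      rw [hΓ2]
      exact ⟨(hh f hf).1, (hh f hf).2, fun h => hc.2 (((hpath R c hh).2 f hf).1 h)⟩) hA
    have hS3R : ∀ f ∈ edges τ S3 p, f ∈ edges τ R c0 := by
      intro f hf; apply hSR
      rw [hS32, edges_append, walk_cons, hl3.2, hl3.1, hqp]; simp [hf]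
    have hS3' : ∀ f ∈ edges τ S3 p, f ∈ Γ ∧ f ≠ e := by
      intro f hf
      refine ⟨hRΓ f (hS3R f hf), ?_⟩
      rintro rfl; exact hS3 hf
    apply hS3ne
    apply hF p S3 hS3red _ hS3p
    intro f hf
    refine ⟨?_, ?_⟩
    · rw [hΓ2]; exact ⟨(hS3' f hf).1, (hS3' f hf).2, fun h => hpK (((hpath S3 p hS3').2 f hf).1 h)⟩
    · rintro ⟨c, hc, hm⟩
      rw [hC2, Finset.mem_filter] at hc
      exact hnotmin f (hS3R f hf) c hc.1 hm

theorem exists_greatest_edge [LinearOrder Ω] (τ : α → Equiv.Perm Ω) (R : List (α × Bool)) (x : α)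
    (hx : ∃ b, (x, b) ∈ R) (c : Ω) : ∃ ω, IsGreatest {ω | (ω, x) ∈ edges τ R c} ω := by
  classical
  obtain ⟨b, hb⟩ := hx
  have hne : ∃ ω, (ω, x) ∈ edges τ R c := by
    obtain ⟨A, B, rfl⟩ := List.append_of_mem hb
    refine ⟨(edgeOf τ (x, b) (walk τ B c)).1, ?_⟩
    rw [edges_append, edges_cons]
    simp [edgeOf]
  have hfin : {ω | (ω, x) ∈ edges τ R c}.Finite := by
    apply Set.Finite.subset ((edges τ R c).map Prod.fst).toFinset.finite_toSet
    intro ω hω
    simp only [Finset.mem_coe, List.mem_toFinset, List.mem_map]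
    exact ⟨(ω, x), hω, rfl⟩
  have hne' : hfin.toFinset.Nonempty := by
    obtain ⟨ω, h⟩ := hne
    exact ⟨ω, by simpa using h⟩
  refine ⟨hfin.toFinset.max' hne', ?_, ?_⟩
  · have := Finset.max'_mem _ hne'
    simpa using this
  · intro ω hω
    apply Finset.le_max'
    simpa using hω

/-- The reduced system after removing the top cycle and its top edge is again acyclic. -/
theorem acyc_erase [LinearOrder Ω] (τ : α → Equiv.Perm Ω) (hτ : ∀ y, StrictMono (τ y))
    (R : List (α × Bool)) (x : α) (Γ : Set (Ω × α)) (C : Finset Ω) [DecidableEq Ω]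
    (h1 : ∀ c ∈ C, walk τ R c = c ∧ ∀ e ∈ edges τ R c, e ∈ Γ) (h2 : Acyc τ R Γ C)
    (c0 : Ω) (hmax : ∀ c ∈ C, c ≤ c0) (ωe : Ω)
    (hg : IsGreatest {ω | (ω, x) ∈ edges τ R c0} ωe)
    (hε : zs τ (delta (ωe, x)) R c0 ≠ 0) :
    (∀ c ∈ C.erase c0, walk τ R c = c ∧ ∀ e ∈ edges τ R c, e ∈ Γ \ {(ωe, x)}) ∧
    Acyc τ R (Γ \ {(ωe, x)}) (C.erase c0) := by
  classical
  have hother : ∀ c ∈ C.erase c0, (ωe, x) ∉ edges τ R c := by
    intro c hc hmem
    rw [Finset.mem_erase] at hc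
    have hlt : c < c0 := lt_of_le_of_ne (hmax c hc.2) hc.1
    obtain ⟨ω', h3, h4⟩ := edges_lt hτ R hlt hmem
    exact absurd (hg.2 h4) (not_le.2 h3)
  refine ⟨?_, ?_⟩
  · intro c hc
    have hc' := Finset.mem_erase.1 hc
    refine ⟨(h1 c hc'.2).1, fun f hf => ⟨(h1 c hc'.2).2 f hf, ?_⟩⟩
    rintro rfl
    exact hother c hc hf
  · intro χ hχ ω L hL hw
    let X : Ω × α → ℤ := fun f => if f = (ωe, x) then 0 else χ f
    have hX : ∀ (L : List (α × Bool)) (ω : Ω), (ωe, x) ∉ edges τ L ω →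
        zs τ X L ω = zs τ χ L ω := by
      intro L ω hn
      apply zs_congr
      intro f hf
      simp only [X]; rw [if_neg]; rintro rfl; exact hn hf
    have := h2 (fun f => (-(zs τ X R c0)) * delta (ωe, x) f +
        (zs τ (delta (ωe, x)) R c0) * X f) (by
      intro c hc
      rw [zs_comb]
      by_cases hcc : c = c0
      · rw [hcc]; ring
      · have hc' : c ∈ C.erase c0 := Finset.mem_erase.2 ⟨hcc, hc⟩
        rw [zs_delta_eq_zero τ _ _ _ (hother c hc'), hX R c (hother c hc'), hχ c hc']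
        ring) ω L (fun f hf => (hL f hf).1) hw
    have hn : (ωe, x) ∉ edges τ L ω := by
      intro h; exact (hL _ h).2 rfl
    rw [zs_comb, zs_delta_eq_zero τ _ _ _ hn, hX L ω hn, mul_zero, zero_add, mul_eq_zero] at this
    exact this.resolve_left hε

theorem forest_aux (τ : α → Equiv.Perm Ω) (R : List (α × Bool)) (hR : CRdc R) (x : α)
    (hx : ∃ b, (x, b) ∈ R) (n : ℕ) :
    ∀ (inst : LinearOrder Ω), (∀ y, StrictMono (τ y)) → ∀ (Γ : Set (Ω × α)) (C : Finset Ω),
      C.card = n → (∀ c ∈ C, walk τ R c = c ∧ ∀ e ∈ edges τ R c, e ∈ Γ) → Acyc τ R Γ C →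
      Forest τ (Γ \ {e | ∃ c ∈ C, e.2 = x ∧ IsGreatest {ω | (ω, x) ∈ edges τ R c} e.1}) := by
  induction n using Nat.strong_induction_on with
  | _ n ih =>
    classical
    intro inst hτ Γ C hC h1 h2
    rcases C.eq_empty_or_nonempty with rfl | hne
    · exact (acyc_empty_forest τ R Γ h2).mono Set.diff_subset
    · obtain ⟨c0, hc0⟩ : ∃ c0, c0 = C.max' hne := ⟨_, rfl⟩
      have hc0m : c0 ∈ C := by rw [hc0]; exact Finset.max'_mem _ _
      have hmax : ∀ c ∈ C, c ≤ c0 := by intro c hc; rw [hc0]; exact Finset.le_max' _ _ hc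
      obtain ⟨ωe, hg⟩ := exists_greatest_edge τ R x hx c0
      have hε : zs τ (delta (ωe, x)) R c0 ≠ 0 := by
        refine exp_ne_zero τ hτ R hR x Γ C ?_ h1 h2 c0 hc0m hmax ωe hg
        intro Γ' C' hcard g1 g2
        exact ih C'.card (by omega) (OrderDual.instLinearOrder Ω) (fun y a b hab => hτ y hab)
          Γ' C' rfl g1 g2
      obtain ⟨g1, g2⟩ := acyc_erase τ hτ R x Γ C h1 h2 c0 hmax ωe hg hε
      have hF := ih (C.erase c0).card (by
        have := Finset.card_erase_lt_of_mem hc0m; omega) inst hτ _ _ rfl g1 g2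
      apply hF.mono
      rintro f ⟨hf1, hf2⟩
      refine ⟨⟨hf1, ?_⟩, ?_⟩
      · rintro rfl
        exact hf2 ⟨c0, hc0m, rfl, hg⟩
      · rintro ⟨c, hc, hm⟩
        exact hf2 ⟨c, (Finset.mem_erase.1 hc).2, hm⟩

/-- Both forest statements and nonvanishing of the exponent. -/
theorem forest_least [LinearOrder Ω] (τ : α → Equiv.Perm Ω) (hτ : ∀ y, StrictMono (τ y))
    (R : List (α × Bool)) (hR : CRdc R) (x : α)
    (hx : ∃ b, (x, b) ∈ R) (Γ : Set (Ω × α)) (C : Finset Ω)
    (h1 : ∀ c ∈ C, walk τ R c = c ∧ ∀ e ∈ edges τ R c, e ∈ Γ) (h2 : Acyc τ R Γ C) :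
    Forest τ (Γ \ {e | ∃ c ∈ C, e.2 = x ∧ IsLeast {ω | (ω, x) ∈ edges τ R c} e.1}) :=
  forest_aux τ R hR x hx C.card (OrderDual.instLinearOrder Ω) (fun y a b hab => hτ y hab)
          Γ C rfl h1 h2

end Pool.Agent.Helper122
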