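import Pool.Agent.Helper122.Max

set_option autoImplicit false

namespace Pool.Agent.Helper122

variable {α : Type} {Ω : Type}

theorem exists_words (S E : Finset (FreeGroup α)) (R : List (α × Bool)) :
    ∃ Cf Wd : List (List (α × Bool)), (∀ g ∈ E, ∃ L ∈ Cf, FreeGroup.mk L = g⁻¹) ∧
      (∀ L ∈ Cf, ∃ g ∈ E, FreeGroup.mk L = g⁻¹) ∧ (∀ w ∈ S, ∃ L ∈ Wd, FreeGroup.mk L = w) ∧
      (∀ L ∈ Cf, R ++ L ∈ Wd) := by
  choose f hf using (exists_mk (α := α))
  refine ⟨E.toList.map (fun g => f g⁻¹), S.toList.map f ++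
    (E.toList.map (fun g => f g⁻¹)).map (fun L => R ++ L), ?_, ?_, ?_, ?_⟩
  · intro g hg
    exact ⟨f g⁻¹, List.mem_map.2 ⟨g, Finset.mem_toList.2 hg, rfl⟩, hf _⟩
  · intro L hL
    obtain ⟨g, hg, rfl⟩ := List.mem_map.1 hL
    exact ⟨g, Finset.mem_toList.1 hg, hf _⟩
  · intro w hw
    exact ⟨f w, List.mem_append.2 (Or.inl (List.mem_map.2 ⟨w, Finset.mem_toList.2 hw, rfl⟩)), hf _⟩
  · intro L hL
    exact List.mem_append.2 (Or.inr (List.mem_map.2 ⟨L, hL, rfl⟩))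

theorem lift_of_hom {G : Type} [Group G] (π : FreeGroup α →* G) :
    FreeGroup.lift (fun a => π (FreeGroup.of a)) = π := by
  apply FreeGroup.ext_hom; intro a; simp

theorem main_aux (S E : Set (FreeGroup α)) (R : List (α × Bool)) (hR : CRdc R) (x : α)
    (hx : ∃ b, (x, b) ∈ R) {G : Type} [Group G]
    (π : FreeGroup α →* G) (hπR : π (FreeGroup.mk R) = 1)
    (hS : ∀ w ∈ S, ∃ κ ∈ ⁅Subgroup.closure S, Subgroup.closure S⁆,
      κ⁻¹ * w ∈ Subgroup.closure ((fun g => g * FreeGroup.mk R * g⁻¹) '' E))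
    (Cf Wd : List (List (α × Bool))) (hE2 : ∀ g ∈ E, ∃ L ∈ Cf, FreeGroup.mk L = g⁻¹)
    (hCfE : ∀ L ∈ Cf, ∃ g ∈ E, FreeGroup.mk L = g⁻¹) (hSW : ∀ w ∈ S, ∃ L ∈ Wd, FreeGroup.mk L = w)
    (hRW : ∀ L ∈ Cf, R ++ L ∈ Wd) :
    ∀ w ∈ S, π w = 1 := by
  classical
  obtain ⟨Ω, inst, τ, v, hτ, hv, hA⟩ := exists_acyc S E R hS Wd Cf hE2
  obtain ⟨C, hC⟩ : ∃ C : Finset Ω, ∀ c, c ∈ C ↔ ∃ L ∈ Cf, walk τ L v = c :=
    ⟨(Cf.map (fun L => walk τ L v)).toFinset, by intro c; simp⟩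
  have hA' := hA C hC
  have hgen : FreeGroup.lift (fun a => π (FreeGroup.of a)) (FreeGroup.mk R) = 1 := by
    rw [lift_of_hom, hπR]
  have hcyc : ∀ c ∈ C, walk τ R c = c ∧ ∀ e ∈ edges τ R c, e ∈ supp τ v Wd := by
    intro c hc
    obtain ⟨L, hL, rfl⟩ := (hC c).1 hc
    constructor
    · obtain ⟨g, hg, hgL⟩ := hCfE L hL
      have := hv.2 g hg
      rw [mem_stab, map_mul, map_mul, Equiv.Perm.mul_apply, Equiv.Perm.mul_apply] at this
      rw [← lift_mk_eq_walk, ← lift_mk_eq_walk, hgL]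
      apply (FreeGroup.lift τ g : Equiv.Perm Ω).injective
      rw [this, map_inv, Equiv.Perm.inv_def, Equiv.apply_symm_apply]
    · intro e he
      refine ⟨R ++ L, hRW L hL, ?_⟩
      rw [edges_append, List.mem_append]; exact Or.inl he
  obtain ⟨B, hB, lam, sig, phi, hNP, hpr, hphi⟩ := structure_thm τ hτ R hR x
    hx (fun a => π (FreeGroup.of a)) hgen C.card _ C rfl hcyc hA'
  have hv2 := valid_skew hNP S E R hS τ v hv lam (by
    intro g hg
    obtain ⟨L, hL, hLg⟩ := hE2 g hg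
    rw [← hLg, lift_mk_eq_walk]
    exact hpr _ ((hC _).2 ⟨L, hL, rfl⟩))
  intro w hw
  have h3 := hv2.1 w hw
  obtain ⟨L, hL, hLw⟩ := hSW w hw
  have h4 := pr_tele τ (fun a => π (FreeGroup.of a)) lam sig phi _ hphi L v (by
    intro f hf
    exact ⟨L, hL, hf⟩)
  rw [mem_stab] at h3
  have h5 := lift_skew τ lam L v 1
  rw [hLw, h3] at h5
  have h6 : pr τ lam L v = 1 := by
    have := congrArg Prod.snd h5
    simpa using this.symm
  have h7 : walk τ L v = v := (congrArg Prod.fst h5).symm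
  rw [h6, h7, map_one, hLw, lift_of_hom] at h4
  rw [h4]; simp

/-- Main theorem for cyclically reduced relators. -/
theorem main_crdc (R : List (α × Bool)) (hR : CRdc R) (hRne : R ≠ []) {G : Type} [Group G]
    (π : FreeGroup α →* G) (hπ : Function.Surjective π)
    (hker : π.ker = Subgroup.normalClosure {FreeGroup.mk R})
    (H : Subgroup G) (hfg : H.FG) (hH : ⁅H, H⁆ = H) : H = ⊥ := by
  classical
  obtain ⟨T, hT⟩ := hfg
  choose lft hlft using hπ
  obtain ⟨S, hSdef⟩ : ∃ S : Finset (FreeGroup α), S = T.image lft := ⟨_, rfl⟩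
  have hmap : (Subgroup.closure (S : Set (FreeGroup α))).map π = H := by
    rw [MonoidHom.map_closure, ← hT, hSdef]
    congr 1
    ext g
    simp only [Finset.coe_image, Set.mem_image, Finset.mem_coe, exists_exists_and_eq_and, hlft,
      exists_eq_right]
  have h1 : ∀ w ∈ S, ∃ κ ∈ ⁅Subgroup.closure (S : Set (FreeGroup α)),
      Subgroup.closure (S : Set (FreeGroup α))⁆,
      κ⁻¹ * w ∈ Subgroup.normalClosure {FreeGroup.mk R} := by
    intro w hw
    have : π w ∈ ⁅H, H⁆ := by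
      rw [hH, ← hmap]
      exact Subgroup.mem_map_of_mem π (Subgroup.subset_closure hw)
    rw [← hmap, ← Subgroup.map_commutator] at this
    obtain ⟨κ, hκ, hκ2⟩ := this
    refine ⟨κ, hκ, ?_⟩
    rw [← hker, MonoidHom.mem_ker, map_mul, map_inv, hκ2, inv_mul_cancel]
  have h2 : ∀ w : FreeGroup α, ∃ E : Finset (FreeGroup α), w ∈ S →
      ∃ κ ∈ ⁅Subgroup.closure (S : Set (FreeGroup α)), Subgroup.closure (S : Set (FreeGroup α))⁆,
      κ⁻¹ * w ∈ Subgroup.closure ((fun g => g * FreeGroup.mk R * g⁻¹) '' (E : Set _)) := by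
    intro w
    by_cases hw : w ∈ S
    · obtain ⟨κ, hκ, hκ2⟩ := h1 w hw
      obtain ⟨E, hE⟩ := exists_finite_conj _ _ hκ2
      exact ⟨E, fun _ => ⟨κ, hκ, hE⟩⟩
    · exact ⟨∅, fun h => absurd h hw⟩
  choose Ef hEf using h2
  obtain ⟨E, hE⟩ : ∃ E : Finset (FreeGroup α), E = S.biUnion Ef := ⟨_, rfl⟩
  have hS : ∀ w ∈ (S : Set (FreeGroup α)),
      ∃ κ ∈ ⁅Subgroup.closure (S : Set (FreeGroup α)), Subgroup.closure (S : Set (FreeGroup α))⁆,
      κ⁻¹ * w ∈ Subgroup.closure ((fun g => g * FreeGroup.mk R * g⁻¹) '' (E : Set _)) := by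
    intro w hw
    obtain ⟨κ, hκ, hκ2⟩ := hEf w hw
    refine ⟨κ, hκ, Subgroup.closure_mono ?_ hκ2⟩
    apply Set.image_mono
    rw [hE]
    intro g hg
    simp only [Finset.coe_biUnion, Set.mem_iUnion]
    exact ⟨w, hw, hg⟩
  obtain ⟨x, hx⟩ : ∃ x, ∃ b, (x, b) ∈ R := by
    obtain ⟨⟨x, b⟩, R', rfl⟩ := List.exists_cons_of_ne_nil hRne
    exact ⟨x, b, by simp⟩
  have hπR : π (FreeGroup.mk R) = 1 := by
    rw [← MonoidHom.mem_ker, hker]
    exact Subgroup.subset_normalClosure (Set.mem_singleton _)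
  obtain ⟨Cf, Wd, hE2, hCfE, hSW, hRW⟩ := exists_words S E R
  have := main_aux (↑S) (↑E) R hR x hx π hπR hS Cf Wd (fun g hg => hE2 g (Finset.mem_coe.1 hg))
    (fun L hL => by
      obtain ⟨g, h1, h2⟩ := hCfE L hL
      exact ⟨g, Finset.mem_coe.2 h1, h2⟩) (fun g hg => hSW g (Finset.mem_coe.1 hg)) hRW
  rw [← hmap, Subgroup.map_eq_bot_iff, Subgroup.closure_le]
  intro w hw
  exact this w hw

end Pool.Agent.Helper122
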