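import Pool.Agent.Helper122.Tower

set_option autoImplicit false

namespace Pool.Agent.Helper122

variable {α : Type} {Ω : Type}

theorem pr_ofAdd (τ : α → Equiv.Perm Ω) (χ : Ω × α → ℤ) (L : List (α × Bool)) (ω : Ω) :
    pr τ (fun f => Multiplicative.ofAdd (χ f)) L ω = Multiplicative.ofAdd (zs τ χ L ω) := by
  induction L with
  | nil => rfl
  | cons l L ih =>
    rw [pr_cons, ih, zs_cons, ofAdd_add]
    unfold lab
    split_ifs <;> simp

theorem pr_pot {Q : Type} [Group Q] (τ : α → Equiv.Perm Ω) (μ : Ω × α → Q) (s : Ω → Q)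
    (Γ : Set (Ω × α)) (h : ∀ ω y, (ω, y) ∈ Γ → μ (ω, y) = s (τ y ω) * (s ω)⁻¹)
    (L : List (α × Bool)) (ω : Ω) (hL : ∀ f ∈ edges τ L ω, f ∈ Γ) :
    pr τ μ L ω = s (walk τ L ω) * (s ω)⁻¹ := by
  induction L with
  | nil => simp
  | cons l L ih =>
    rw [pr_cons, ih (fun f hf => hL f (by simp [hf])), walk_cons]
    have hl := hL (edgeOf τ l (walk τ L ω)) (by simp)
    obtain ⟨p, hp⟩ : ∃ p, p = walk τ L ω := ⟨_, rfl⟩
    rw [← hp] at hl ⊢
    rcases l with ⟨y, b⟩
    cases b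
    · simp only [edgeOf, Bool.false_eq_true, if_false] at hl
      simp only [lab, edgeOf, Bool.false_eq_true, if_false, step]
      rw [h _ _ hl]
      simp only [Equiv.apply_symm_apply]
      group
    · simp only [edgeOf, if_true] at hl
      simp only [lab, edgeOf, if_true, step]
      rw [h _ _ hl]
      group

theorem mem_edges_iff (τ : α → Equiv.Perm Ω) (M : List (α × Bool)) (v : Ω) (e : Ω × α) :
    e ∈ edges τ M v ↔ ∃ l L, (l :: L) <:+ M ∧ e = edgeOf τ l (walk τ L v) := by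
  induction M with
  | nil => simp
  | cons m M ih =>
    simp only [edges_cons, List.mem_cons, ih]
    constructor
    · rintro (h | ⟨l, L, h1, h2⟩)
      · exact ⟨m, M, List.suffix_refl _, h⟩
      · exact ⟨l, L, h1.trans (List.suffix_cons _ _), h2⟩
    · rintro ⟨l, L, h1, h2⟩
      rcases List.suffix_cons_iff.1 h1 with h3 | h3
      · left
        simp only [List.cons.injEq] at h3
        rw [h2, h3.1, h3.2]
      · right
        exact ⟨l, L, h3, h2⟩

/-- Support edges of a family of words. -/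
def supp (τ : α → Equiv.Perm Ω) (v : Ω) (Wd : List (List (α × Bool))) : Set (Ω × α) :=
  {e | ∃ M ∈ Wd, e ∈ edges τ M v}

/-- All suffixes. -/
def sfx (Wd : List (List (α × Bool))) : List (List (α × Bool)) := Wd.flatMap List.tails

theorem mem_sfx (Wd : List (List (α × Bool))) (L : List (α × Bool)) :
    L ∈ sfx Wd ↔ ∃ M ∈ Wd, L <:+ M := by
  simp [sfx, List.mem_flatMap, List.mem_tails]

open Classical in
/-- support vertices -/
noncomputable def sv (τ : α → Equiv.Perm Ω) (v : Ω) (Wd : List (List (α × Bool))) : Finset Ω :=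
  ((sfx Wd).map (fun L => walk τ L v)).toFinset

theorem mem_sv (τ : α → Equiv.Perm Ω) (v : Ω) (Wd : List (List (α × Bool))) (ω : Ω) :
    ω ∈ sv τ v Wd ↔ ∃ L ∈ sfx Wd, walk τ L v = ω := by
  simp [sv]

theorem card_sv_le (τ : α → Equiv.Perm Ω) (v : Ω) (Wd : List (List (α × Bool))) :
    (sv τ v Wd).card ≤ (sfx Wd).length := by
  classical
  unfold sv
  exact (List.toFinset_card_le _).trans (by simp)

/-- A nonzero class strictly increases the number of support vertices in the cyclic cover. -/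
theorem card_sv_lt (τ : α → Equiv.Perm Ω) (v : Ω) (Wd : List (List (α × Bool)))
    (χ : Ω × α → ℤ) (ω0 : Ω) (L0 : List (α × Bool))
    (h1 : ∀ e ∈ edges τ L0 ω0, e ∈ supp τ v Wd) (h2 : walk τ L0 ω0 = ω0)
    (h3 : zs τ χ L0 ω0 ≠ 0) :
    (sv τ v Wd).card <
      (sv (skew τ (fun f => Multiplicative.ofAdd (χ f))) (v, 1) Wd).card := by
  classical
  obtain ⟨μ, hμ⟩ : ∃ μ : Ω × α → Multiplicative ℤ, μ = fun f => Multiplicative.ofAdd (χ f) :=
    ⟨_, rfl⟩
  rw [← hμ]
  have himg : sv τ v Wd = (sv (skew τ μ) (v, 1) Wd).image Prod.fst := by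
    ext ω
    simp only [mem_sv, Finset.mem_image]
    constructor
    · rintro ⟨L, hL, rfl⟩
      exact ⟨walk (skew τ μ) L (v, 1), ⟨L, hL, rfl⟩, by rw [walk_skew]⟩
    · rintro ⟨p, ⟨L, hL, rfl⟩, rfl⟩
      exact ⟨L, hL, by rw [walk_skew]⟩
  have hle : (sv τ v Wd).card ≤ (sv (skew τ μ) (v, 1) Wd).card := by
    rw [himg]; exact Finset.card_image_le
  refine lt_of_le_of_ne hle ?_
  intro heq
  rw [himg, Finset.card_image_iff] at heq
  -- potential
  have hex : ∀ ω, ∃ q : Multiplicative ℤ, ω ∈ sv τ v Wd → (ω, q) ∈ sv (skew τ μ) (v, 1) Wd := by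
    intro ω
    by_cases hω : ω ∈ sv τ v Wd
    · have := hω
      rw [himg, Finset.mem_image] at this
      obtain ⟨⟨ω', q⟩, hp, rfl⟩ := this
      exact ⟨q, fun _ => hp⟩
    · exact ⟨1, fun h => absurd h hω⟩
  choose s hs using hex
  have hsL : ∀ L ∈ sfx Wd, s (walk τ L v) = pr τ μ L v := by
    intro L hL
    have hm : walk τ L v ∈ sv τ v Wd := (mem_sv _ _ _ _).2 ⟨L, hL, rfl⟩
    have a1 := hs _ hm
    have a2 : (walk τ L v, pr τ μ L v) ∈ sv (skew τ μ) (v, 1) Wd :=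
      (mem_sv _ _ _ _).2 ⟨L, hL, by rw [walk_skew, mul_one]⟩
    have := heq (Finset.mem_coe.2 a1) (Finset.mem_coe.2 a2) rfl
    exact congrArg Prod.snd this
  have hpot : ∀ ω y, (ω, y) ∈ supp τ v Wd → μ (ω, y) = s (τ y ω) * (s ω)⁻¹ := by
    rintro ω y ⟨M, hM, he⟩
    rw [mem_edges_iff] at he
    obtain ⟨l, L, hlL, he⟩ := he
    have b1 : (l :: L) ∈ sfx Wd := (mem_sfx _ _).2 ⟨M, hM, hlL⟩
    have b2 : L ∈ sfx Wd := (mem_sfx _ _).2 ⟨M, hM, (List.suffix_cons l L).trans hlL⟩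
    have c1 := hsL _ b1
    have c2 := hsL _ b2
    rw [pr_cons, ← c2, walk_cons] at c1
    obtain ⟨p, hp⟩ : ∃ p, p = walk τ L v := ⟨_, rfl⟩
    rw [← hp] at c1 he
    rcases l with ⟨z, b⟩
    cases b
    · simp only [edgeOf, Bool.false_eq_true, if_false, Prod.mk.injEq] at he
      simp only [lab, edgeOf, Bool.false_eq_true, if_false, step] at c1
      obtain ⟨rfl, rfl⟩ := he
      rw [c1]
      simp
    · simp only [edgeOf, if_true, Prod.mk.injEq] at he
      simp only [lab, edgeOf, if_true, step] at c1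
      obtain ⟨rfl, rfl⟩ := he
      rw [c1]
      simp
  have := pr_pot τ μ s _ hpot L0 ω0 h1
  rw [h2, mul_inv_cancel, hμ, pr_ofAdd] at this
  exact h3 (by simpa using this)

/-- The lexicographic order on the cyclic cover. -/
noncomputable def lexOrder (Ω : Type) [LinearOrder Ω] : LinearOrder (Ω × Multiplicative ℤ) :=
  (inferInstance : LinearOrder (Ω ×ₗ Multiplicative ℤ))

theorem skew_strictMono [LinearOrder Ω] (τ : α → Equiv.Perm Ω) (hτ : ∀ y, StrictMono (τ y))
    (μ : Ω × α → Multiplicative ℤ) (y : α) :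
    @StrictMono _ _ (lexOrder Ω).toPreorder (lexOrder Ω).toPreorder (skew τ μ y) := by
  intro a b hab
  have h1 : toLex a < toLex b := hab
  have h2 : toLex (skew τ μ y a) < toLex (skew τ μ y b) := by
    rw [Prod.Lex.toLex_lt_toLex] at h1 ⊢
    rcases h1 with h1 | ⟨h1, h2⟩
    · left; exact hτ y h1
    · right
      refine ⟨by simp [skew, h1], ?_⟩
      simp only [skew, Equiv.coe_fn_mk, h1]
      exact mul_lt_mul_right h2 _
  exact h2

theorem exists_acyc (S E : Set (FreeGroup α)) (R : List (α × Bool))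
    (hS : ∀ w ∈ S, ∃ κ ∈ ⁅Subgroup.closure S, Subgroup.closure S⁆,
      κ⁻¹ * w ∈ Subgroup.closure ((fun g => g * FreeGroup.mk R * g⁻¹) '' E))
    (Wd : List (List (α × Bool))) (Cf : List (List (α × Bool)))
    (hE : ∀ g ∈ E, ∃ L ∈ Cf, FreeGroup.mk L = g⁻¹) :
    ∃ (Ω : Type) (_ : LinearOrder Ω) (τ : α → Equiv.Perm Ω) (v : Ω),
      (∀ y, StrictMono (τ y)) ∧ Valid S E (FreeGroup.mk R) τ v ∧
      ∀ C : Finset Ω, (∀ c, c ∈ C ↔ ∃ L ∈ Cf, walk τ L v = c) →
        Acyc τ R (supp τ v Wd) C := by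
  by_contra hno
  have key : ∀ n : ℕ, ∃ (Ω : Type) (_ : LinearOrder Ω) (τ : α → Equiv.Perm Ω) (v : Ω),
      (∀ y, StrictMono (τ y)) ∧ Valid S E (FreeGroup.mk R) τ v ∧ n ≤ (sv τ v Wd).card := by
    intro n
    induction n with
    | zero =>
      refine ⟨PUnit, inferInstance, fun _ => 1, PUnit.unit, ?_, ?_, Nat.zero_le _⟩
      · intro y a b hab; exact hab
      · exact ⟨fun w _ => rfl, fun g _ => rfl⟩
    | succ n ih =>
      obtain ⟨Ω, inst, τ, v, hτ, hv, hn⟩ := ih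
      have hna : ¬ ∀ C : Finset Ω, (∀ c, c ∈ C ↔ ∃ L ∈ Cf, walk τ L v = c) →
        Acyc τ R (supp τ v Wd) C := fun h => hno ⟨Ω, inst, τ, v, hτ, hv, h⟩
      simp only [not_forall] at hna
      obtain ⟨C, hC, hA⟩ := hna
      simp only [Acyc, not_forall] at hA
      obtain ⟨χ, hχ, ω0, L0, h1, h2, h3⟩ := hA
      refine ⟨Ω × Multiplicative ℤ, lexOrder Ω,
        skew τ (fun f => Multiplicative.ofAdd (χ f)), (v, 1), ?_, ?_, ?_⟩
      · exact skew_strictMono τ hτ _
      · apply valid_skew (noPerf_of_comm (fun a b => mul_comm a b)) S E R hS τ v hv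
        intro g hg
        obtain ⟨L, hL, hLg⟩ := hE g hg
        rw [← hLg, lift_mk_eq_walk, pr_ofAdd, hχ _ ((hC _).2 ⟨L, hL, rfl⟩)]
        rfl
      · exact lt_of_le_of_lt hn (card_sv_lt τ v Wd χ ω0 L0 h1 h2 h3)
  obtain ⟨Ω, inst, τ, v, hτ, hv, hn⟩ := key ((sfx Wd).length + 1)
  exact absurd (card_sv_le τ v Wd) (by omega)

/-- Finitely many conjugates suffice. -/
theorem exists_finite_conj (r : FreeGroup α) (w : FreeGroup α)
    (hw : w ∈ Subgroup.normalClosure {r}) :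
    ∃ E : Finset (FreeGroup α), w ∈ Subgroup.closure ((fun g => g * r * g⁻¹) '' (E : Set _)) := by
  classical
  rw [Subgroup.normalClosure] at hw
  induction hw using Subgroup.closure_induction with
  | mem w hw =>
    rw [Group.mem_conjugatesOfSet_iff] at hw
    obtain ⟨a, ha, hc⟩ := hw
    rw [Set.mem_singleton_iff] at ha
    subst ha
    obtain ⟨g, hg⟩ := isConj_iff.1 hc
    exact ⟨{g}, Subgroup.subset_closure ⟨g, by simp, hg⟩⟩
  | one => exact ⟨∅, Subgroup.one_mem _⟩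
  | mul a b _ _ ha hb =>
    obtain ⟨E1, h1⟩ := ha
    obtain ⟨E2, h2⟩ := hb
    refine ⟨E1 ∪ E2, Subgroup.mul_mem _ (Subgroup.closure_mono ?_ h1)
      (Subgroup.closure_mono ?_ h2)⟩
    · apply Set.image_mono; simp
    · apply Set.image_mono; simp
  | inv a _ ha =>
    obtain ⟨E, h⟩ := ha
    exact ⟨E, Subgroup.inv_mem _ h⟩

end Pool.Agent.Helper122
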