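import Mathlib

set_option autoImplicit false

namespace Pool.Agent.Helper122

/-- A group without nontrivial perfect subgroups. -/
def NoPerf (G : Type) [Group G] : Prop := ∀ W : Subgroup G, ⁅W, W⁆ = W → W = ⊥

theorem noPerf_of_comm {G : Type} [Group G] (h : ∀ a b : G, a * b = b * a) : NoPerf G := by
  intro W hW
  rw [← hW, eq_bot_iff, Subgroup.commutator_le]
  intro a _ b _
  rw [Subgroup.mem_bot, commutatorElement_eq_one_iff_mul_comm]
  exact h a b

theorem NoPerf.of_injective {G H : Type} [Group G] [Group H] (f : G →* H)
    (hf : Function.Injective f) (h : NoPerf H) : NoPerf G := by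
  intro W hW
  have := h (W.map f) (by rw [← Subgroup.map_commutator, hW])
  rw [Subgroup.map_eq_bot_iff, (MonoidHom.ker_eq_bot_iff f).2 hf] at this
  exact le_bot_iff.1 this

theorem NoPerf.ext {G Q M : Type} [Group G] [Group Q] [Group M] (f : G →* Q) (i : M →* G)
    (hi : Function.Injective i) (hk : f.ker ≤ i.range) (hQ : NoPerf Q) (hM : NoPerf M) :
    NoPerf G := by
  intro W hW
  have h1 := hQ (W.map f) (by rw [← Subgroup.map_commutator, hW])
  rw [Subgroup.map_eq_bot_iff] at h1
  have h2 : (W.comap i).map i = W := Subgroup.map_comap_eq_self (h1.trans hk)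
  have h3 := hM (W.comap i) (by
    apply Subgroup.map_injective hi
    rw [Subgroup.map_commutator, h2, hW])
  rw [← h2, h3, Subgroup.map_bot]

theorem noPerf_free (ι : Type) : NoPerf (FreeGroup ι) := by
  intro W hW
  have hfree : IsFreeGroup W := inferInstance
  have hc : commutator W = ⊤ := by
    apply Subgroup.map_injective W.subtype_injective
    rw [Subgroup.map_subtype_commutator, hW, ← MonoidHom.range_eq_map, Subgroup.range_subtype]
  by_contra hne
  have hX : Nonempty (IsFreeGroup.Generators W) := by
    by_contra hE
    rw [not_nonempty_iff] at hE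
    apply hne
    rw [Subgroup.eq_bot_iff_forall]
    intro x hx
    have : Subsingleton W := (IsFreeGroup.toFreeGroup W).toEquiv.subsingleton
    have := Subsingleton.elim (⟨x, hx⟩ : W) 1
    exact congrArg Subtype.val this
  obtain ⟨g⟩ := hX
  let f : W →* Multiplicative ℤ :=
    (FreeGroup.lift (fun _ => Multiplicative.ofAdd (1 : ℤ))).comp
      (IsFreeGroup.toFreeGroup W).toMonoidHom
  have hk : commutator W ≤ f.ker := Abelianization.commutator_subset_ker f
  rw [hc] at hk
  have h1 : f ((IsFreeGroup.toFreeGroup W).symm (FreeGroup.of g)) = 1 := hk trivial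
  simp [f] at h1

section coprod
variable {I B : Type} [Group B]

/-- Permuting the factors of a free product of copies. -/
def permHom (s : Equiv.Perm I) :
    Monoid.CoprodI (fun _ : I => B) →* Monoid.CoprodI (fun _ : I => B) :=
  Monoid.CoprodI.lift (fun i => (Monoid.CoprodI.of (M := fun _ : I => B) (i := s i)))

theorem permHom_of (s : Equiv.Perm I) (i : I) (b : B) :
    permHom s (Monoid.CoprodI.of (M := fun _ : I => B) (i := i) b) =
      Monoid.CoprodI.of (M := fun _ : I => B) (i := s i) b := by
  simp [permHom]

theorem permHom_comp (s t : Equiv.Perm I) :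
    (permHom (B := B) s).comp (permHom t) = permHom (s * t) := by
  apply Monoid.CoprodI.ext_hom
  intro i
  ext b
  simp [permHom_of]

theorem permHom_one : permHom (B := B) (1 : Equiv.Perm I) = MonoidHom.id _ := by
  apply Monoid.CoprodI.ext_hom
  intro i
  ext b
  simp [permHom_of]

/-- The action of permutations of the index set. -/
def permAut : Equiv.Perm I →* MulAut (Monoid.CoprodI (fun _ : I => B)) where
  toFun s :=
    { toFun := permHom s
      invFun := permHom s⁻¹
      left_inv := fun w => by
        have := DFunLike.congr_fun (permHom_comp (B := B) s⁻¹ s) w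
        rw [inv_mul_cancel, permHom_one] at this
        simpa using this
      right_inv := fun w => by
        have := DFunLike.congr_fun (permHom_comp (B := B) s s⁻¹) w
        rw [mul_inv_cancel, permHom_one] at this
        simpa using this
      map_mul' := map_mul _ }
  map_one' := by
    ext w
    have := DFunLike.congr_fun (permHom_one (I := I) (B := B)) w
    simpa using this
  map_mul' s t := by
    ext w
    have := DFunLike.congr_fun (permHom_comp (B := B) s t) w
    simpa using this.symm

theorem permAut_of (s : Equiv.Perm I) (i : I) (b : B) :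
    permAut s (Monoid.CoprodI.of (M := fun _ : I => B) (i := i) b) =
      Monoid.CoprodI.of (M := fun _ : I => B) (i := s i) b := permHom_of s i b

/-- The action on the free group. -/
def shiftAut : B →* MulAut (FreeGroup (I × B)) where
  toFun b :=
    { toFun := FreeGroup.map (fun p => (p.1, b * p.2))
      invFun := FreeGroup.map (fun p => (p.1, b⁻¹ * p.2))
      left_inv := fun w => by
        rw [FreeGroup.map.comp]
        convert FreeGroup.map.id w using 2
        ext p <;> simp
      right_inv := fun w => by
        rw [FreeGroup.map.comp]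
        convert FreeGroup.map.id w using 2
        ext p <;> simp
      map_mul' := map_mul _ }
  map_one' := by
    ext w
    simp
  map_mul' s t := by
    ext w
    simp only [MulEquiv.coe_mk, Equiv.coe_fn_mk, MulAut.mul_apply, FreeGroup.map.comp, mul_assoc]
    rfl

theorem shiftAut_of (b : B) (p : I × B) :
    shiftAut b (FreeGroup.of p) = FreeGroup.of (p.1, b * p.2) := by
  simp [shiftAut]

/-- first embedding : a free product of copies into free by B -/
def embFree : Monoid.CoprodI (fun _ : I => B) →* FreeGroup (I × B) ⋊[shiftAut] B :=
  Monoid.CoprodI.lift (fun i =>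
    (MulAut.conj (SemidirectProduct.inl (FreeGroup.of (i, (1 : B)))⁻¹ :
      FreeGroup (I × B) ⋊[shiftAut] B)).toMonoidHom.comp SemidirectProduct.inr)

open Classical in
/-- back map -/
noncomputable def backFree (i0 : I) : FreeGroup (I × B) ⋊[shiftAut] B →*
    Monoid.CoprodI (fun _ : I => B) ⋊[permAut] Equiv.Perm I :=
  SemidirectProduct.lift
    (FreeGroup.lift (fun p =>
      (SemidirectProduct.inl (Monoid.CoprodI.of (M := fun _ : I => B) (i := i0) p.2)) *
      (SemidirectProduct.inr (Equiv.swap i0 p.1)) *
      (SemidirectProduct.inl (Monoid.CoprodI.of (M := fun _ : I => B) (i := i0) p.2))⁻¹))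
    (SemidirectProduct.inl.comp (Monoid.CoprodI.of (M := fun _ : I => B) (i := i0)))
    (by
      intro b
      apply FreeGroup.ext_hom
      intro p
      simp only [MonoidHom.coe_comp, Function.comp_apply, MulEquiv.coe_toMonoidHom, shiftAut_of,
        FreeGroup.lift_apply_of, MulAut.conj_apply, map_mul]
      group)

theorem embFree_of (i : I) (b : B) :
    embFree (Monoid.CoprodI.of (M := fun _ : I => B) (i := i) b) =
      (SemidirectProduct.inl (FreeGroup.of (i, (1 : B))))⁻¹ * SemidirectProduct.inr b *
      (SemidirectProduct.inl (FreeGroup.of (i, (1 : B)))) := by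
  simp only [embFree, Monoid.CoprodI.lift_of, MonoidHom.coe_comp, Function.comp_apply,
    MulEquiv.coe_toMonoidHom, MulAut.conj_apply]
  rw [map_inv, inv_inv]

theorem backFree_embFree (i0 : I) :
    (backFree (B := B) i0).comp embFree = SemidirectProduct.inl := by
  classical
  apply Monoid.CoprodI.ext_hom
  intro i
  apply MonoidHom.ext
  intro b
  rw [MonoidHom.comp_apply, MonoidHom.comp_apply, MonoidHom.comp_apply, embFree_of]
  simp only [backFree, map_mul, map_inv, SemidirectProduct.lift_inl,
    SemidirectProduct.lift_inr, FreeGroup.lift_apply_of, map_one, inv_one, mul_one, one_mul,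
    MonoidHom.comp_apply]
  rw [← map_inv, ← SemidirectProduct.inl_aut_inv, ← map_inv, permAut_of]
  simp

theorem noPerf_coprodI (i0 : I) (hB : NoPerf B) :
    NoPerf (Monoid.CoprodI (fun _ : I => B)) := by
  have h1 : NoPerf (FreeGroup (I × B) ⋊[shiftAut] B) :=
    NoPerf.ext SemidirectProduct.rightHom SemidirectProduct.inl SemidirectProduct.inl_injective
      (by rw [SemidirectProduct.range_inl_eq_ker_rightHom]) hB (noPerf_free _)
  refine NoPerf.of_injective embFree ?_ h1
  have h2 : Function.Injective ((backFree (B := B) i0).comp embFree) := by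
    rw [backFree_embFree]; exact SemidirectProduct.inl_injective
  rw [MonoidHom.coe_comp] at h2
  exact Function.Injective.of_comp h2

end coprod

section coprod2
variable {A B : Type} [Group A] [Group B]

/-- left translations -/
def leftPerm : A →* Equiv.Perm A := MulAction.toPermHom A A

/-- embedding of a free product of two groups -/
def embC : Monoid.Coprod A B →*
    Monoid.CoprodI (fun _ : A => B) ⋊[permAut.comp leftPerm] A :=
  Monoid.Coprod.lift SemidirectProduct.inr
    (SemidirectProduct.inl.comp (Monoid.CoprodI.of (M := fun _ : A => B) (i := (1 : A))))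

/-- back map -/
def backC : Monoid.CoprodI (fun _ : A => B) ⋊[permAut.comp leftPerm] A →* Monoid.Coprod A B :=
  SemidirectProduct.lift
    (Monoid.CoprodI.lift (fun a =>
      (MulAut.conj (Monoid.Coprod.inl a : Monoid.Coprod A B)).toMonoidHom.comp Monoid.Coprod.inr))
    Monoid.Coprod.inl
    (by
      intro a
      apply Monoid.CoprodI.ext_hom
      intro i
      apply MonoidHom.ext
      intro b
      simp only [MonoidHom.comp_apply, MulEquiv.coe_toMonoidHom, permAut_of,
        Monoid.CoprodI.lift_of, MulAut.conj_apply]
      simp only [leftPerm, MulAction.toPermHom_apply, MulAction.toPerm_apply, smul_eq_mul, map_mul]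
      group)

theorem backC_embC : (backC (A := A) (B := B)).comp embC = MonoidHom.id _ := by
  apply Monoid.Coprod.hom_ext
  · ext a
    simp [backC, embC]
  · ext b
    simp [backC, embC]

theorem noPerf_coprod (hA : NoPerf A) (hB : NoPerf B) : NoPerf (Monoid.Coprod A B) := by
  have h1 : NoPerf (Monoid.CoprodI (fun _ : A => B) ⋊[permAut.comp leftPerm] A) :=
    NoPerf.ext SemidirectProduct.rightHom SemidirectProduct.inl SemidirectProduct.inl_injective
      (by rw [SemidirectProduct.range_inl_eq_ker_rightHom]) hA (noPerf_coprodI 1 hB)
  refine NoPerf.of_injective embC ?_ h1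
  have h2 : Function.Injective ((backC (A := A) (B := B)).comp embC) := by
    rw [backC_embC]; exact fun _ _ h => h
  rw [MonoidHom.coe_comp] at h2
  exact Function.Injective.of_comp h2

end coprod2

end Pool.Agent.Helper122
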