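import Pool.Agent.Helper122.Main
import Pool.Agent.Helper122.NoPerf

set_option autoImplicit false

namespace Pool.Agent.Helper122

variable {α : Type} {Ω : Type}

theorem pr_congr {Q : Type} [Group Q] (τ : α → Equiv.Perm Ω) {μ μ' : Ω × α → Q}
    (L : List (α × Bool)) (ω : Ω)
    (h : ∀ f ∈ edges τ L ω, μ f = μ' f) : pr τ μ L ω = pr τ μ' L ω := by
  induction L with
  | nil => rfl
  | cons l L ih =>
    rw [pr_cons, pr_cons, ih (fun f hf => h f (by simp [hf]))]
    unfold lab
    rw [h (edgeOf τ l (walk τ L ω)) (by simp)]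

theorem pr_map {Q P : Type} [Group Q] [Group P] (τ : α → Equiv.Perm Ω) (μ : Ω × α → Q)
    (j : Q →* P) (L : List (α × Bool)) (ω : Ω) :
    pr τ (fun f => j (μ f)) L ω = j (pr τ μ L ω) := by
  induction L with
  | nil => simp
  | cons l L ih =>
    rw [pr_cons, pr_cons, ih, map_mul]
    unfold lab
    split_ifs <;> simp

theorem pr_gen {G : Type} [Group G] (τ : α → Equiv.Perm Ω) (gen : α → G)
    (L : List (α × Bool)) (ω : Ω) :
    pr τ (fun f => gen f.2) L ω = FreeGroup.lift gen (FreeGroup.mk L) := by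
  rw [FreeGroup.lift_mk]
  induction L with
  | nil => simp
  | cons l L ih =>
    rw [pr_cons, ih]
    rcases l with ⟨y, b⟩
    cases b <;> simp [lab, edgeOf]

/-- Products along walks telescope. -/
theorem pr_tele {G B : Type} [Group G] [Group B] (τ : α → Equiv.Perm Ω) (gen : α → G)
    (lam : Ω × α → B) (sig : B →* G) (phi : Ω → G) (Γ : Set (Ω × α))
    (h : ∀ ω y, (ω, y) ∈ Γ → gen y = phi (τ y ω) * sig (lam (ω, y)) * (phi ω)⁻¹)
    (L : List (α × Bool)) (ω : Ω) (hL : ∀ f ∈ edges τ L ω, f ∈ Γ) :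
    FreeGroup.lift gen (FreeGroup.mk L) = phi (walk τ L ω) * sig (pr τ lam L ω) * (phi ω)⁻¹ := by
  rw [← pr_gen τ gen L ω]
  induction L with
  | nil => simp
  | cons l L ih =>
    rw [pr_cons, ih (fun f hf => hL f (by simp [hf])), pr_cons, map_mul, walk_cons]
    have hl := hL (edgeOf τ l (walk τ L ω)) (by simp)
    obtain ⟨p, hp⟩ : ∃ p, p = walk τ L ω := ⟨_, rfl⟩
    rw [← hp] at hl ⊢
    rcases l with ⟨y, b⟩
    cases b
    · simp only [edgeOf, Bool.false_eq_true, if_false] at hl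
      simp only [lab, edgeOf, Bool.false_eq_true, if_false, step]
      rw [h _ _ hl]
      simp only [Equiv.apply_symm_apply, map_inv]
      group
    · simp only [edgeOf, if_true] at hl
      simp only [lab, edgeOf, if_true, step]
      rw [h _ _ hl]
      group

/-- Structure theorem: along an acyclic system of relator cycles the generators are, up to a
potential, carried by a group without nontrivial perfect subgroups. -/
theorem structure_thm [LinearOrder Ω] (τ : α → Equiv.Perm Ω) (hτ : ∀ y, StrictMono (τ y))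
    (R : List (α × Bool)) (hR : CRdc R) (x : α)
    (hx : ∃ b, (x, b) ∈ R) {G : Type} [Group G] (gen : α → G)
    (hgen : FreeGroup.lift gen (FreeGroup.mk R) = 1) (n : ℕ) :
    ∀ (Γ : Set (Ω × α)) (C : Finset Ω), C.card = n →
      (∀ c ∈ C, walk τ R c = c ∧ ∀ e ∈ edges τ R c, e ∈ Γ) → Acyc τ R Γ C →
      ∃ (B : Type) (_ : Group B) (lam : Ω × α → B) (sig : B →* G) (phi : Ω → G),
        NoPerf B ∧ (∀ c ∈ C, pr τ lam R c = 1) ∧
        ∀ ω y, (ω, y) ∈ Γ → gen y = phi (τ y ω) * sig (lam (ω, y)) * (phi ω)⁻¹ := by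
  classical
  induction n with
  | zero =>
    intro Γ C hC h1 h2
    rw [Finset.card_eq_zero] at hC
    subst hC
    have hF := acyc_empty_forest τ R Γ h2
    obtain ⟨phi, hphi⟩ := hF.pot (fun f => gen f.2)
    refine ⟨PUnit, inferInstance, fun _ => 1, 1, phi, ?_, by simp, ?_⟩
    · exact noPerf_of_comm (fun _ _ => rfl)
    · intro ω y hy
      simpa using hphi ω y hy
  | succ n ih =>
    intro Γ C hC h1 h2
    have hne : C.Nonempty := by rw [← Finset.card_pos]; omega
    obtain ⟨c0, hc0⟩ : ∃ c0, c0 = C.max' hne := ⟨_, rfl⟩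
    have hc0m : c0 ∈ C := by rw [hc0]; exact Finset.max'_mem _ _
    have hmax : ∀ c ∈ C, c ≤ c0 := by intro c hc; rw [hc0]; exact Finset.le_max' _ _ hc
    obtain ⟨ωe, hg⟩ := exists_greatest_edge τ R x hx c0
    have hε : zs τ (delta (ωe, x)) R c0 ≠ 0 := by
      refine exp_ne_zero τ hτ R hR x Γ C ?_ h1 h2 c0 hc0m hmax ωe hg
      intro Γ' C' hcard g1 g2
      exact forest_least τ hτ R hR x hx Γ' C' g1 g2
    obtain ⟨g1, g2⟩ := acyc_erase τ hτ R x Γ C h1 h2 c0 hmax ωe hg hε
    obtain ⟨B', hB', lam', sig', phi', hNP, hpr, hphi⟩ := ih _ _ (by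
      rw [Finset.card_erase_of_mem hc0m, hC]; rfl) g1 g2
    have hF := forest_least τ hτ R hR x hx _ _ g1 g2
    obtain ⟨T, hT⟩ : ∃ T, T = (Γ \ {(ωe, x)}) \ {e : Ω × α | ∃ c ∈ C.erase c0, e.2 = x ∧
      IsLeast {ω | (ω, x) ∈ edges τ R c} e.1} := ⟨_, rfl⟩
    rw [← hT] at hF
    obtain ⟨ψ, hψ⟩ := hF.pot lam'
    obtain ⟨θ, hθ⟩ : ∃ θ, θ = (sig' (ψ (τ x ωe)))⁻¹ * (phi' (τ x ωe))⁻¹ * gen x * phi' ωe *
      sig' (ψ ωe) := ⟨_, rfl⟩
    have hTΓ : ∀ f ∈ T, f ∈ Γ \ {(ωe, x)} := by intro f hf; rw [hT] at hf; exact hf.1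
    have hL : ∀ f ∈ edges τ R c0, f ∈ T ∨ f = (ωe, x) := by
      intro f hf
      by_cases hfe : f = (ωe, x)
      · exact Or.inr hfe
      · left
        rw [hT]
        refine ⟨⟨(h1 c0 hc0m).2 f hf, hfe⟩, ?_⟩
        rcases f with ⟨ω, y⟩
        rintro ⟨c, hc, hy, hl⟩
        simp only at hy hl
        subst hy
        rw [Finset.mem_erase] at hc
        have hlt : c < c0 := lt_of_le_of_ne (hmax c hc.2) hc.1
        obtain ⟨ω', h3, h4⟩ := edges_gt hτ R hlt hf
        exact absurd (hl.2 h4) (not_le.2 h3)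
    have hθε : θ ^ (zs τ (delta (ωe, x)) R c0) = 1 := by
      have := tele τ T (ωe, x) (fun f => gen f.2) (fun ω => phi' ω * sig' (ψ ω)) θ
        (by
          intro ω y hy _
          have e1 := hphi ω y (hTΓ _ hy)
          rw [hψ ω y hy] at e1
          simp only
          rw [e1]
          simp only [map_mul, map_inv]
          group)
        (by
          simp only
          rw [hθ]
          group) R c0 hL
      rw [pr_gen, hgen, (h1 c0 hc0m).1] at this
      have h5 : (phi' c0 * sig' (ψ c0)) * θ ^ (zs τ (delta (ωe, x)) R c0) *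
        (phi' c0 * sig' (ψ c0))⁻¹ = 1 := this.symm
      exact conj_eq_one_iff.1 h5
    obtain ⟨ζ, hζ⟩ : ∃ ζ : Subgroup.zpowers θ, (ζ : G) = θ := ⟨⟨θ, Subgroup.mem_zpowers θ⟩, rfl⟩
    have hζε : ζ ^ (zs τ (delta (ωe, x)) R c0) = 1 := by
      apply Subtype.ext
      rw [Subgroup.coe_zpow, hζ, hθε]; rfl
    let ι : B' →* Monoid.Coprod B' (Subgroup.zpowers θ) := Monoid.Coprod.inl
    let κ : Subgroup.zpowers θ →* Monoid.Coprod B' (Subgroup.zpowers θ) := Monoid.Coprod.inr
    let lam : Ω × α → Monoid.Coprod B' (Subgroup.zpowers θ) := fun f =>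
      if f = (ωe, x) then ι (ψ (τ x ωe)) * κ ζ * (ι (ψ ωe))⁻¹ else ι (lam' f)
    refine ⟨Monoid.Coprod B' (Subgroup.zpowers θ), inferInstance, lam,
      Monoid.Coprod.lift sig' (Subgroup.zpowers θ).subtype, phi', ?_, ?_, ?_⟩
    · refine noPerf_coprod hNP (noPerf_of_comm (fun a b => ?_))
      obtain ⟨a, i, rfl⟩ := a
      obtain ⟨b, j, rfl⟩ := b
      apply Subtype.ext
      simp only [Subgroup.coe_mul]
      rw [← zpow_add, ← zpow_add, add_comm]
    · intro c hc
      by_cases hcc : c = c0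
      · rw [hcc]
        have := tele τ T (ωe, x) lam (fun ω => ι (ψ ω)) (κ ζ)
          (by
            intro ω y hy hn
            simp only [lam]
            rw [if_neg hn, hψ ω y hy, map_mul, map_inv])
          (by simp only [lam, if_true]) R c0 hL
        rw [this, ← map_zpow, hζε, map_one, (h1 c0 hc0m).1]
        simp
      · have hcE : c ∈ C.erase c0 := Finset.mem_erase.2 ⟨hcc, hc⟩
        rw [pr_congr τ (μ' := fun f => ι (lam' f)), pr_map, hpr c hcE, map_one]
        intro f hf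
        simp only [lam]
        rw [if_neg]
        exact ((g1 c hcE).2 f hf).2
    · intro ω y hy
      by_cases hfe : (ω, y) = (ωe, x)
      · simp only [lam]
        rw [if_pos hfe]
        simp only [Prod.mk.injEq] at hfe
        rw [hfe.1, hfe.2]
        simp only [map_mul, map_inv, ι, κ, Monoid.Coprod.lift_apply_inl,
          Monoid.Coprod.lift_apply_inr, Subgroup.coe_subtype]
        rw [hζ, hθ]
        group
      · simp only [lam]
        rw [if_neg hfe]
        simp only [ι, Monoid.Coprod.lift_apply_inl]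
        exact hphi ω y ⟨hy, hfe⟩

end Pool.Agent.Helper122
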