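import Pool.Agent.Helper122.Concrete

set_option autoImplicit false

namespace Pool.Agent.Helper122.Cuts

/-- An equivariant retraction for an injective homomorphism. -/
theorem exists_retraction {H Q : Type} [Group H] [Group Q] (j : H →* Q)
    (hj : Function.Injective j) :
    ∃ ρ : Q → H, (∀ h g, ρ (j h * g) = h * ρ g) ∧ ρ 1 = 1 := by
  classical
  let S : Setoid Q := {
    r := fun a b => ∃ h, b = j h * a
    iseqv := {
      refl := fun a => ⟨1, by simp⟩
      symm := by
        rintro a b ⟨h, rfl⟩
        exact ⟨h⁻¹, by simp⟩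
      trans := by
        rintro a b c ⟨h, rfl⟩ ⟨h', rfl⟩
        exact ⟨h' * h, by simp [mul_assoc]⟩ } }
  have hr : ∀ g : Q, ∃ h, g = j h * Quotient.out (Quotient.mk S g) := fun g =>
    Quotient.mk_out (s := S) g
  choose σ hσ using hr
  have hσ' : ∀ h g, σ (j h * g) = h * σ g := by
    intro h g
    have h1 : Quotient.mk S (j h * g) = Quotient.mk S g :=
      (Quotient.sound (s := S) ⟨h, rfl⟩ : Quotient.mk S g = Quotient.mk S (j h * g)).symm
    have h2 := hσ (j h * g)
    rw [h1] at h2
    have h3 := hσ g
    apply hj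
    rw [map_mul]
    apply mul_right_cancel (b := Quotient.out (Quotient.mk S g))
    rw [← h2, mul_assoc, ← h3]
  refine ⟨fun g => σ g * (σ 1)⁻¹, fun h g => ?_, by simp⟩
  show σ (j h * g) * (σ 1)⁻¹ = h * (σ g * (σ 1)⁻¹)
  rw [hσ', mul_assoc]

theorem closure_conj_mem {G : Type} [Group G] (S : Set G) (hS : ∀ g, ∀ x ∈ S, g * x * g⁻¹ ∈ S) :
    (Subgroup.closure S).Normal := by
  constructor
  intro n hn g
  induction hn using Subgroup.closure_induction with
  | mem x hx => exact Subgroup.subset_closure (hS g x hx)
  | one => simp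
  | mul x y _ _ hx hy =>
    have : g * (x * y) * g⁻¹ = (g * x * g⁻¹) * (g * y * g⁻¹) := by group
    rw [this]; exact Subgroup.mul_mem _ hx hy
  | inv x _ hx =>
    have : g * x⁻¹ * g⁻¹ = (g * x * g⁻¹)⁻¹ := by group
    rw [this]; exact Subgroup.inv_mem _ hx

theorem lip_of_embedding {H Q α : Type} [Group H] [Group Q] (s : FreeGroup α) (hs : NotPow s)
    (π : FreeGroup α →* Q) (hπ : Function.Surjective π)
    (hker : π.ker = Subgroup.normalClosure {s}) (j : H →* Q) (hj : Function.Injective j)
    (p : ℕ) [Fact p.Prime] : LIp H p := by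
  classical
  intro K hK hne
  by_contra hcon
  push Not at hcon
  obtain ⟨k, hk, hkK⟩ := nak ((Group.fg_iff_subgroup_fg K).2 hK) p hcon
  obtain ⟨T, hT⟩ := hK
  apply hne
  have hmap : (Subgroup.closure (T : Set H)).map j = Subgroup.closure ((T.image j : Finset Q) : Set Q)
      := by
    rw [MonoidHom.map_closure, Finset.coe_image]
  have key := li_main s hs π hπ hker (T.image j) (by
    intro g' hg'
    obtain ⟨g, hg, rfl⟩ := Finset.mem_image.1 hg'
    refine ⟨k, hk, ?_⟩
    have hgK : g ∈ K := by rw [← hT]; exact Subgroup.subset_closure hg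
    have h1 := hkK ⟨g, hgK⟩
    have h2 : g ^ k ∈ ⁅K, K⁆ := by
      rw [← Subgroup.map_subtype_commutator]
      exact ⟨_, h1, rfl⟩
    rw [← hmap, ← Subgroup.map_commutator, ← map_pow, hT]
    exact Subgroup.mem_map_of_mem j h2)
  rw [← hT, Subgroup.closure_eq_bot_iff]
  intro g hg
  have := key (j g) (Finset.mem_image_of_mem j hg)
  rw [← map_one j] at this
  exact hj this

/-- Main theorem. -/
theorem free_of_torsion {α : Type} [Countable α] (s : FreeGroup α) (m : ℕ) (hm : 2 ≤ m)
    (hs : NotPow s) (H : Subgroup (PresentedGroup ({s ^ m} : Set (FreeGroup α))))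
    (hH : H ⊓ Subgroup.closure
      {g : PresentedGroup ({s ^ m} : Set (FreeGroup α)) | IsOfFinOrder g} = ⊥) :
    IsFreeGroup H := by
  classical
  obtain ⟨p, hp, hpm⟩ := Nat.exists_prime_and_dvd (n := m) (by omega)
  have : Fact p.Prime := ⟨hp⟩
  let G := PresentedGroup ({s ^ m} : Set (FreeGroup α))
  let Q := PresentedGroup ({s} : Set (FreeGroup α))
  let t : α → Q := PresentedGroup.of
  have ht : FreeGroup.lift t = PresentedGroup.mk ({s} : Set (FreeGroup α)) := by
    apply FreeGroup.ext_hom; intro a; simp [t, PresentedGroup.of]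
  have hts : FreeGroup.lift t s = 1 := by
    rw [ht, ← MonoidHom.mem_ker, pres_ker]
    exact Subgroup.subset_normalClosure rfl
  have hq0 : ∀ r ∈ ({s ^ m} : Set (FreeGroup α)), FreeGroup.lift t r = 1 := by
    rintro r rfl
    rw [map_pow, hts, one_pow]
  let q : G →* Q := PresentedGroup.toGroup hq0
  have hq : ∀ w, q (PresentedGroup.mk _ w) = FreeGroup.lift t w := by
    intro w
    have : q.comp (PresentedGroup.mk _) = FreeGroup.lift t := by
      apply FreeGroup.ext_hom; intro a
      simp only [MonoidHom.comp_apply, FreeGroup.lift_apply_of]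
      exact PresentedGroup.toGroup.of hq0
    exact DFunLike.congr_fun this w
  -- the affine action
  have hact_pow : ∀ (k : ℕ) (x : Q × α →₀ ZMod p),
      (FreeGroup.lift (aff (p := p) t) (s ^ k) : Equiv.Perm _) x =
        k • ((FreeGroup.lift (aff (p := p) t) s : Equiv.Perm _) 0) + x := by
    intro k x
    induction k with
    | zero => simp
    | succ k ih =>
      rw [pow_succ', map_mul, Equiv.Perm.mul_apply, aff_key, ih, hts, LL_one, succ_nsmul]
      abel
  have ha0 : ∀ r ∈ ({s ^ m} : Set (FreeGroup α)), FreeGroup.lift (aff (p := p) t) r = 1 := by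
    rintro r rfl
    apply Equiv.ext
    intro x
    rw [hact_pow]
    obtain ⟨d, rfl⟩ := hpm
    have : (p * d) • ((FreeGroup.lift (aff (p := p) t) s : Equiv.Perm _) 0) = 0 := by
      ext e
      rw [Finsupp.smul_apply, nsmul_eq_mul]
      simp
    rw [this, zero_add]; rfl
  let act : G →* Equiv.Perm (Q × α →₀ ZMod p) := PresentedGroup.toGroup ha0
  have hact : ∀ w, act (PresentedGroup.mk _ w) = FreeGroup.lift (aff (p := p) t) w := by
    intro w
    have : act.comp (PresentedGroup.mk _) = FreeGroup.lift (aff (p := p) t) := by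
      apply FreeGroup.ext_hom; intro a
      simp only [MonoidHom.comp_apply, FreeGroup.lift_apply_of]
      exact PresentedGroup.toGroup.of ha0
    exact DFunLike.congr_fun this w
  have hactkey : ∀ (g : G) (x : Q × α →₀ ZMod p), act g x = act g 0 + LL (q g) x := by
    intro g x
    obtain ⟨w, rfl⟩ := PresentedGroup.mk_surjective _ g
    rw [hact, hq]; exact aff_key t w x
  -- the torsion subgroup contains the kernel of q
  have hN : q.ker ≤ Subgroup.closure
      {g : PresentedGroup ({s ^ m} : Set (FreeGroup α)) | IsOfFinOrder g} := by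
    intro g hg
    obtain ⟨w, rfl⟩ := PresentedGroup.mk_surjective _ g
    rw [MonoidHom.mem_ker, hq, ht, ← MonoidHom.mem_ker, pres_ker] at hg
    have hnorm : (Subgroup.closure
      {g : PresentedGroup ({s ^ m} : Set (FreeGroup α)) | IsOfFinOrder g}).Normal := by
      apply closure_conj_mem
      intro g x hx
      simp only [Set.mem_ofPred_eq] at hx ⊢
      rw [isOfFinOrder_iff_pow_eq_one] at hx ⊢
      obtain ⟨n, hn, hx⟩ := hx
      exact ⟨n, hn, by rw [conj_pow, hx]; simp⟩
    have hle : Subgroup.normalClosure {s} ≤ (Subgroup.closure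
      {g : PresentedGroup ({s ^ m} : Set (FreeGroup α)) | IsOfFinOrder g}).comap
        (PresentedGroup.mk _) := by
      apply Subgroup.normalClosure_le_normal
      rw [Set.singleton_subset_iff]
      apply Subgroup.subset_closure
      simp only [Set.mem_ofPred_eq]
      rw [isOfFinOrder_iff_pow_eq_one]
      refine ⟨m, by omega, ?_⟩
      rw [← map_pow, ← MonoidHom.mem_ker, pres_ker]
      exact Subgroup.subset_normalClosure rfl
    exact hle hg
  let j : H →* Q := q.comp H.subtype
  have hj : Function.Injective j := by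
    rw [injective_iff_map_eq_one]
    intro h hh
    have : (h : G) ∈ H ⊓ Subgroup.closure
      {g : PresentedGroup ({s ^ m} : Set (FreeGroup α)) | IsOfFinOrder g} := ⟨h.2, hN hh⟩
    rw [hH, Subgroup.mem_bot] at this
    exact Subtype.ext this
  obtain ⟨ρ, hρ1, hρ2⟩ := exists_retraction j hj
  let D : H → (EE j α →₀ ZMod p) := fun h => act (h : G) 0
  have hD : IsDer D := by
    intro a b
    show act ((a : G) * (b : G)) 0 = act (a : G) 0 + LL (q a) (act (b : G) 0)
    rw [map_mul, Equiv.Perm.mul_apply, hactkey]
  let B : (EE j α →₀ ZMod p) →+ (H →₀ ZMod p) :=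
    (Finsupp.mapDomain.addMonoidHom ρ).comp (B0 (p := p) t)
  have hB : Bdry D B := by
    refine ⟨?_, ?_, ?_⟩
    · intro a x
      have h1 : B0 (p := p) t (tl a x : EE j α →₀ ZMod p) = tl (q a) (B0 t x) := B0_LL t (q a) x
      show Finsupp.mapDomain ρ (B0 (p := p) t (tl a x : EE j α →₀ ZMod p)) =
        tl a (Finsupp.mapDomain ρ (B0 t x))
      rw [h1]
      simp only [tl, ← Finsupp.mapDomain_comp]
      congr 1
      funext g
      exact hρ1 a g
    · intro a
      show Finsupp.mapDomain ρ (B0 (p := p) t (act (a : G) 0)) = _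
      obtain ⟨w, hw⟩ := PresentedGroup.mk_surjective _ (a : G)
      have h1 : B0 (p := p) t (act (a : G) 0) = Finsupp.single (q a) 1 - Finsupp.single 1 1 := by
        rw [← hw, hact, hq]; exact B0_der t w
      have h2 : (q a : Q) = j a * 1 := by simp [j]
      rw [h1, sub_eq_add_neg, ← Finsupp.single_neg, Finsupp.mapDomain_add,
        Finsupp.mapDomain_single, Finsupp.mapDomain_single, h2, hρ1, hρ2, mul_one,
        Finsupp.single_neg, ← sub_eq_add_neg]
    · intro x
      have h1 : ∀ z : Q →₀ ZMod p, aug (Finsupp.mapDomain ρ z) = aug z := by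
        intro z
        have : (aug (p := p)).comp (Finsupp.mapDomain.addMonoidHom ρ) = aug := by
          apply Finsupp.addHom_ext
          intro y c
          simp [aug_single]
        exact DFunLike.congr_fun this z
      show aug (Finsupp.mapDomain ρ (B0 t x)) = 0
      rw [h1]; exact aug_B0 t x
  have htf : TF H := by
    intro g n hn hg
    apply hj
    rw [map_one]
    apply tf_main s hs (PresentedGroup.mk ({s} : Set (FreeGroup α)))
      (PresentedGroup.mk_surjective _) (pres_ker s) (j g) n hn
    rw [← map_pow, hg, map_one]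
  have hli : LIp H p := lip_of_embedding s hs (PresentedGroup.mk ({s} : Set (FreeGroup α)))
      (PresentedGroup.mk_surjective _) (pres_ker s) j hj p
  have hE : FreeAct H (EE j α) := by
    intro a e hae
    have h1 : j a * e.1 = e.1 := congrArg Prod.fst hae
    have h2 : j a = 1 := by simpa using h1
    exact hj (by rw [h2, map_one])
  have hc : Countable (EE j α) := by
    have h1 : Countable (FreeGroup α) := inferInstance
    have h2 : Countable Q := Function.Surjective.countable (PresentedGroup.mk_surjective _)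
    exact inferInstanceAs (Countable (Q × α))
  exact free_of_data htf hli hE hD hB

end Pool.Agent.Helper122.Cuts
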