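import Pool.Agent.Helper122.Struct

set_option autoImplicit false

namespace Pool.Agent.Helper122

variable {α : Type} {Ω : Type}

/-- Stabilizer of a vertex. -/
def stab (τ : α → Equiv.Perm Ω) (v : Ω) : Subgroup (FreeGroup α) where
  carrier := {w | (FreeGroup.lift τ w : Equiv.Perm Ω) v = v}
  one_mem' := by simp
  mul_mem' := by
    intro a b ha hb
    simp only [Set.mem_ofPred_eq] at *
    rw [map_mul, Equiv.Perm.mul_apply, hb, ha]
  inv_mem' := by
    intro a ha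
    simp only [Set.mem_ofPred_eq] at *
    rw [map_inv, Equiv.Perm.inv_eq_iff_eq, ha]

theorem mem_stab {τ : α → Equiv.Perm Ω} {v : Ω} {w : FreeGroup α} :
    w ∈ stab τ v ↔ (FreeGroup.lift τ w : Equiv.Perm Ω) v = v := Iff.rfl

theorem exists_mk (w : FreeGroup α) : ∃ L, FreeGroup.mk L = w := by
  classical
  exact ⟨w.toWord, FreeGroup.mk_toWord⟩

theorem lift_skew {Q : Type} [Group Q] (τ : α → Equiv.Perm Ω) (μ : Ω × α → Q)
    (L : List (α × Bool)) (ω : Ω) (q : Q) :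
    (FreeGroup.lift (skew τ μ) (FreeGroup.mk L) : Equiv.Perm (Ω × Q)) (ω, q) =
      (walk τ L ω, pr τ μ L ω * q) := by
  rw [lift_mk_eq_walk, walk_skew]

theorem lift_skew_fst {Q : Type} [Group Q] (τ : α → Equiv.Perm Ω) (μ : Ω × α → Q)
    (w : FreeGroup α) (p : Ω × Q) :
    ((FreeGroup.lift (skew τ μ) w : Equiv.Perm (Ω × Q)) p).1 =
      (FreeGroup.lift τ w : Equiv.Perm Ω) p.1 := by
  obtain ⟨L, rfl⟩ := exists_mk w
  rcases p with ⟨ω, q⟩
  rw [lift_skew, lift_mk_eq_walk]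

theorem lift_skew_snd {Q : Type} [Group Q] (τ : α → Equiv.Perm Ω) (μ : Ω × α → Q)
    (w : FreeGroup α) (p : Ω × Q) :
    ((FreeGroup.lift (skew τ μ) w : Equiv.Perm (Ω × Q)) p).2 =
      ((FreeGroup.lift (skew τ μ) w : Equiv.Perm (Ω × Q)) (p.1, 1)).2 * p.2 := by
  obtain ⟨L, rfl⟩ := exists_mk w
  rcases p with ⟨ω, q⟩
  rw [lift_skew, lift_skew]
  simp

/-- Holonomy. -/
def hol {Q : Type} [Group Q] (τ : α → Equiv.Perm Ω) (μ : Ω × α → Q) (v : Ω) :
    stab τ v →* Q where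
  toFun w := ((FreeGroup.lift (skew τ μ) w.1 : Equiv.Perm (Ω × Q)) (v, 1)).2
  map_one' := by simp
  map_mul' a b := by
    have hb : ((FreeGroup.lift (skew τ μ) b.1 : Equiv.Perm (Ω × Q)) (v, 1)).1 = v := by
      rw [lift_skew_fst]; exact b.2
    simp only [Subgroup.coe_mul, map_mul, Equiv.Perm.mul_apply]
    rw [lift_skew_snd, hb]

theorem hol_eq_one {Q : Type} [Group Q] (τ : α → Equiv.Perm Ω) (μ : Ω × α → Q) (v : Ω)
    (w : stab τ v) : hol τ μ v w = 1 ↔ w.1 ∈ stab (skew τ μ) (v, 1) := by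
  rw [mem_stab]
  constructor
  · intro h
    apply Prod.ext
    · rw [lift_skew_fst]; exact w.2
    · exact h
  · intro h
    exact congrArg Prod.snd h

theorem stab_skew_le {Q : Type} [Group Q] (τ : α → Equiv.Perm Ω) (μ : Ω × α → Q) (v : Ω) (q : Q) :
    stab (skew τ μ) (v, q) ≤ stab τ v := by
  intro w hw
  rw [mem_stab] at hw ⊢
  have := congrArg Prod.fst hw
  rw [lift_skew_fst] at this
  exact this

/-- Validity of a pointed action for the data. -/
def Valid (S E : Set (FreeGroup α)) (r : FreeGroup α) (τ : α → Equiv.Perm Ω) (v : Ω) : Prop :=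
  (∀ w ∈ S, w ∈ stab τ v) ∧ ∀ g ∈ E, g * r * g⁻¹ ∈ stab τ v

theorem valid_skew {Q : Type} [Group Q] (hQ : NoPerf Q) (S E : Set (FreeGroup α))
    (R : List (α × Bool))
    (hS : ∀ w ∈ S, ∃ κ ∈ ⁅Subgroup.closure S, Subgroup.closure S⁆,
      κ⁻¹ * w ∈ Subgroup.closure ((fun g => g * FreeGroup.mk R * g⁻¹) '' E))
    (τ : α → Equiv.Perm Ω) (v : Ω) (hv : Valid S E (FreeGroup.mk R) τ v) (μ : Ω × α → Q)
    (hμ : ∀ g ∈ E, pr τ μ R ((FreeGroup.lift τ g⁻¹ : Equiv.Perm Ω) v) = 1) :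
    Valid S E (FreeGroup.mk R) (skew τ μ) (v, 1) := by
  have hE : ∀ g ∈ E, g * FreeGroup.mk R * g⁻¹ ∈ stab (skew τ μ) (v, 1) := by
    intro g hg
    have h1 := hv.2 g hg
    rw [mem_stab, map_mul, map_mul, Equiv.Perm.mul_apply, Equiv.Perm.mul_apply] at h1 ⊢
    obtain ⟨p, hp⟩ : ∃ p, p = (FreeGroup.lift (skew τ μ) g⁻¹ : Equiv.Perm (Ω × Q)) (v, 1) :=
      ⟨_, rfl⟩
    have hp1 : p.1 = (FreeGroup.lift τ g⁻¹ : Equiv.Perm Ω) v := by rw [hp, lift_skew_fst]
    have hR1 : (FreeGroup.lift (skew τ μ) (FreeGroup.mk R) : Equiv.Perm (Ω × Q)) p = p := by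
      have : p = (p.1, p.2) := rfl
      rw [this, lift_skew, hp1, hμ g hg, one_mul, ← lift_mk_eq_walk]
      congr 1
      apply (FreeGroup.lift τ g : Equiv.Perm Ω).injective
      rw [h1]
      rw [map_inv, Equiv.Perm.inv_def, Equiv.apply_symm_apply]
    rw [← hp, hR1, hp, map_inv, Equiv.Perm.inv_def, Equiv.apply_symm_apply]
  refine ⟨?_, hE⟩
  have hle : Subgroup.closure ((fun g => g * FreeGroup.mk R * g⁻¹) '' E) ≤
      stab (skew τ μ) (v, 1) := by
    rw [Subgroup.closure_le]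
    rintro _ ⟨g, hg, rfl⟩
    exact hE g hg
  have hW : Subgroup.closure S ≤ stab τ v := by
    rw [Subgroup.closure_le]; exact hv.1
  let h : Subgroup.closure S →* Q := (hol τ μ v).comp (Subgroup.inclusion hW)
  have hh : ∀ w, h w = 1 ↔ w.1 ∈ stab (skew τ μ) (v, 1) := fun w =>
    hol_eq_one τ μ v (Subgroup.inclusion hW w)
  have key : h.range ≤ ⁅h.range, h.range⁆ := by
    rw [MonoidHom.range_eq_map, ← Subgroup.closure_closure_coe_preimage, Subgroup.map_le_iff_le_comap,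
      Subgroup.closure_le]
    intro w hw
    obtain ⟨κ, hκ, hρ⟩ := hS w.1 hw
    have hκ' : κ ∈ (commutator (Subgroup.closure S)).map (Subgroup.closure S).subtype := by
      rw [Subgroup.map_subtype_commutator]; exact hκ
    obtain ⟨κ', hκ1, rfl⟩ := hκ'
    rw [Subgroup.closure_closure_coe_preimage, SetLike.mem_coe, Subgroup.mem_comap]
    have e1 : h w = h κ' := by
      have : h (κ'⁻¹ * w) = 1 := by
        rw [hh]; exact hle hρ
      rw [map_mul, map_inv, inv_mul_eq_one] at this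
      exact this.symm
    rw [e1, ← Subgroup.map_commutator]
    exact Subgroup.mem_map_of_mem h hκ1
  have hr : h.range = ⊥ := by
    apply hQ
    apply le_antisymm _ key
    rw [Subgroup.commutator_le]
    intro a ha b hb
    exact Subgroup.mul_mem _ (Subgroup.mul_mem _ (Subgroup.mul_mem _ ha hb)
      (Subgroup.inv_mem _ ha)) (Subgroup.inv_mem _ hb)
  intro w hw
  rw [MonoidHom.range_eq_bot_iff] at hr
  have := DFunLike.congr_fun hr ⟨w, Subgroup.subset_closure hw⟩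
  exact (hh _).1 this

end Pool.Agent.Helper122
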