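import Pool.Agent.Helper122.Induct

set_option autoImplicit false

namespace Pool.Agent.Helper122.Cuts

variable {H : Type} [Group H] {E : Type} [MulAction H E] {p : ℕ}

/-- An ascending union of compatible bases is a basis. -/
theorem bas_iUnion (S : ℕ → Set H) (K : ℕ → Subgroup H) (hS : ∀ n, Bas (S n) (K n))
    (hmono : ∀ n, S n ⊆ S (n + 1)) (hK : ∀ h : H, ∃ n, h ∈ K n) : Bas (⋃ n, S n) (⊤ : Subgroup H) := by
  have hm : Monotone S := monotone_nat_of_le_succ hmono
  constructor
  · rw [injective_iff_map_eq_one]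
    intro w hw
    have key : ∀ w : FreeGroup ↥(⋃ n, S n), ∃ n, ∃ w' : FreeGroup (S n),
        FreeGroup.map (Set.inclusion (Set.subset_iUnion S n)) w' = w := by
      intro w
      induction w using FreeGroup.induction_on with
      | C1 => exact ⟨0, 1, by simp⟩
      | of s =>
        obtain ⟨s, hs⟩ := s
        obtain ⟨n, hn⟩ := Set.mem_iUnion.1 hs
        exact ⟨n, FreeGroup.of ⟨s, hn⟩, by simp⟩
      | inv_of s ih =>
        obtain ⟨n, w', h⟩ := ih
        exact ⟨n, w'⁻¹, by rw [map_inv, h]⟩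
      | mul x y hx hy =>
        obtain ⟨n, x', hx'⟩ := hx
        obtain ⟨m, y', hy'⟩ := hy
        refine ⟨max n m, FreeGroup.map (Set.inclusion (hm (le_max_left n m))) x' *
          FreeGroup.map (Set.inclusion (hm (le_max_right n m))) y', ?_⟩
        rw [map_mul, ← hx', ← hy', FreeGroup.map.comp, FreeGroup.map.comp]
        rfl
    obtain ⟨n, w', rfl⟩ := key w
    have h1 : FreeGroup.lift (fun s : S n => (s : H)) w' = 1 := by
      rw [← hw]
      have : (FreeGroup.lift (fun s : S n => (s : H))) =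
          (FreeGroup.lift (fun s : ↥(⋃ n, S n) => (s : H))).comp
            (FreeGroup.map (Set.inclusion (Set.subset_iUnion S n))) := by
        apply FreeGroup.ext_hom
        intro s
        simp
      rw [this]; rfl
    have h2 : w' = 1 := (injective_iff_map_eq_one _).1 (hS n).1 w' h1
    rw [h2, map_one]
  · rw [eq_top_iff]
    intro h _
    obtain ⟨n, hn⟩ := hK h
    rw [← (hS n).2] at hn
    exact Subgroup.closure_mono (Set.subset_iUnion S n) hn

/-- Invariant subset cut out by an injection to the naturals. -/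
def orb (f : E → ℕ) (n : ℕ) : Set E := {x | ∃ y, f y < n ∧ ∃ a : H, x = a • y}

theorem orb_inv (f : E → ℕ) (n : ℕ) (a : H) (x : E) :
    a • x ∈ orb (H := H) f n ↔ x ∈ orb (H := H) f n := by
  constructor
  · rintro ⟨y, hy, b, hb⟩
    exact ⟨y, hy, a⁻¹ * b, by rw [mul_smul, ← hb, inv_smul_smul]⟩
  · rintro ⟨y, hy, b, rfl⟩
    exact ⟨y, hy, a * b, by rw [mul_smul]⟩

open Classical in
/-- truncated derivation -/
noncomputable def trun (D : H → (E →₀ ZMod p)) (f : E → ℕ) (n : ℕ) : H → (E →₀ ZMod p) :=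
  fun a => (D a).filter (fun x => x ∉ orb (H := H) f n)

theorem trun_pos {D : H → (E →₀ ZMod p)} (f : E → ℕ) (n : ℕ) (a : H) (x : E)
    (hx : x ∉ orb (H := H) f n) : trun D f n a x = D a x := by
  classical
  simp [trun, hx]

theorem trun_neg {D : H → (E →₀ ZMod p)} (f : E → ℕ) (n : ℕ) (a : H) (x : E)
    (hx : x ∈ orb (H := H) f n) : trun D f n a x = 0 := by
  classical
  simp [trun, hx]

theorem trun_der {D : H → (E →₀ ZMod p)} (hD : IsDer D) (f : E → ℕ) (n : ℕ) :
    IsDer (trun D f n) := by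
  intro a b
  ext x
  rw [Finsupp.add_apply, tl_apply]
  by_cases hx : x ∈ orb (H := H) f n
  · rw [trun_neg f n _ x hx, trun_neg f n _ x hx, trun_neg f n _ _ ((orb_inv f n a⁻¹ x).2 hx),
      add_zero]
  · rw [trun_pos f n _ x hx, trun_pos f n _ x hx,
      trun_pos f n _ _ (fun h => hx ((orb_inv f n a⁻¹ x).1 h)), hD.apply]

theorem mem_dker_trun {D : H → (E →₀ ZMod p)} (hD : IsDer D) (f : E → ℕ) (n : ℕ) (a : H) :
    a ∈ dker _ (trun_der hD f n) ↔ ∀ x, D a x ≠ 0 → x ∈ orb (H := H) f n := by
  rw [mem_dker]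
  constructor
  · intro h x hx
    by_contra hcon
    apply hx
    have := DFunLike.congr_fun h x
    rwa [trun_pos f n _ x hcon] at this
  · intro h
    ext x
    by_cases hx : x ∈ orb (H := H) f n
    · rw [trun_neg f n _ x hx]; rfl
    · rw [trun_pos f n _ x hx]
      by_contra hcon
      exact hx (h x hcon)

/-- The truncated kernels lie in finitely generated subgroups. -/
theorem dker_le_fg [Fact p.Prime] {D : H → (E →₀ ZMod p)} (hD : IsDer D)
    {B : (E →₀ ZMod p) →+ (H →₀ ZMod p)}
    (hB : Bdry D B) (f : E → ℕ) (hf : Function.Injective f) (n : ℕ) :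
    ∃ C : Subgroup H, C.FG ∧ dker _ (trun_der hD f n) ≤ C := by
  classical
  have : NeZero p := ⟨(Fact.out : p.Prime).ne_zero⟩
  have hYfin : {y : E | f y < n}.Finite :=
    Set.Finite.preimage hf.injOn (Set.finite_Iio n)
  obtain ⟨U, hU⟩ : ∃ U : Set H, U = ⋃ y ∈ {y : E | f y < n}, ⋃ c : ZMod p,
      ((B (Finsupp.single y c)).support : Set H) := ⟨_, rfl⟩
  have hUfin : U.Finite := by
    rw [hU]
    apply Set.Finite.biUnion hYfin
    intro y _
    apply Set.finite_iUnion
    intro c
    exact Finset.finite_toSet _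
  refine ⟨Subgroup.closure U, ⟨hUfin.toFinset, by simp⟩, ?_⟩
  obtain ⟨C, hC⟩ : ∃ C, C = Subgroup.closure U := ⟨_, rfl⟩
  rw [← hC]
  let Q : (H →₀ ZMod p) →+ (H ⧸ C →₀ ZMod p) :=
    Finsupp.mapDomain.addMonoidHom (QuotientGroup.mk : H → H ⧸ C)
  have hQtl : ∀ (b : H) (z : H →₀ ZMod p), Q (tl b z) = tl b (Q z) := by
    intro b z
    simp only [Q, Finsupp.mapDomain.addMonoidHom_apply, tl, ← Finsupp.mapDomain_comp]
    rfl
  have hQ0 : ∀ z : H →₀ ZMod p, aug z = 0 → (∀ h ∈ z.support, h ∈ C) → Q z = 0 := by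
    intro z hz hs
    have h1 : Q z = Finsupp.single (QuotientGroup.mk (1 : H)) (aug z) := by
      have h2 : z = z.sum (fun h c => Finsupp.single h c) := (Finsupp.sum_single z).symm
      have h3 : aug z = z.sum (fun _ c => c) := by simp only [aug, Finsupp.liftAddHom_apply]; rfl
      rw [h3]
      conv_lhs => rw [h2]
      rw [map_finsuppSum]
      unfold Finsupp.sum
      have h4 := (map_sum (Finsupp.singleAddHom (QuotientGroup.mk (1 : H) : H ⧸ C))
        (fun a => z a) z.support)
      simp only [Finsupp.singleAddHom_apply] at h4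
      rw [h4]
      apply Finset.sum_congr rfl
      intro h hh
      simp only [Q, Finsupp.mapDomain.addMonoidHom_apply, Finsupp.mapDomain_single]
      congr 1
      rw [eq_comm, QuotientGroup.eq]
      simpa using hs h hh
    rw [h1, hz, Finsupp.single_zero]
  intro a ha
  rw [mem_dker_trun hD] at ha
  have h0 : Q (B (D a)) = 0 := by
    have h2 : D a = (D a).sum (fun x c => Finsupp.single x c) := (Finsupp.sum_single _).symm
    rw [h2, map_finsuppSum, map_finsuppSum]
    apply Finset.sum_eq_zero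
    intro x hx
    rw [Finsupp.mem_support_iff] at hx
    obtain ⟨y, hy, b, hb⟩ := ha x hx
    have h3 : (Finsupp.single x (D a x) : E →₀ ZMod p) = tl b (Finsupp.single y (D a x)) := by
      rw [hb]; simp [tl]
    show Q (B (Finsupp.single x (D a x))) = 0
    rw [h3, hB.equi, hQtl, hQ0 _ (hB.aug _)]
    · simp [tl]
    · intro h hh
      rw [hC]
      apply Subgroup.subset_closure
      rw [hU]
      simp only [Set.mem_iUnion]
      exact ⟨y, hy, D a x, hh⟩
  rw [hB.der, map_sub] at h0
  simp only [Q, Finsupp.mapDomain.addMonoidHom_apply, Finsupp.mapDomain_single] at h0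
  rw [sub_eq_zero] at h0
  have h4 := (Finsupp.single_left_inj (one_ne_zero)).1 h0
  rw [eq_comm, QuotientGroup.eq] at h4
  simpa using h4

/-- The abstract freeness theorem. -/
theorem free_of_data [Fact p.Prime] [Countable E] (htf : TF H) (hli : LIp H p) (hE : FreeAct H E)
    {D : H → (E →₀ ZMod p)} (hD : IsDer D) {B : (E →₀ ZMod p) →+ (H →₀ ZMod p)}
    (hB : Bdry D B) : IsFreeGroup H := by
  have hfree : ∀ K : Subgroup H, K.FG → ∃ S, Bas S K := fun K hK =>
    fg_free htf hli hE hD hB _ K hK rfl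
  obtain ⟨f, hf⟩ := Countable.exists_injective_nat E
  obtain ⟨K, hKdef⟩ : ∃ K : ℕ → Subgroup H, K = fun n => dker _ (trun_der hD f n) := ⟨_, rfl⟩
  have hKfg : ∀ n, (K n).FG := by
    intro n
    obtain ⟨C, hC, hle⟩ := dker_le_fg hD hB f hf n
    have := (ker_factor htf hli hE hfree (trun_der hD f n) _ C hC rfl).1
    rw [inf_eq_left.2 hle] at this
    rw [hKdef]; exact this
  have hKmono : ∀ n, K n ≤ K (n + 1) := by
    intro n a ha
    rw [hKdef] at ha ⊢
    simp only at ha ⊢
    rw [mem_dker_trun hD] at ha ⊢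
    intro x hx
    obtain ⟨y, hy, b, hb⟩ := ha x hx
    exact ⟨y, by omega, b, hb⟩
  have hstep : ∀ n, ∃ T : Set H, ∀ S, Bas S (K n) → Bas (S ∪ T) (K (n + 1)) := by
    intro n
    obtain ⟨-, T, hT⟩ := ker_factor htf hli hE hfree (trun_der hD f n) _ (K (n + 1))
      (hKfg (n + 1)) rfl
    have : dker _ (trun_der hD f n) ⊓ K (n + 1) = K n := by
      have h1 : dker _ (trun_der hD f n) = K n := by rw [hKdef]
      rw [h1]
      exact inf_eq_left.2 (hKmono n)
    rw [this] at hT
    exact ⟨T, hT⟩
  choose T hT using hstep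
  obtain ⟨S0, hS0⟩ := hfree (K 0) (hKfg 0)
  let S : ℕ → Set H := fun n => Nat.rec S0 (fun m s => s ∪ T m) n
  have hS : ∀ n, Bas (S n) (K n) := by
    intro n
    induction n with
    | zero => exact hS0
    | succ n ih => exact hT n _ ih
  have hall : ∀ h : H, ∃ n, h ∈ K n := by
    intro h
    have hfin : ((D h).support.image f : Finset ℕ).Nonempty ∨
      ¬ ((D h).support.image f : Finset ℕ).Nonempty := em _
    refine ⟨((D h).support.image f).sup id + 1, ?_⟩
    rw [hKdef]
    simp only
    rw [mem_dker_trun hD]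
    intro x hx
    refine ⟨x, ?_, 1, by simp⟩
    have : f x ∈ (D h).support.image f := Finset.mem_image_of_mem f (by
      rw [Finsupp.mem_support_iff]; exact hx)
    have h2 : f x ≤ ((D h).support.image f).sup id := Finset.le_sup (f := id) this
    omega
  have hB := bas_iUnion S K hS (fun n => Set.subset_union_left) hall
  have := hB.isFree
  exact IsFreeGroup.ofMulEquiv Subgroup.topEquiv

end Pool.Agent.Helper122.Cuts
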