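import Mathlib

set_option autoImplicit false

namespace Pool.Agent.Helper122

variable {α : Type} {Ω : Type}

/-- One step along a signed letter. -/
def step (τ : α → Equiv.Perm Ω) (l : α × Bool) (ω : Ω) : Ω :=
  if l.2 then τ l.1 ω else (τ l.1).symm ω

/-- The edge traversed by a step (an edge is its initial vertex together with a letter). -/
def edgeOf (τ : α → Equiv.Perm Ω) (l : α × Bool) (ω : Ω) : Ω × α :=
  (if l.2 then ω else (τ l.1).symm ω, l.1)

/-- Walk along a word, read from the right. -/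
def walk (τ : α → Equiv.Perm Ω) : List (α × Bool) → Ω → Ω
  | [], ω => ω
  | l :: L, ω => step τ l (walk τ L ω)

/-- The list of edges traversed. -/
def edges (τ : α → Equiv.Perm Ω) : List (α × Bool) → Ω → List (Ω × α)
  | [], _ => []
  | l :: L, ω => edgeOf τ l (walk τ L ω) :: edges τ L ω

/-- Label of a step. -/
def lab {Q : Type} [Group Q] (τ : α → Equiv.Perm Ω) (μ : Ω × α → Q) (l : α × Bool) (ω : Ω) : Q :=
  if l.2 then μ (edgeOf τ l ω) else (μ (edgeOf τ l ω))⁻¹

/-- Product of labels along a walk. -/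
def pr {Q : Type} [Group Q] (τ : α → Equiv.Perm Ω) (μ : Ω × α → Q) :
    List (α × Bool) → Ω → Q
  | [], _ => 1
  | l :: L, ω => lab τ μ l (walk τ L ω) * pr τ μ L ω

/-- Sum of integer labels along a walk. -/
def zs (τ : α → Equiv.Perm Ω) (χ : Ω × α → ℤ) : List (α × Bool) → Ω → ℤ
  | [], _ => 0
  | l :: L, ω => (if l.2 then χ (edgeOf τ l (walk τ L ω)) else - χ (edgeOf τ l (walk τ L ω)))
      + zs τ χ L ω

/-- No cancelling pair. -/
def Rdc (L : List (α × Bool)) : Prop := ∀ A B x b, L ≠ A ++ (x, b) :: (x, !b) :: B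

/-- Inverse letter and inverse word. -/
def invl (l : α × Bool) : α × Bool := (l.1, !l.2)
def invL (L : List (α × Bool)) : List (α × Bool) := (L.map invl).reverse

section basic
variable (τ : α → Equiv.Perm Ω)

@[simp] theorem walk_nil (ω : Ω) : walk τ [] ω = ω := rfl
@[simp] theorem walk_cons (l : α × Bool) (L : List (α × Bool)) (ω : Ω) :
    walk τ (l :: L) ω = step τ l (walk τ L ω) := rfl
@[simp] theorem edges_nil (ω : Ω) : edges τ [] ω = [] := rfl
@[simp] theorem edges_cons (l : α × Bool) (L : List (α × Bool)) (ω : Ω) :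
    edges τ (l :: L) ω = edgeOf τ l (walk τ L ω) :: edges τ L ω := rfl
@[simp] theorem pr_nil {Q : Type} [Group Q] (μ : Ω × α → Q) (ω : Ω) : pr τ μ [] ω = 1 := rfl
@[simp] theorem pr_cons {Q : Type} [Group Q] (μ : Ω × α → Q) (l : α × Bool)
    (L : List (α × Bool)) (ω : Ω) :
    pr τ μ (l :: L) ω = lab τ μ l (walk τ L ω) * pr τ μ L ω := rfl
@[simp] theorem zs_nil (χ : Ω × α → ℤ) (ω : Ω) : zs τ χ [] ω = 0 := rfl
theorem zs_cons (χ : Ω × α → ℤ) (l : α × Bool) (L : List (α × Bool)) (ω : Ω) :
    zs τ χ (l :: L) ω = (if l.2 then χ (edgeOf τ l (walk τ L ω))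
      else - χ (edgeOf τ l (walk τ L ω))) + zs τ χ L ω := rfl

theorem walk_append (A B : List (α × Bool)) (ω : Ω) :
    walk τ (A ++ B) ω = walk τ A (walk τ B ω) := by
  induction A with
  | nil => rfl
  | cons l A ih => simp [ih]

theorem edges_append (A B : List (α × Bool)) (ω : Ω) :
    edges τ (A ++ B) ω = edges τ A (walk τ B ω) ++ edges τ B ω := by
  induction A with
  | nil => rfl
  | cons l A ih => simp [ih, walk_append]

theorem pr_append {Q : Type} [Group Q] (μ : Ω × α → Q) (A B : List (α × Bool)) (ω : Ω) :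
    pr τ μ (A ++ B) ω = pr τ μ A (walk τ B ω) * pr τ μ B ω := by
  induction A with
  | nil => simp
  | cons l A ih => simp [ih, walk_append, mul_assoc]

theorem zs_append (χ : Ω × α → ℤ) (A B : List (α × Bool)) (ω : Ω) :
    zs τ χ (A ++ B) ω = zs τ χ A (walk τ B ω) + zs τ χ B ω := by
  induction A with
  | nil => simp
  | cons l A ih => simp [ih, walk_append, zs_cons, add_assoc]

@[simp] theorem step_invl (l : α × Bool) (ω : Ω) : step τ (invl l) (step τ l ω) = ω := by
  rcases l with ⟨x, b⟩
  cases b <;> simp [step, invl]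

@[simp] theorem step_invl' (l : α × Bool) (ω : Ω) : step τ l (step τ (invl l) ω) = ω := by
  rcases l with ⟨x, b⟩
  cases b <;> simp [step, invl]

@[simp] theorem invl_invl (l : α × Bool) : invl (invl l) = l := by
  rcases l with ⟨x, b⟩; simp [invl]

@[simp] theorem edgeOf_invl (l : α × Bool) (ω : Ω) :
    edgeOf τ (invl l) (step τ l ω) = edgeOf τ l ω := by
  rcases l with ⟨x, b⟩
  cases b <;> simp [step, invl, edgeOf]

theorem lab_invl {Q : Type} [Group Q] (μ : Ω × α → Q) (l : α × Bool) (ω : Ω) :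
    lab τ μ (invl l) (step τ l ω) = (lab τ μ l ω)⁻¹ := by
  rcases l with ⟨x, b⟩
  cases b <;> simp [step, invl, edgeOf, lab]

theorem invL_cons (l : α × Bool) (L : List (α × Bool)) : invL (l :: L) = invL L ++ [invl l] := by
  simp [invL]

theorem walk_invL (L : List (α × Bool)) (ω : Ω) : walk τ (invL L) (walk τ L ω) = ω := by
  induction L generalizing ω with
  | nil => rfl
  | cons l L ih => simp [invL_cons, walk_append, ih]

theorem mem_edges_invL (L : List (α × Bool)) (ω : Ω) (e : Ω × α) :
    e ∈ edges τ (invL L) (walk τ L ω) ↔ e ∈ edges τ L ω := by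
  induction L generalizing ω with
  | nil => simp [invL]
  | cons l L ih =>
    rw [invL_cons, edges_append]
    simp only [walk_cons, walk_nil, step_invl, List.mem_append, ih, edges_cons, edges_nil,
      edgeOf_invl, List.mem_cons, List.not_mem_nil, or_false]
    tauto

theorem pr_invL {Q : Type} [Group Q] (μ : Ω × α → Q) (L : List (α × Bool)) (ω : Ω) :
    pr τ μ (invL L) (walk τ L ω) = (pr τ μ L ω)⁻¹ := by
  induction L generalizing ω with
  | nil => simp [invL]
  | cons l L ih =>
    rw [invL_cons, pr_append]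
    simp [ih, lab_invl]

/-- Relation with homomorphisms from the free group. -/
theorem lift_mk_eq_walk (L : List (α × Bool)) (ω : Ω) :
    (FreeGroup.lift τ (FreeGroup.mk L) : Equiv.Perm Ω) ω = walk τ L ω := by
  rw [FreeGroup.lift_mk]
  induction L with
  | nil => simp
  | cons l L ih =>
    rcases l with ⟨x, b⟩
    simp only [List.map_cons, List.prod_cons, Equiv.Perm.mul_apply, ih, walk_cons, step]
    cases b <;> simp [Equiv.Perm.inv_def]

/-- Skew product permutations. -/
def skew {Q : Type} [Group Q] (μ : Ω × α → Q) (x : α) : Equiv.Perm (Ω × Q) where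
  toFun p := (τ x p.1, μ (p.1, x) * p.2)
  invFun p := ((τ x).symm p.1, (μ ((τ x).symm p.1, x))⁻¹ * p.2)
  left_inv p := by simp
  right_inv p := by simp

theorem walk_skew {Q : Type} [Group Q] (μ : Ω × α → Q) (L : List (α × Bool)) (ω : Ω) (q : Q) :
    walk (skew τ μ) L (ω, q) = (walk τ L ω, pr τ μ L ω * q) := by
  induction L with
  | nil => simp
  | cons l L ih =>
    rcases l with ⟨x, b⟩
    simp only [walk_cons, ih, pr_cons]
    cases b <;> simp [step, skew, lab, edgeOf, mul_assoc]

end basic

section reduction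

theorem Rdc.sub {L A B C : List (α × Bool)} (h : Rdc L) (e : L = A ++ B ++ C) : Rdc B := by
  intro A' B' x b hB
  apply h (A ++ A') (B' ++ C) x b
  rw [e, hB]; simp

theorem mk_cancel (A B : List (α × Bool)) (x : α) (b : Bool) :
    (FreeGroup.mk (A ++ (x, b) :: (x, !b) :: B) : FreeGroup α) = FreeGroup.mk (A ++ B) :=
  Quot.sound FreeGroup.Red.Step.not

theorem exists_rdc (τ : α → Equiv.Perm Ω) (L : List (α × Bool)) :
    ∃ L' : List (α × Bool), Rdc L' ∧ (FreeGroup.mk L' : FreeGroup α) = FreeGroup.mk L ∧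
      ∀ ω, (∀ e ∈ edges τ L' ω, e ∈ edges τ L ω) := by
  induction hn : L.length using Nat.strong_induction_on generalizing L with
  | _ n ih =>
    by_cases h : Rdc L
    · exact ⟨L, h, rfl, fun _ _ h => h⟩
    · simp only [Rdc, not_forall, not_not] at h
      obtain ⟨A, B, x, b, rfl⟩ := h
      obtain ⟨L', h1, h2, h3⟩ := ih (A ++ B).length (by rw [← hn]; simp) (A ++ B) rfl
      refine ⟨L', h1, by rw [h2, mk_cancel], fun ω e he => ?_⟩
      have := h3 ω e he
      rw [edges_append] at this ⊢
      have hw : walk τ ((x, b) :: (x, !b) :: B) ω = walk τ B ω := by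
        simp only [walk_cons]
        have : ((x, !b) : α × Bool) = invl (x, b) := rfl
        rw [this, step_invl']
      rw [hw]
      rw [List.mem_append] at this ⊢
      rcases this with h | h
      · exact Or.inl h
      · right; simp [h]

theorem walk_eq_of_mk_eq (τ : α → Equiv.Perm Ω) {L L' : List (α × Bool)}
    (h : (FreeGroup.mk L : FreeGroup α) = FreeGroup.mk L') (ω : Ω) :
    walk τ L ω = walk τ L' ω := by
  rw [← lift_mk_eq_walk, ← lift_mk_eq_walk, h]

theorem pr_eq_of_mk_eq {Q : Type} [Group Q] (τ : α → Equiv.Perm Ω) (μ : Ω × α → Q)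
    {L L' : List (α × Bool)}
    (h : (FreeGroup.mk L : FreeGroup α) = FreeGroup.mk L') (ω : Ω) :
    pr τ μ L ω = pr τ μ L' ω := by
  have := walk_eq_of_mk_eq (skew τ μ) h (ω, 1)
  rw [walk_skew, walk_skew] at this
  simpa using congrArg Prod.snd this

end reduction

end Pool.Agent.Helper122
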